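import Pool.Agent.Lib.MP_d439b2_co.M4.Spec

/-!
# MP_d439b2_co, column `C_4`, row `K4:0,12`: large cliques have balanced cuts
-/

set_option autoImplicit false

namespace Pool.Agent.MPd439b2.M4

open Pool.Agent.MPd439b2 Pool.Agent.MPd439b2.LK

namespace BigAux

/-- every clique is contained in a maximal clique -/
theorem ext {V : Type} [Finite V] (G : SimpleGraph V) (A : Set V) (hA : CompleteOn G A) :
    ∃ K, A ⊆ K ∧ MC G K := by
  obtain ⟨K, ⟨hAK, hK⟩, hmax⟩ := Set.exists_max_image {K : Set V | A ⊆ K ∧ CompleteOn G K}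
    Set.ncard (Set.toFinite _) ⟨A, subset_rfl, hA⟩
  refine ⟨K, hAK, hK, fun v hv => ?_⟩
  by_contra hne
  have hadj : ∀ k ∈ K, G.Adj v k := by
    intro k hk
    by_contra h
    exact hne ⟨k, hk, h⟩
  have hins : CompleteOn G (insert v K) := by
    rintro a (rfl | ha) b (rfl | hb) hab
    · exact absurd rfl hab
    · exact hadj b hb
    · exact (hadj a ha).symm
    · exact hK a ha b hb hab
  have h := hmax (insert v K) ⟨fun a ha => Or.inr (hAK ha), hins⟩
  rw [Set.ncard_insert_of_notMem hv (Set.toFinite _)] at h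
  omega

end BigAux

theorem big (h1 : S_Rg) (h2 : S_Mod) (h3 : S_Pt) : S_Big := by
  intro V _ G S m hG hS hn hU
  have hn2 : 2 * m + 2 ≤ S.ncard := by omega
  have hne : {C : Set V | ∃ (K : Set V) (x y : V), MC G K ∧ (S \ K).ncard ≤ m ∧
      Ptd G S K C x y m ∧ S ∩ C = ∅}.Nonempty := by
    obtain ⟨K, hSK, hK⟩ := BigAux.ext G S hS
    have h0 : (S \ K).ncard ≤ m := by
      rw [Set.sdiff_eq_empty.2 hSK, Set.ncard_empty]
      exact Nat.zero_le _
    obtain ⟨C, x, y, hC⟩ := h3 V G S K m hG hS hU hn hK h0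
    refine ⟨C, K, x, y, hK, h0, hC, ?_⟩
    rw [Set.eq_empty_iff_forall_notMem]
    rintro s ⟨hs, hsC⟩
    exact hC.1.1.1 hsC (hSK hs)
  obtain ⟨C, ⟨K, x, y, hK, hSK, hP, hSC⟩, hmin⟩ := Set.exists_min_image _ Set.ncard
    (Set.toFinite _) hne
  obtain ⟨hCT, hP2⟩ := hP
  have hCT' := hCT
  obtain ⟨⟨hCK, hCc, hCn⟩, hxC, hyC, hxm, hym⟩ := hCT'
  have hnbK : ∀ u ∈ nb G C, u ∈ K := by
    intro u hu
    by_contra h
    exact hCn u h hu
  have hSC' : ∀ s ∈ S, s ∉ C := by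
    intro s hs hsC
    have : s ∈ S ∩ C := ⟨hs, hsC⟩
    rw [hSC] at this
    exact this
  have hA : CompleteOn G (insert x (K \ Ms G K x)) := by
    have hx : ∀ k ∈ K \ Ms G K x, G.Adj x k := by
      intro k hk
      by_contra h
      exact hk.2 ⟨hk.1, h⟩
    rintro a (rfl | ha) b (rfl | hb) hab
    · exact absurd rfl hab
    · exact hx b hb
    · exact (hx a ha).symm
    · exact hK.1 a ha.1 b hb.1 hab
  obtain ⟨L, hAL, hL⟩ := BigAux.ext G _ hA
  have hxL : x ∈ L := hAL (Or.inl rfl)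
  have hRL : Ms G K y \ Ms G K x ⊆ L := fun r hr => hAL (Or.inr ⟨hr.1.1, hr.2⟩)
  have hSL : (S \ L).ncard ≤ m := by
    refine le_trans (Set.ncard_le_ncard ?_ (Set.toFinite _)) hP2
    rintro s ⟨hs, hsL⟩
    refine ⟨hs, ?_⟩
    rintro (h | h)
    · exact hSC' s hs h
    · exact hsL (hRL h)
  obtain ⟨C', x', y', hCT₂, hQ2⟩ := h3 V G S L m hG hS hU hn hL hSL
  have hCT₂' := hCT₂
  obtain ⟨⟨hCL', hCc', hCn'⟩, hxC', hyC', hxm', hym'⟩ := hCT₂'
  have hdich : C' ⊆ C ∨ Disjoint C' C := by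
    by_cases hint : (C' ∩ C).Nonempty
    · left
      have heq : C' ∩ C = C' := by
        refine Conn.eq_of_nb hCc' Set.inter_subset_left hint ?_
        rintro v hv ⟨hvn, a, ha, hav⟩
        have hvC : v ∉ C := fun h => hvn ⟨hv, h⟩
        have hvK : v ∈ K := hnbK v ⟨hvC, a, ha.2, hav⟩
        have hvx : v ∉ Ms G K x := by
          intro h
          exact (hxm a ha.2 h).2 hav
        exact hCL' hv (hAL (Or.inr ⟨hvK, hvx⟩))
      rw [← heq]
      exact Set.inter_subset_right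
    · right
      rw [Set.disjoint_iff_inter_eq_empty]
      exact Set.not_nonempty_iff_eq_empty.1 hint
  rcases hdich with hsub | hdis
  · have hlt : C'.ncard < C.ncard := by
      refine Set.ncard_lt_ncard ?_ (Set.toFinite _)
      refine ⟨hsub, fun h => ?_⟩
      exact hCL' (h hxC) hxL
    have hle := hmin C' ⟨L, x', y', hL, hSL, ⟨hCT₂, hQ2⟩, by
      rw [Set.eq_empty_iff_forall_notMem]
      rintro s ⟨hs, hsC⟩
      exact hSC' s hs (hsub hsC)⟩
    omega
  · obtain ⟨-, R₁, hR₁, hR₁n, hR₁a⟩ := h1 V G S K C x y m hG hS hU hn2 hK hCT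
    obtain ⟨-, R₂, hR₂, hR₂n, hR₂a⟩ := h1 V G S L C' x' y' m hG hS hU hn2 hL hCT₂
    have hSR : (S \ (Ms G K y \ Ms G K x)).ncard ≤ m := by
      refine le_trans (Set.ncard_le_ncard ?_ (Set.toFinite _)) hP2
      rintro s ⟨hs, hsR⟩
      refine ⟨hs, ?_⟩
      rintro (h | h)
      · exact hSC' s hs h
      · exact hsR h
    have hSR' : (S \ (Ms G L y' \ Ms G L x')).ncard ≤ 2 * m := by
      have hsub : S \ (Ms G L y' \ Ms G L x') ⊆ (S \ (C' ∪ (Ms G L y' \ Ms G L x'))) ∪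
          (S \ (Ms G K y \ Ms G K x)) := by
        rintro s ⟨hs, hsR⟩
        by_cases hsC : s ∈ C'
        · refine Or.inr ⟨hs, fun h => ?_⟩
          exact hCL' hsC (hRL h)
        · refine Or.inl ⟨hs, ?_⟩
          rintro (h | h)
          · exact hsC h
          · exact hsR h
      have e1 := Set.ncard_le_ncard hsub (Set.toFinite _)
      have e2 := Set.ncard_union_le (S \ (C' ∪ (Ms G L y' \ Ms G L x')))
        (S \ (Ms G K y \ Ms G K x))
      omega
    have hmod := h2 V G S (R₁ ∩ R₂) m hS hU hn2 (fun s hs => (hR₁ hs.1).1) ?_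
    · have hsub : S ⊆ ((S \ (Ms G K y \ Ms G K x)) ∪ ((S ∩ (Ms G K y \ Ms G K x)) \ R₁)) ∪
          (((S \ (Ms G L y' \ Ms G L x')) ∪ ((S ∩ (Ms G L y' \ Ms G L x')) \ R₂)) ∪
            (R₁ ∩ R₂)) := by
        intro s hs
        by_cases ha : s ∈ Ms G K y \ Ms G K x
        · by_cases hb : s ∈ R₁
          · by_cases hc : s ∈ Ms G L y' \ Ms G L x'
            · by_cases hd : s ∈ R₂
              · exact Or.inr (Or.inr ⟨hb, hd⟩)
              · exact Or.inr (Or.inl (Or.inr ⟨⟨hs, hc⟩, hd⟩))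
            · exact Or.inr (Or.inl (Or.inl ⟨hs, hc⟩))
          · exact Or.inl (Or.inr ⟨⟨hs, ha⟩, hb⟩)
        · exact Or.inl (Or.inl ⟨hs, ha⟩)
      have e1 := Set.ncard_le_ncard hsub (Set.toFinite _)
      have e2 := Set.ncard_union_le
        ((S \ (Ms G K y \ Ms G K x)) ∪ ((S ∩ (Ms G K y \ Ms G K x)) \ R₁))
        (((S \ (Ms G L y' \ Ms G L x')) ∪ ((S ∩ (Ms G L y' \ Ms G L x')) \ R₂)) ∪ (R₁ ∩ R₂))
      have e3 := Set.ncard_union_le (S \ (Ms G K y \ Ms G K x))
        ((S ∩ (Ms G K y \ Ms G K x)) \ R₁)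
      have e4 := Set.ncard_union_le
        ((S \ (Ms G L y' \ Ms G L x')) ∪ ((S ∩ (Ms G L y' \ Ms G L x')) \ R₂)) (R₁ ∩ R₂)
      have e5 := Set.ncard_union_le (S \ (Ms G L y' \ Ms G L x'))
        ((S ∩ (Ms G L y' \ Ms G L x')) \ R₂)
      omega
    · intro v hv
      by_cases hvK : v ∈ K
      · left
        intro s hs
        exact hK.1 v hvK s (hR₁ hs.1).2.1.1 (fun h => hv (h ▸ hs))
      by_cases hvL : v ∈ L
      · left
        intro s hs
        exact hL.1 v hvL s (hR₂ hs.2).2.1.1 (fun h => hv (h ▸ hs))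
      by_cases hvC : v ∈ C
      · have hvC' : v ∉ C' := fun h => Set.disjoint_left.1 hdis h hvC
        rcases hR₂a v hvL hvC' with h | h
        · exact Or.inl fun s hs => h s hs.2
        · exact Or.inr fun s hs => h s hs.2
      · rcases hR₁a v hvK hvC with h | h
        · exact Or.inl fun s hs => h s hs.1
        · exact Or.inr fun s hs => h s hs.1

end Pool.Agent.MPd439b2.M4
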