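import Pool.Agent.Lib.MP_d439b2_co.M4.Spec

/-!
# MP_d439b2_co, M4/Cut: the cut `R ∪ L`
-/

set_option autoImplicit false

namespace Pool.Agent.MPd439b2.M4

open Pool.Agent.MPd439b2 Pool.Agent.MPd439b2.LK

theorem cut (h1 : LK.S_A1) (_h2 : LK.S_A2) (h3 : S_Rm) : S_Cut := by
  intro V _ G S K R T L m hCl hS hU hm hK hR hT hRT hKL hL hv hl
  obtain ⟨sym, mono, un, card, one, fam⟩ := h1 V G
  set E₁ : Set V := {e | e ∈ R ∧ ∃ v, v ∉ K ∧ v ∉ L ∧ ∀ r ∈ R, (G.Adj v r ↔ r = e)} with hE₁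
  set F₁ : Set V := {f | f ∈ T ∧ ∃ l ∈ L, ∀ t ∈ T, (G.Adj l t ↔ t ≠ f)} with hF₁
  have cE : CompleteOn G E₁ := fun u hu w hw => hK u (hR hu.1) w (hR hw.1)
  have cF : CompleteOn G F₁ := fun u hu w hw => hK u (hT hu.1) w (hT hw.1)
  have pE : ∀ e ∈ E₁, (pZ G E₁ e).Nonempty := by
    rintro e ⟨heR, v, hvK, hvL, hve⟩
    exact ⟨v, fun h => hvK (hR h.1), fun f hf => hve f hf.1⟩
  have pF' : ∀ f ∈ F₁, (pW G F₁ f).Nonempty := by
    rintro f ⟨hfT, l, hlL, hlf⟩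
    exact ⟨l, fun h => Set.disjoint_left.1 hKL (hT h.1) hlL, fun t ht => hlf t ht.1⟩
  obtain ⟨I₁, B₁, hI₁, hIB₁, hn₁, hc₁, hs₁⟩ := h3 V G S E₁ m hCl hS hU hm cE (Or.inl pE)
  obtain ⟨I₂, B₂, hI₂, hIB₂, hn₂, hc₂, hs₂⟩ := h3 V G S F₁ m hCl hS hU hm cF (Or.inr pF')
  set X : Set V := (R ∪ L) \ (B₁ ∪ B₂) with hX
  set O : Set V := (R ∪ L)ᶜ \ (B₁ ∪ B₂) with hO
  have hrkB : ∀ B : Set V, X ⊆ Bᶜ → cr G B ≤ 3 → rk G X B ≤ 3 := by
    intro B hXB hB
    calc rk G X B ≤ rk G Bᶜ B := mono _ _ _ _ hXB le_rfl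
      _ = rk G B Bᶜ := sym _ _
      _ ≤ 3 := hB
  have hX1 : X ⊆ B₁ᶜ := fun x hx h => hx.2 (Or.inl h)
  have hX2 : X ⊆ B₂ᶜ := fun x hx h => hx.2 (Or.inr h)
  have hr1 := hrkB B₁ hX1 hc₁
  have hr2 := hrkB B₂ hX2 hc₂
  have unr : ∀ A B B' : Set V, rk G A (B ∪ B') ≤ rk G A B + rk G A B' := by
    intro A B B'
    rw [sym A (B ∪ B'), sym A B, sym A B']
    exact un _ _ _
  -- the part in `R`
  have hRE : rk G (R \ E₁) O ≤ 1 := by
    refine one (R \ E₁) O (K ∪ {o | ∀ r ∈ R, G.Adj o r}) ?_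
    rintro a ⟨haR, haE⟩
    refine Or.inl ?_
    rintro b ⟨hb, -⟩
    have hbR : b ∉ R := fun h => hb (Or.inl h)
    have hbL : b ∉ L := fun h => hb (Or.inr h)
    by_cases hbK : b ∈ K
    · refine ⟨fun _ => Or.inl hbK, fun _ => ?_⟩
      exact hK a (hR haR) b hbK (fun h => hbR (h ▸ haR))
    · rcases hv b hbK hbL with h | h | ⟨e, heR, he⟩
      · exact ⟨fun _ => Or.inr h, fun _ => (h a haR).symm⟩
      · refine ⟨fun h' => absurd h'.symm (h a haR), ?_⟩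
        rintro (h' | h')
        · exact absurd h' hbK
        · exact absurd (h' a haR) (h a haR)
      · have hae : a ≠ e := by
          rintro rfl
          exact haE ⟨haR, b, hbK, hbL, he⟩
        have hna : ¬ G.Adj b a := fun h => hae ((he a haR).1 h)
        refine ⟨fun h' => absurd h'.symm hna, ?_⟩
        rintro (h' | h')
        · exact absurd h' hbK
        · exact absurd (h' a haR) hna
  have hXR : rk G (X ∩ R) O ≤ 5 := by
    have hsub : X ∩ R ⊆ (R \ E₁) ∪ (E₁ \ I₁) := by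
      rintro x ⟨hxX, hxR⟩
      by_cases hxE : x ∈ E₁
      · exact Or.inr ⟨hxE, fun h => hxX.2 (Or.inl (hIB₁ h))⟩
      · exact Or.inl ⟨hxR, hxE⟩
    have h4 := mono _ _ O O hsub le_rfl
    have h5 := un (R \ E₁) (E₁ \ I₁) O
    have h6 := (card (E₁ \ I₁) O).trans hn₁
    omega
  -- the part in `L`
  have hXL : rk G (X ∩ L) O ≤ 5 := by
    have hcard : ({O ∩ T} ∪ (fun f => (O ∩ T) \ {f}) '' (F₁ \ I₂) : Set (Set V)).ncard ≤ 5 := by
      have h4 := Set.ncard_union_le ({O ∩ T} : Set (Set V))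
        ((fun f => (O ∩ T) \ {f}) '' (F₁ \ I₂))
      have h5 : ((fun f => (O ∩ T) \ {f}) '' (F₁ \ I₂) : Set (Set V)).ncard ≤ 4 :=
        (Set.ncard_image_le (Set.toFinite _)).trans hn₂
      rw [Set.ncard_singleton] at h4
      omega
    refine (fam (X ∩ L) O _ ?_).trans hcard
    rintro a ⟨-, haL⟩
    refine Or.inl ?_
    obtain ⟨hlK, hlT⟩ := hl a haL
    have hin : ∀ b ∈ O, G.Adj a b → b ∈ T := by
      rintro b ⟨hb, -⟩ hab
      have hbR : b ∉ R := fun h => hb (Or.inl h)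
      have hbL : b ∉ L := fun h => hb (Or.inr h)
      by_cases hbK : b ∈ K
      · by_contra hbT
        exact hlK b hbK hbR hbT hab
      · exact absurd hab (hL a haL b hbK hbL)
    by_cases hne : (O ∩ Ms G T a).Nonempty
    · obtain ⟨f, hfO, hfT, hfa⟩ := hne
      have huniq : ∀ t ∈ T, (G.Adj a t ↔ t ≠ f) := by
        intro t ht
        constructor
        · rintro h rfl
          exact hfa h
        · intro h
          by_contra hn
          have := (Set.ncard_le_one (Set.toFinite _)).1 hlT t ⟨ht, hn⟩ f ⟨hfT, hfa⟩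
          exact h this
      have hfF : f ∈ F₁ := ⟨hfT, a, haL, huniq⟩
      have hfI : f ∉ I₂ := fun h => hfO.2 (Or.inr (hIB₂ h))
      refine Or.inr ⟨f, ⟨hfF, hfI⟩, ?_⟩
      ext b
      simp only [Set.mem_sdiff, Set.mem_inter_iff, Set.mem_singleton_iff, Set.mem_ofPred_eq]
      constructor
      · rintro ⟨⟨hbO, hbT⟩, hbf⟩
        exact ⟨hbO, (huniq b hbT).2 hbf⟩
      · rintro ⟨hbO, hab⟩
        have hbT := hin b hbO hab
        exact ⟨⟨hbO, hbT⟩, (huniq b hbT).1 hab⟩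
    · refine Or.inl ?_
      rw [Set.mem_singleton_iff]
      ext b
      simp only [Set.mem_inter_iff, Set.mem_ofPred_eq]
      constructor
      · rintro ⟨hbO, hab⟩
        exact ⟨hbO, hin b hbO hab⟩
      · rintro ⟨hbO, hbT⟩
        refine ⟨hbO, ?_⟩
        by_contra hn
        exact hne ⟨b, hbO, hbT, hn⟩
  have hXO : rk G X O ≤ 10 := by
    have hsub : X ⊆ (X ∩ R) ∪ (X ∩ L) := by
      rintro x hx
      rcases hx.1 with h | h
      · exact Or.inl ⟨hx, h⟩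
      · exact Or.inr ⟨hx, h⟩
    have h4 := mono _ _ O O hsub le_rfl
    have h5 := un (X ∩ R) (X ∩ L) O
    omega
  have hcr : cr G X ≤ 16 := by
    have hsub : Xᶜ ⊆ O ∪ (B₁ ∪ B₂) := by
      intro x hx
      by_cases hB : x ∈ B₁ ∪ B₂
      · exact Or.inr hB
      · refine Or.inl ⟨fun h => hx ⟨h, hB⟩, hB⟩
    have h4 : cr G X ≤ rk G X (O ∪ (B₁ ∪ B₂)) := mono X X _ _ le_rfl hsub
    have h5 := unr X O (B₁ ∪ B₂)
    have h6 := unr X B₁ B₂
    omega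
  rcases hU X hcr with h | h
  · refine Or.inl ?_
    have hsub : S ∩ (R ∪ L) ⊆ (S ∩ X) ∪ ((S ∩ B₁) ∪ (S ∩ B₂)) := by
      rintro x ⟨hxS, hxRL⟩
      by_cases hx1 : x ∈ B₁
      · exact Or.inr (Or.inl ⟨hxS, hx1⟩)
      · by_cases hx2 : x ∈ B₂
        · exact Or.inr (Or.inr ⟨hxS, hx2⟩)
        · refine Or.inl ⟨hxS, hxRL, ?_⟩
          rintro (h' | h')
          · exact hx1 h'
          · exact hx2 h'
    have h4 := Set.ncard_le_ncard hsub (Set.toFinite _)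
    have h5 := Set.ncard_union_le (S ∩ X) ((S ∩ B₁) ∪ (S ∩ B₂))
    have h6 := Set.ncard_union_le (S ∩ B₁) (S ∩ B₂)
    omega
  · refine Or.inr ?_
    refine (Set.ncard_le_ncard ?_ (Set.toFinite _)).trans h
    rintro x ⟨hxS, hx⟩
    exact ⟨hxS, fun h' => hx h'.1⟩

end Pool.Agent.MPd439b2.M4
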