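import Pool.Agent.Lib.MP_d439b2_co.M4.Spec

/-!
# MP_d439b2_co, column `C_4`: the theorem for the pair `(C_4, K4:0,12)`
-/

set_option autoImplicit false

namespace Pool.Agent.MPd439b2.M4

open Pool.Agent.MPd439b2 Pool.Agent.MPd439b2.LK

theorem fin (h1 : LK.S_A12) (h2 : S_Big) (h3 : S_LayCW) : S_Fin := by
  obtain ⟨k, hk⟩ := h1 16 660
  have key : ∀ (V : Type) [Finite V] (G : SimpleGraph V), Cl G → Lay G k Set.univ := by
    intro V _ G hG
    refine hk V G hG.1 fun S hS hSn => ?_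
    have h := h2 V G S 32 hG hS (by omega)
    unfold Unb at h
    push Not at h
    obtain ⟨X, hX, hX1, hX2⟩ := h
    exact ⟨X, hX, by omega, by omega⟩
  refine ⟨⟨k, key⟩, 3 * (k + 1), fun V _ _ G hG₁ hG₂ => ?_⟩
  exact h3 V G k (key V G ⟨fun h => hG₁ (ims_univ_iff.mp h), fun h => hG₂ (ims_univ_iff.mp h)⟩)

end Pool.Agent.MPd439b2.M4
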