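import Pool.Agent.Lib.MP_d439b2_co.M4.Spec

/-!
# MP_d439b2_co, row `K4:0,12`: smallest and largest traces of a component
-/

set_option autoImplicit false

namespace Pool.Agent.MPd439b2.M4

open Pool.Agent.MPd439b2 Pool.Agent.MPd439b2.LK

theorem gt (h1 : LK.S_A7) (h2 : S_Tr2) : S_Gt := by
  intro V _ G K C hCl hMC hC
  have hCK : ∀ v ∈ C, v ∉ K := fun v hv => hC.1 hv
  have hnb : nb G C ⊆ K := by
    intro v hv
    by_contra hvK
    exact hC.2.2 v hvK hv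
  obtain ⟨x, hx, hxa⟩ := h1 V G (nb G C) C hCl.1 hC.2.1
    (fun u hu v hv huv => hMC.1 u (hnb hu) v (hnb hv) huv)
    (Set.disjoint_left.2 fun v hv hvC => hv.1 hvC) (fun a ha => ha)
  obtain ⟨y, hy, hymax⟩ := Set.exists_max_image C (fun v => (Ms G K v).ncard) (Set.toFinite C)
    ⟨x, hx⟩
  have hxmin : ∀ v ∈ C, Ms G K x ⊆ Ms G K v := by
    rintro v hv k ⟨hk, hxk⟩
    refine ⟨hk, fun hvk => hxk (hxa k ⟨fun hkC => hCK k hkC hk, v, hv, hvk⟩)⟩
  refine ⟨x, y, ⟨hC, hx, hy, hxmin, hymax⟩, ?_⟩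
  intro v hv
  rcases h2 V G K v y hCl hMC.1 (hCK v hv) (hCK y hy) with h | h | ⟨-, h⟩
  · rw [Set.sdiff_eq_empty.2 h, Set.ncard_empty]
    exact zero_le_one
  · have h' : Ms G K y = Ms G K v :=
      Set.eq_of_subset_of_ncard_le h (hymax v hv) (Set.toFinite _)
    rw [h', sdiff_self, Set.bot_eq_empty, Set.ncard_empty]
    exact zero_le_one
  · rcases h with h | h
    · obtain ⟨k, hk⟩ := hMC.2 x (hCK x hx)
      exact absurd (hxmin y hy hk) (Set.disjoint_left.1 h (hxmin v hv hk))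
    · exact h.1.le

end Pool.Agent.MPd439b2.M4
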