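import Pool.Agent.Lib.MP_d439b2_co.M4.Spec

/-!
# MP_d439b2_co, row `K4:0,12`: vertices outside a component and its range
-/

set_option autoImplicit false

namespace Pool.Agent.MPd439b2.M4

open Pool.Agent.MPd439b2 Pool.Agent.MPd439b2.LK

theorem ho (h1 : S_Jmp) : S_Ho := by
  intro V _ G K C x y v hCl hMC hCT hvK hvC
  obtain ⟨⟨hCK, hC, hnb⟩, hx, hy, hmin, _⟩ := hCT
  have hdis : Disjoint K C := Set.disjoint_left.2 fun k hk hkC => hCK hkC hk
  have hno : ∀ c ∈ C, ¬ G.Adj v c := by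
    intro c hc hvc
    exact hnb v hvK ⟨hvC, c, hc, hvc.symm⟩
  rcases h1 V G K C x y v hCl hMC.1 hC hdis hx hy (hmin y hy) hvK hvC hno with h | h | ⟨_, h⟩
  · left
    rintro r ⟨hr, hrx⟩
    by_contra hvr
    exact hrx (h ⟨hr, hr.1, hvr⟩)
  · right
    left
    intro r hr
    exact (h hr).2
  · right
    right
    obtain ⟨e, he⟩ := Set.ncard_eq_one.1 h
    have he' : e ∈ (Ms G K y \ Ms G K x) \ Ms G K v := by
      rw [he]
      exact rfl
    refine ⟨e, he'.1, fun r hr => ?_⟩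
    constructor
    · intro hvr
      have hr' : r ∈ (Ms G K y \ Ms G K x) \ Ms G K v := ⟨hr, fun h' => h'.2 hvr⟩
      rw [he] at hr'
      exact hr'
    · rintro rfl
      by_contra hvr
      exact he'.2 ⟨hr.1.1, hvr⟩

end Pool.Agent.MPd439b2.M4
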