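import Pool.Agent.Lib.MP_d439b2_co.M4.Spec

/-!
# MP_d439b2_co, column `C_4`, row `K4:0,12`: vertices with huge traces
-/

set_option autoImplicit false

namespace Pool.Agent.MPd439b2.M4

open Pool.Agent.MPd439b2 Pool.Agent.MPd439b2.LK

theorem hu (h1 : S_Tr2) (h2 : S_Rm) : S_Hu := by
  intro V _ G S K H m hG hS hU h22 hK h2m hH
  rcases H.eq_empty_or_nonempty with rfl | hne
  · refine ⟨S ∩ K, subset_rfl, ?_, ?_⟩
    · rw [Set.sdiff_self, Set.ncard_empty]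
      exact Nat.zero_le _
    · intro v hv
      exact absurd hv (Set.notMem_empty v)
  obtain ⟨v₀, hv₀, hmin⟩ := Set.exists_min_image H (fun v => (Ms G K v).ncard) (Set.toFinite _) hne
  obtain ⟨hv₀K, hv₀m⟩ := hH v₀ hv₀
  have hMK : ∀ v, Ms G K v ⊆ K := fun v x hx => hx.1
  let E : Set V := {e | e ∈ Ms G K v₀ ∧ ∃ v ∈ H, ∀ f ∈ Ms G K v₀, (G.Adj v f ↔ f = e)}
  have hEM : E ⊆ Ms G K v₀ := fun e he => he.1
  have hEK : E ⊆ K := hEM.trans (hMK v₀)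
  obtain ⟨I, B, hIE, hIB, hI4, -, hBm⟩ := h2 V G S E m hG hS hU h22
    (fun a ha b hb hab => hK a (hEK ha) b (hEK hb) hab) (Or.inl (by
      rintro e ⟨heM, v, hvH, hv⟩
      exact ⟨v, fun hvE => (hH v hvH).1 (hEK hvE), fun f hf => hv f (hEM hf)⟩))
  have hSE : (S ∩ E).ncard ≤ m + 4 := by
    have e1 : S ∩ E ⊆ (S ∩ B) ∪ (E \ I) := by
      rintro x ⟨hxS, hxE⟩
      by_cases hxI : x ∈ I
      · exact Or.inl ⟨hxS, hIB hxI⟩
      · exact Or.inr ⟨hxE, hxI⟩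
    calc (S ∩ E).ncard ≤ ((S ∩ B) ∪ (E \ I)).ncard := Set.ncard_le_ncard e1 (Set.toFinite _)
      _ ≤ (S ∩ B).ncard + (E \ I).ncard := Set.ncard_union_le _ _
      _ ≤ m + 4 := by omega
  refine ⟨(S ∩ Ms G K v₀) \ E, ?_, ?_, ?_⟩
  · rintro x ⟨⟨hxS, hxM⟩, -⟩
    exact ⟨hxS, hMK _ hxM⟩
  · have e1 : (S ∩ K) \ ((S ∩ Ms G K v₀) \ E) ⊆ ((S ∩ K) \ Ms G K v₀) ∪ (S ∩ E) := by
      rintro x ⟨⟨hxS, hxK⟩, hx⟩
      by_cases hxM : x ∈ Ms G K v₀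
      · by_cases hxE : x ∈ E
        · exact Or.inr ⟨hxS, hxE⟩
        · exact absurd ⟨⟨hxS, hxM⟩, hxE⟩ hx
      · exact Or.inl ⟨⟨hxS, hxK⟩, hxM⟩
    calc ((S ∩ K) \ ((S ∩ Ms G K v₀) \ E)).ncard
        ≤ (((S ∩ K) \ Ms G K v₀) ∪ (S ∩ E)).ncard := Set.ncard_le_ncard e1 (Set.toFinite _)
      _ ≤ ((S ∩ K) \ Ms G K v₀).ncard + (S ∩ E).ncard := Set.ncard_union_le _ _
      _ ≤ 2 * m + 4 := by omega
  · rintro v hv s ⟨⟨hsS, hsM⟩, hsE⟩
    obtain ⟨hvK, hvm⟩ := hH v hv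
    rcases h1 V G K v₀ v hG hK hv₀K hvK with h | h | ⟨-, h | ⟨h, -⟩⟩
    · exact (h hsM).2
    · have e1 : Ms G K v = Ms G K v₀ :=
        Set.eq_of_subset_of_ncard_le h (hmin v hv) (Set.toFinite _)
      rw [← e1] at hsM
      exact hsM.2
    · exfalso
      have e1 : S ∩ K ⊆ ((S ∩ K) \ Ms G K v₀) ∪ ((S ∩ K) \ Ms G K v) := by
        intro x hx
        by_cases hx1 : x ∈ Ms G K v₀
        · exact Or.inr ⟨hx, fun hx2 => Set.disjoint_left.1 h hx1 hx2⟩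
        · exact Or.inl ⟨hx, hx1⟩
      have e2 := Set.ncard_le_ncard e1 (Set.toFinite _)
      have e3 := Set.ncard_union_le ((S ∩ K) \ Ms G K v₀) ((S ∩ K) \ Ms G K v)
      omega
    · obtain ⟨e, he⟩ := Set.ncard_eq_one.1 h
      have heM : e ∈ Ms G K v₀ \ Ms G K v := by
        rw [he]
        exact Set.mem_singleton e
      have heE : e ∈ E := by
        refine ⟨heM.1, v, hv, fun f hf => ⟨fun hvf => ?_, ?_⟩⟩
        · have hf2 : f ∈ Ms G K v₀ \ Ms G K v := ⟨hf, fun h3 => h3.2 hvf⟩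
          rw [he] at hf2
          exact hf2
        · rintro rfl
          by_contra h3
          exact heM.2 ⟨heM.1.1, h3⟩
      intro hvs
      apply hsE
      have hs2 : s ∈ Ms G K v₀ \ Ms G K v := ⟨hsM, fun h3 => h3.2 hvs⟩
      rw [he] at hs2
      rw [Set.mem_singleton_iff.1 hs2]
      exact heE

end Pool.Agent.MPd439b2.M4
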