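import Pool.Agent.Lib.MP_d439b2_co.M4.Spec

/-!
# MP_d439b2_co, column `C_4`, row `K4:0,12`, Jmp: the jump rule
-/

set_option autoImplicit false

namespace Pool.Agent.MPd439b2.M4

open Pool.Agent.MPd439b2 Pool.Agent.MPd439b2.LK

namespace JmpAux

variable {V : Type} {G : SimpleGraph V}

/-- the component of `C \ {x}` containing `q` touches `x` -/
theorem comp_touch {C : Set V} {x q : V} (hC : Conn G C) (hx : x ∈ C) (hq : q ∈ C)
    (hne : q ≠ x) : ∃ K ⊆ C \ {x}, q ∈ K ∧ Conn G K ∧ ∃ y ∈ K, G.Adj x y := by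
  obtain ⟨K, hKs, hqK, hK, hKn⟩ := exists_comp G (A := C \ {x}) (v := q) ⟨hq, hne⟩
  refine ⟨K, hKs, hqK, hK, ?_⟩
  obtain ⟨b, hb, a, ha, hab⟩ := hC.2 K (fun y hy => (hKs hy).1) ⟨q, hqK⟩ (fun h => by
    have h5 : x ∈ K := h ▸ hx
    exact (hKs h5).2 rfl)
  have hax : a = x := by
    by_contra hne'
    exact hKn a ⟨ha.1, hne'⟩ ⟨ha.2, b, hb, hab⟩
  subst hax
  exact ⟨b, hb, hab.symm⟩

end JmpAux

open JmpAux in
theorem jmp (h1 : S_Mo1) (h2 : S_Mo2) : S_Jmp := by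
  intro V _ G S C x y v hG hS hC hSC hxC hyC hxy hvS hvC hv
  by_cases c1 : Ms G S y ∩ Ms G S v ⊆ Ms G S x
  · exact Or.inl c1
  by_cases c2 : Ms G S y \ Ms G S x ⊆ Ms G S v
  · exact Or.inr (Or.inl c2)
  refine Or.inr (Or.inr ?_)
  obtain ⟨d, ⟨⟨hdS, hyd⟩, ⟨-, hvd⟩⟩, hdx⟩ := Set.not_subset.1 c1
  obtain ⟨b, ⟨⟨hbS, hyb⟩, hbx⟩, hbv⟩ := Set.not_subset.1 c2
  have hxd : G.Adj x d := by_contra fun h => hdx ⟨hdS, h⟩
  have hxb : G.Adj x b := by_contra fun h => hbx ⟨hbS, h⟩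
  have hvb : G.Adj v b := by_contra fun h => hbv ⟨hbS, h⟩
  have hbd : b ≠ d := by
    rintro rfl
    exact hvd hvb
  have hxy' : x ≠ y := by
    rintro rfl
    exact hyd hxd
  obtain ⟨P, hPC, hxP, cP, z, hzP, hyz⟩ := comp_touch hC hyC hxC hxy'
  have hSP : ∀ s ∈ S, s ∉ P := fun s hs hp => Set.disjoint_left.1 hSC hs (hPC hp).1
  have hyP : y ∉ P := fun h => (hPC h).2 rfl
  have hvP : v ∉ P := fun h => hvC (hPC h).1
  have hPv : ∀ p ∈ P, ¬ G.Adj p v := fun p hp h => hv p (hPC hp).1 h.symm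
  have hyv : ¬ G.Adj y v := fun h => hv y hyC h.symm
  have hb1 : ∀ b' ∈ (Ms G S y \ Ms G S x) \ Ms G S v, b' = b := by
    rintro b' ⟨⟨⟨hb'S, hyb'⟩, hb'x⟩, hb'v⟩
    by_contra hne
    have hxb' : G.Adj x b' := by_contra fun h => hb'x ⟨hb'S, h⟩
    have hvb' : G.Adj v b' := by_contra fun h => hb'v ⟨hb'S, h⟩
    have hb'd : b' ≠ d := by
      rintro rfl
      exact hvd hvb'
    exact hG.2 (h1 V G P b b' d y v cP (hSP b hbS) (hSP b' hb'S) (hSP d hdS) hyP hvP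
      (hS b hbS b' hb'S (Ne.symm hne)) (hS b hbS d hdS hbd) (hS b' hb'S d hdS hb'd)
      ⟨x, hxP, hxb⟩ ⟨x, hxP, hxb'⟩ ⟨x, hxP, hxd⟩ ⟨z, hzP, hyz.symm⟩ hyb hyb' hyd hvb hvb' hvd
      hPv hyv)
  refine ⟨?_, ?_⟩
  · rintro e ⟨heS, hve⟩
    by_contra hey
    have hye : G.Adj y e := by_contra fun h => hey ⟨heS, h⟩
    have hxe : G.Adj x e := by_contra fun h => hey (hxy ⟨heS, h⟩)
    have hbe : b ≠ e := by
      rintro rfl
      exact hyb hye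
    have hed : e ≠ d := by
      rintro rfl
      exact hyd hye
    exact hG.2 (h2 V G P b e d v y cP (hSP b hbS) (hSP e heS) (hSP d hdS) hvP hyP
      (hS b hbS e heS hbe) (hS b hbS d hdS hbd) (hS e heS d hdS hed)
      ⟨x, hxP, hxb⟩ ⟨x, hxP, hxe⟩ ⟨x, hxP, hxd⟩ ⟨z, hzP, hyz.symm⟩ hPv hvb hve hvd hye hyb
      hyd (fun h => hyv h.symm))
  · rw [Set.ncard_eq_one]
    refine ⟨b, ?_⟩
    ext b'
    constructor
    · intro h
      exact hb1 b' h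
    · rintro rfl
      exact ⟨⟨⟨hbS, hyb⟩, hbx⟩, hbv⟩

end Pool.Agent.MPd439b2.M4
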