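import Pool.Agent.Lib.MP_d439b2_co.M4.Spec

/-!
# MP_d439b2_co, column `C_4`, row `K4:0,12`: the first model (`S_Mo1`)
-/

set_option autoImplicit false

namespace Pool.Agent.MPd439b2.M4

open Pool.Agent.MPd439b2 Pool.Agent.MPd439b2.LK

namespace Mo1Aux

variable {V : Type} {G : SimpleGraph V}

/-- the model of `K4:0,12` from six sets -/
theorem model {P Q R S X Y : Set V} (cP : Conn G P) (cQ : Conn G Q) (cR : Conn G R)
    (cS : Conn G S) (cX : Conn G X) (cY : Conn G Y)
    (dPQ : Disjoint P Q) (dPR : Disjoint P R) (dPS : Disjoint P S) (dQR : Disjoint Q R)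
    (dQS : Disjoint Q S) (dRS : Disjoint R S)
    (dPX : Disjoint P X) (dQX : Disjoint Q X) (dRX : Disjoint R X) (dSX : Disjoint S X)
    (dPY : Disjoint P Y) (dQY : Disjoint Q Y) (dRY : Disjoint R Y) (dSY : Disjoint S Y)
    (dXY : Disjoint X Y)
    (tPQ : Tch G P Q) (tPR : Tch G P R) (tPS : Tch G P S) (tQR : Tch G Q R)
    (tQS : Tch G Q S) (tRS : Tch G R S)
    (tPX : Tch G P X) (tQX : ¬ Tch G Q X) (tRX : ¬ Tch G R X) (tSX : ¬ Tch G S X)
    (tPY : ¬ Tch G P Y) (tQY : Tch G Q Y) (tRY : Tch G R Y) (tSY : ¬ Tch G S Y)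
    (tXY : ¬ Tch G X Y) : IMS (KA 4 2 ![{0}, {1, 2}]) G Set.univ := by
  have hd : ∀ i j : Fin 4, i ≠ j → Disjoint ((![P, Q, R, S] : Fin 4 → Set V) i)
      ((![P, Q, R, S] : Fin 4 → Set V) j) := by
    intro i j hij
    fin_cases i <;> fin_cases j <;> first
      | exact absurd rfl hij
      | assumption
      | (apply Disjoint.symm; assumption)
  have ht : ∀ i j : Fin 4, i ≠ j → Tch G ((![P, Q, R, S] : Fin 4 → Set V) i)
      ((![P, Q, R, S] : Fin 4 → Set V) j) := by
    intro i j hij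
    fin_cases i <;> fin_cases j <;> first
      | exact absurd rfl hij
      | assumption
      | (apply Tch.symm; assumption)
  have hd' : ∀ (i : Fin 4) (j : Fin 2), Disjoint ((![P, Q, R, S] : Fin 4 → Set V) i)
      ((![X, Y] : Fin 2 → Set V) j) := by
    intro i j
    fin_cases i <;> fin_cases j <;> assumption
  have ht' : ∀ (i : Fin 4) (j : Fin 2), i ∈ (![{0}, {1, 2}] : Fin 2 → Set (Fin 4)) j ↔
      Tch G ((![P, Q, R, S] : Fin 4 → Set V) i) ((![X, Y] : Fin 2 → Set V) j) := by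
    intro i j
    fin_cases i <;> fin_cases j <;> simp <;> assumption
  have hdd : ∀ i j : Fin 2, i ≠ j → Disjoint ((![X, Y] : Fin 2 → Set V) i)
      ((![X, Y] : Fin 2 → Set V) j) := by
    intro i j hij
    fin_cases i <;> fin_cases j <;> first
      | exact absurd rfl hij
      | assumption
      | (apply Disjoint.symm; assumption)
  have htt : ∀ i j : Fin 2, i ≠ j → ¬ Tch G ((![X, Y] : Fin 2 → Set V) i)
      ((![X, Y] : Fin 2 → Set V) j) := by
    intro i j hij
    fin_cases i <;> fin_cases j <;> first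
      | exact absurd rfl hij
      | assumption
      | (intro h; exact tXY h.symm)
  refine ⟨Sum.elim ![P, Q, R, S] ![X, Y], fun _ => Set.subset_univ _, ?_, ?_, ?_⟩
  · rintro (w | w) <;> fin_cases w <;> assumption
  · rintro (w | w) (w' | w') hw
    · exact hd w w' fun h => hw (congrArg _ h)
    · exact hd' w w'
    · exact (hd' w' w).symm
    · exact hdd w w' fun h => hw (congrArg _ h)
  · rintro (w | w) (w' | w') hw
    · have h : w ≠ w' := fun h => hw (congrArg _ h)
      exact iff_of_true h (ht w w' h)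
    · exact ht' w w'
    · exact (ht' w' w).trans tch_comm
    · have h : w ≠ w' := fun h => hw (congrArg _ h)
      exact iff_of_false (fun h => h) (htt w w' h)

end Mo1Aux

/-- **Mo1.** A model of `K4:0,12`. -/
theorem mo1 : S_Mo1 := by
  intro V G P b c d x y cP bP cP' dP xP yP hbc hbd hcd hPb hPc hPd hPx hxb hxc hxd hyb hyc hyd
    hPy hxy
  have hsing : ∀ {v : V} {A : Set V}, v ∉ A → Disjoint A ({v} : Set V) := fun h =>
    (Set.disjoint_singleton_left.2 h).symm
  have hD : ∀ {u v : V}, u ≠ v → Disjoint ({u} : Set V) {v} :=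
    fun h => Set.disjoint_singleton.2 h
  have htP : ∀ {v : V}, (∃ p ∈ P, G.Adj p v) → Tch G P {v} := by
    rintro v ⟨p, hp, h⟩
    exact ⟨p, hp, v, rfl, h⟩
  have hT : ∀ {u v : V}, G.Adj u v → Tch G {u} {v} := fun h => ⟨_, rfl, _, rfl, h⟩
  have hnT : ∀ {u v : V}, ¬ G.Adj v u → ¬ Tch G {u} {v} := by
    rintro u v h ⟨a, rfl, e, rfl, hae⟩
    exact h hae.symm
  have hbx : b ≠ x := by
    rintro rfl
    exact hxc hbc
  have hcx : c ≠ x := by
    rintro rfl
    exact hxb hbc.symm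
  have hdx : d ≠ x := by
    rintro rfl
    exact hxb hbd.symm
  have hby : b ≠ y := by
    rintro rfl
    exact hyb.ne rfl
  have hcy : c ≠ y := by
    rintro rfl
    exact hyc.ne rfl
  have hdy : d ≠ y := by
    rintro rfl
    obtain ⟨p, hp, h⟩ := hPd
    exact hPy p hp h
  have hxy' : x ≠ y := by
    rintro rfl
    exact hxb hyb
  refine Mo1Aux.model (P := P) (Q := {b}) (R := {c}) (S := {d}) (X := {x}) (Y := {y}) cP
    (Conn.singleton G b) (Conn.singleton G c) (Conn.singleton G d) (Conn.singleton G x)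
    (Conn.singleton G y) (hsing bP) (hsing cP') (hsing dP) (hD hbc.ne) (hD hbd.ne) (hD hcd.ne)
    (hsing xP) (hD hbx) (hD hcx) (hD hdx) (hsing yP) (hD hby) (hD hcy) (hD hdy) (hD hxy')
    (htP hPb) (htP hPc) (htP hPd) (hT hbc) (hT hbd) (hT hcd) (htP hPx) (hnT hxb) (hnT hxc)
    (hnT hxd) ?_ (hT hyb.symm) (hT hyc.symm) (hnT hyd) (hnT fun h => hxy h.symm)
  rintro ⟨p, hp, e, rfl, h⟩
  exact hPy p hp h

end Pool.Agent.MPd439b2.M4
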