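import Pool.Agent.Lib.MP_d439b2_co.M4.Spec

/-!
# MP_d439b2_co, row `K4:0,12`: the model with the set in role 1
-/

set_option autoImplicit false

namespace Pool.Agent.MPd439b2.M4

open Pool.Agent.MPd439b2 Pool.Agent.MPd439b2.LK

namespace Mo2Aux

variable {V : Type} {G : SimpleGraph V}

/-- the model of `K4:0,12` from six sets -/
theorem model {P Q R S X Y : Set V} (cP : Conn G P) (cQ : Conn G Q) (cR : Conn G R)
    (cS : Conn G S) (cX : Conn G X) (cY : Conn G Y)
    (dPQ : Disjoint P Q) (dPR : Disjoint P R) (dPS : Disjoint P S) (dQR : Disjoint Q R)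
    (dQS : Disjoint Q S) (dRS : Disjoint R S)
    (dPX : Disjoint P X) (dQX : Disjoint Q X) (dRX : Disjoint R X) (dSX : Disjoint S X)
    (dPY : Disjoint P Y) (dQY : Disjoint Q Y) (dRY : Disjoint R Y) (dSY : Disjoint S Y)
    (dXY : Disjoint X Y)
    (tPQ : Tch G P Q) (tPR : Tch G P R) (tPS : Tch G P S) (tQR : Tch G Q R)
    (tQS : Tch G Q S) (tRS : Tch G R S)
    (tPX : Tch G P X) (tQX : ¬ Tch G Q X) (tRX : ¬ Tch G R X) (tSX : ¬ Tch G S X)
    (tPY : ¬ Tch G P Y) (tQY : Tch G Q Y) (tRY : Tch G R Y) (tSY : ¬ Tch G S Y)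
    (tXY : ¬ Tch G X Y) : IMS (KA 4 2 ![{0}, {1, 2}]) G Set.univ := by
  have hd : ∀ i j : Fin 4, i ≠ j → Disjoint ((![P, Q, R, S] : Fin 4 → Set V) i)
      ((![P, Q, R, S] : Fin 4 → Set V) j) := by
    intro i j hij
    fin_cases i <;> fin_cases j <;> first
      | exact absurd rfl hij
      | assumption
      | (apply Disjoint.symm; assumption)
  have ht : ∀ i j : Fin 4, i ≠ j → Tch G ((![P, Q, R, S] : Fin 4 → Set V) i)
      ((![P, Q, R, S] : Fin 4 → Set V) j) := by
    intro i j hij
    fin_cases i <;> fin_cases j <;> first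
      | exact absurd rfl hij
      | assumption
      | (apply Tch.symm; assumption)
  have hd' : ∀ (i : Fin 4) (j : Fin 2), Disjoint ((![P, Q, R, S] : Fin 4 → Set V) i)
      ((![X, Y] : Fin 2 → Set V) j) := by
    intro i j
    fin_cases i <;> fin_cases j <;> assumption
  have ht' : ∀ (i : Fin 4) (j : Fin 2), i ∈ (![{0}, {1, 2}] : Fin 2 → Set (Fin 4)) j ↔
      Tch G ((![P, Q, R, S] : Fin 4 → Set V) i) ((![X, Y] : Fin 2 → Set V) j) := by
    intro i j
    fin_cases i <;> fin_cases j <;> simp <;> assumption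
  have hdd : ∀ i j : Fin 2, i ≠ j → Disjoint ((![X, Y] : Fin 2 → Set V) i)
      ((![X, Y] : Fin 2 → Set V) j) := by
    intro i j hij
    fin_cases i <;> fin_cases j <;> first
      | exact absurd rfl hij
      | assumption
      | (apply Disjoint.symm; assumption)
  have htt : ∀ i j : Fin 2, i ≠ j → ¬ Tch G ((![X, Y] : Fin 2 → Set V) i)
      ((![X, Y] : Fin 2 → Set V) j) := by
    intro i j hij
    fin_cases i <;> fin_cases j <;> first
      | exact absurd rfl hij
      | assumption
      | (intro h; exact tXY h.symm)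
  refine ⟨Sum.elim ![P, Q, R, S] ![X, Y], fun _ => Set.subset_univ _, ?_, ?_, ?_⟩
  · rintro (w | w) <;> fin_cases w <;> assumption
  · rintro (w | w) (w' | w') hw
    · exact hd w w' fun h => hw (congrArg _ h)
    · exact hd' w w'
    · exact (hd' w' w).symm
    · exact hdd w w' fun h => hw (congrArg _ h)
  · rintro (w | w) (w' | w') hw
    · have h : w ≠ w' := fun h => hw (congrArg _ h)
      exact iff_of_true h (ht w w' h)
    · exact ht' w w'
    · exact (ht' w' w).trans tch_comm
    · have h : w ≠ w' := fun h => hw (congrArg _ h)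
      exact iff_of_false (fun h => h) (htt w w' h)

theorem tch_single {u v : V} (h : G.Adj u v) : Tch G {u} {v} := ⟨u, rfl, v, rfl, h⟩

theorem not_tch_single {u v : V} (h : ¬ G.Adj v u) : ¬ Tch G {u} {v} := by
  rintro ⟨a, rfl, b, rfl, hab⟩
  exact h hab.symm

theorem dis_single {u v : V} (h : u ≠ v) : Disjoint ({u} : Set V) {v} :=
  Set.disjoint_singleton.2 h

end Mo2Aux

open Mo2Aux in
theorem mo2 : S_Mo2 := by
  intro V G P a b c x y cP haP hbP hcP hxP hyP hab hac hbc hPa hPb hPc hPy hPx hxa hxb hxc hyb hya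
    hyc hxy
  have htP : ∀ {v : V}, (∃ p ∈ P, G.Adj p v) → Tch G P {v} := by
    rintro v ⟨p, hp, h⟩
    exact ⟨p, hp, v, rfl, h⟩
  have hneP : ∀ {v : V}, (∃ p ∈ P, G.Adj p v) → v ≠ x := by
    rintro v ⟨p, hp, h⟩ rfl
    exact hPx p hp h
  refine model (P := {a}) (Q := P) (R := {b}) (S := {c}) (X := {x}) (Y := {y})
    (Conn.singleton G a) cP (Conn.singleton G b) (Conn.singleton G c) (Conn.singleton G x)
    (Conn.singleton G y) (Set.disjoint_singleton_left.2 haP) (dis_single hab.ne)
    (dis_single hac.ne) (Set.disjoint_singleton_right.2 hbP) (Set.disjoint_singleton_right.2 hcP)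
    (dis_single hbc.ne) (dis_single hxa.ne.symm) (Set.disjoint_singleton_right.2 hxP)
    (dis_single (hneP hPb)) (dis_single (hneP hPc)) (dis_single ?_)
    (Set.disjoint_singleton_right.2 hyP) (dis_single hyb.ne.symm) (dis_single ?_)
    (dis_single (hneP hPy).symm) (htP hPa).symm (tch_single hab) (tch_single hac) (htP hPb)
    (htP hPc) (tch_single hbc) (tch_single hxa.symm) ?_ (not_tch_single hxb) (not_tch_single hxc)
    (not_tch_single hya) (htP hPy) (tch_single hyb.symm) (not_tch_single hyc)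
    (not_tch_single fun h => hxy h.symm)
  · rintro rfl
    exact hyc hac
  · rintro rfl
    exact hya hac.symm
  · rintro ⟨p, hp, z, rfl, hpz⟩
    exact hPx p hp hpz

end Pool.Agent.MPd439b2.M4
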