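import Pool.Agent.Lib.MP_d439b2_co.M4.Spec

/-!
# MP_d439b2_co, row `K4:0,12`: a module in a clique is small
-/

set_option autoImplicit false

namespace Pool.Agent.MPd439b2.M4

open Pool.Agent.MPd439b2 Pool.Agent.MPd439b2.LK

theorem md (h1 : LK.S_A1) : S_Mod := by
  intro V _ G S S' m hS hU hm hS' hmod
  by_contra hlt
  push Not at hlt
  obtain ⟨I, hI, hIc⟩ := Set.exists_subset_card_eq (s := S') (n := m + 1) (by omega)
  have hIS : I ⊆ S := hI.trans hS'
  have hr : cr G I ≤ 1 := by
    unfold cr
    rw [(h1 V G).1 I Iᶜ]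
    apply (h1 V G).2.2.2.2.1 Iᶜ I Set.univ
    intro v hv
    by_cases hvS' : v ∈ S'
    · left
      intro b hb
      refine iff_of_true (hS v (hS' hvS') b (hIS hb) ?_) trivial
      rintro rfl
      exact hv hb
    · rcases hmod v hvS' with h | h
      · left
        intro b hb
        exact iff_of_true (h b (hI hb)) trivial
      · right
        intro b hb
        exact h b (hI hb)
  have h2 : S ∩ I = I := Set.inter_eq_self_of_subset_right hIS
  have h3 := Set.ncard_sdiff_add_ncard_of_subset hIS (Set.toFinite S)
  rcases hU I (by omega) with h | h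
  · rw [h2] at h
    omega
  · omega

end Pool.Agent.MPd439b2.M4
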