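import Pool.Agent.Lib.MP_d439b2_co.M4.Spec

/-!
# MP_d439b2_co, column `C_4`, row `K4:0,12`: there is a pointed component
-/

set_option autoImplicit false

namespace Pool.Agent.MPd439b2.M4

open Pool.Agent.MPd439b2 Pool.Agent.MPd439b2.LK

theorem pt (h1 : S_Gt) (h2 : S_Rg) (h3 : S_Th) (h4 : S_Hu) (h5 : S_Ti) (h6 : S_Mod) :
    S_Pt := by
  intro V _ G S K m hG hS hU hn hK hSK
  by_contra hcon
  push Not at hcon
  have hn2 : 2 * m + 2 ≤ S.ncard := by omega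
  have hsplit : (S ∩ K).ncard + (S \ K).ncard = S.ncard :=
    Set.ncard_inter_add_ncard_sdiff_eq_ncard S K (Set.toFinite _)
  have claim : ∀ v, v ∉ K →
      ((S ∩ K) \ Ms G K v).ncard ≤ m ∨ (S ∩ Ms G K v).ncard ≤ 6 * m + 1 := by
    intro v hv
    obtain ⟨C, hC, hvC, hcC, hnb⟩ := exists_comp G (A := Kᶜ) (v := v) hv
    obtain ⟨x, y, hCT, hy⟩ := h1 V G K C hG hK ⟨hC, hcC, hnb⟩
    rcases (h2 V G S K C x y m hG hS hU hn2 hK hCT).1 with hR | hR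
    swap
    · exact absurd ⟨hCT, hR⟩ (hcon C x y)
    rcases h3 V G S K C x y m hG hS hU hn2 hK hCT with hT | hT
    · right
      have hsub : S ∩ Ms G K v ⊆ (S ∩ Ms G K x) ∪ (S ∩ (C ∪ (Ms G K y \ Ms G K x))) ∪
          (Ms G K v \ Ms G K y) := by
        intro s hs
        by_cases hsy : s ∈ Ms G K y
        · by_cases hsx : s ∈ Ms G K x
          · exact Or.inl (Or.inl ⟨hs.1, hsx⟩)
          · exact Or.inl (Or.inr ⟨hs.1, Or.inr ⟨hsy, hsx⟩⟩)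
        · exact Or.inr ⟨hs.2, hsy⟩
      have e1 := Set.ncard_le_ncard hsub (Set.toFinite _)
      have e2 := Set.ncard_union_le ((S ∩ Ms G K x) ∪ (S ∩ (C ∪ (Ms G K y \ Ms G K x))))
        (Ms G K v \ Ms G K y)
      have e3 := Set.ncard_union_le (S ∩ Ms G K x) (S ∩ (C ∪ (Ms G K y \ Ms G K x)))
      have e4 := hy v hvC
      omega
    · left
      refine le_trans (Set.ncard_le_ncard ?_ (Set.toFinite _)) hT
      intro s hs
      exact ⟨hs.1, fun h => hs.2 (hCT.2.2.2.1 v hvC h)⟩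
  obtain ⟨S₁, hS₁, hS₁n, hS₁a⟩ := h4 V G S K {v | v ∉ K ∧ ((S ∩ K) \ Ms G K v).ncard ≤ m} m
    hG hS hU hn2 hK.1 (by omega) (fun v hv => hv)
  obtain ⟨S₂, hS₂, hS₂n, hS₂a⟩ := h5 V G S K {v | v ∉ K ∧ (S ∩ Ms G K v).ncard ≤ 6 * m + 1} m
    hG hS hU hn2 hK.1 (fun v hv => hv)
  have hmod := h6 V G S (S₁ ∩ S₂) m hS hU hn2 (fun s hs => (hS₁ hs.1).1) ?_
  · have hsub : S ⊆ ((S \ K) ∪ ((S ∩ K) \ S₁)) ∪ (((S ∩ K) \ S₂) ∪ (S₁ ∩ S₂)) := by
      intro s hs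
      by_cases hsK : s ∈ K
      · by_cases hs1 : s ∈ S₁
        · by_cases hs2 : s ∈ S₂
          · exact Or.inr (Or.inr ⟨hs1, hs2⟩)
          · exact Or.inr (Or.inl ⟨⟨hs, hsK⟩, hs2⟩)
        · exact Or.inl (Or.inr ⟨⟨hs, hsK⟩, hs1⟩)
      · exact Or.inl (Or.inl ⟨hs, hsK⟩)
    have e1 := Set.ncard_le_ncard hsub (Set.toFinite _)
    have e2 := Set.ncard_union_le ((S \ K) ∪ ((S ∩ K) \ S₁)) (((S ∩ K) \ S₂) ∪ (S₁ ∩ S₂))
    have e3 := Set.ncard_union_le (S \ K) ((S ∩ K) \ S₁)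
    have e4 := Set.ncard_union_le ((S ∩ K) \ S₂) (S₁ ∩ S₂)
    omega
  · intro v hv
    by_cases hvK : v ∈ K
    · left
      intro s hs
      exact hK.1 v hvK s (hS₁ hs.1).2 (fun h => hv (h ▸ hs))
    · rcases claim v hvK with h | h
      · right
        intro s hs
        exact hS₁a v ⟨hvK, h⟩ s hs.1
      · left
        intro s hs
        exact hS₂a v ⟨hvK, h⟩ s hs.2

end Pool.Agent.MPd439b2.M4
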