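import Pool.Agent.Lib.MP_d439b2_co.M4.Spec

/-!
# MP_d439b2_co, column `C_4`, row `K4:0,12`: the range cut (`S_Rg`)
-/

set_option autoImplicit false

namespace Pool.Agent.MPd439b2.M4

open Pool.Agent.MPd439b2 Pool.Agent.MPd439b2.LK

theorem rg (h1 : S_Tr2) (h2 : S_Rm) (h3 : S_Cut) (h4 : S_Ho) : S_Rg := by
  intro V _ G S K C x y m hG hS hU hm hK hCT
  have hCK : ∀ c ∈ C, c ∉ K := fun c hc => hCT.1.1 hc
  have hxC := hCT.2.1
  have hyC := hCT.2.2.1
  have hmin := hCT.2.2.2.1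
  have hmax := hCT.2.2.2.2
  have hRK : Ms G K y \ Ms G K x ⊆ K := fun k hk => hk.1.1
  have hHo : ∀ v, v ∉ K → v ∉ C → (∀ r ∈ Ms G K y \ Ms G K x, G.Adj v r) ∨
      (∀ r ∈ Ms G K y \ Ms G K x, ¬ G.Adj v r) ∨
      ∃ e ∈ Ms G K y \ Ms G K x, ∀ r ∈ Ms G K y \ Ms G K x, (G.Adj v r ↔ r = e) :=
    fun v hvK hvC => h4 V G K C x y v hG hK hCT hvK hvC
  constructor
  · rw [Set.union_comm]
    refine h3 V G S K (Ms G K y \ Ms G K x) (K \ Ms G K y) C m hG hS hU hm hK.1 hRK
      Set.sdiff_subset ?_ ?_ ?_ hHo ?_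
    · rw [Set.disjoint_left]
      intro k hk hk'
      exact hk'.2 hk.1
    · rw [Set.disjoint_left]
      intro k hk hk'
      exact hCK k hk' hk
    · intro l hl v hvK hvC hlv
      exact hCT.1.2.2 v hvK ⟨hvC, l, hl, hlv⟩
    · intro c hc
      constructor
      · intro k hkK hkR hkT
        have hky : k ∈ Ms G K y := by
          by_contra h
          exact hkT ⟨hkK, h⟩
        have hkx : k ∈ Ms G K x := by
          by_contra h
          exact hkR ⟨hky, h⟩
        exact (hmin c hc hkx).2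
      · have hsub : Ms G (K \ Ms G K y) c ⊆ Ms G K c \ Ms G K y :=
          fun k hk => ⟨⟨hk.1.1, hk.2⟩, hk.1.2⟩
        refine (Set.ncard_le_ncard hsub (Set.toFinite _)).trans ?_
        rcases h1 V G K c y hG hK.1 (hCK c hc) (hCK y hyC) with h | h | ⟨-, h | h⟩
        · rw [Set.sdiff_eq_empty.mpr h, Set.ncard_empty]
          exact Nat.zero_le 1
        · have h5 := Set.eq_of_subset_of_ncard_le h (hmax c hc) (Set.toFinite _)
          rw [h5, Set.sdiff_self, Set.ncard_empty]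
          exact Nat.zero_le 1
        · exfalso
          obtain ⟨k, hk⟩ := hK.2 x (hCK x hxC)
          exact Set.disjoint_left.mp h (hmin c hc hk) (hmin y hyC hk)
        · exact h.1.le
  · set R := Ms G K y \ Ms G K x with hR
    set E : Set V := {e | e ∈ R ∧ ∃ v, v ∉ K ∧ v ∉ C ∧ ∀ r ∈ R, (G.Adj v r ↔ r = e)} with hE
    have hER : E ⊆ R := fun e he => he.1
    obtain ⟨I, B, hIE, hIB, hI, -, hB⟩ := h2 V G S E m hG hS hU hm
      (fun u hu v hv huv => hK.1 u (hRK (hER hu)) v (hRK (hER hv)) huv)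
      (Or.inl fun e he => by
        obtain ⟨heR, v, hvK, hvC, hv⟩ := he
        exact ⟨v, fun h => hvK (hRK (hER h)), fun f hf => hv f (hER hf)⟩)
    refine ⟨(S ∩ R) \ E, Set.sdiff_subset, ?_, fun v hvK hvC => ?_⟩
    · have hsub : (S ∩ R) \ ((S ∩ R) \ E) ⊆ (S ∩ B) ∪ (E \ I) := by
        rintro e ⟨heR, he⟩
        have heE : e ∈ E := by
          by_contra h
          exact he ⟨heR, h⟩
        by_cases heI : e ∈ I
        · exact Or.inl ⟨heR.1, hIB heI⟩
        · exact Or.inr ⟨heE, heI⟩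
      have h5 := Set.ncard_le_ncard hsub (Set.toFinite _)
      have h6 := Set.ncard_union_le (S ∩ B) (E \ I)
      omega
    · rcases hHo v hvK hvC with h | h | ⟨e, he, h⟩
      · exact Or.inl fun r hr => h r hr.1.2
      · exact Or.inr fun r hr => h r hr.1.2
      · right
        intro r hr hvr
        refine hr.2 ⟨hr.1.2, v, hvK, hvC, ?_⟩
        rw [(h r hr.1.2).1 hvr]
        exact h

end Pool.Agent.MPd439b2.M4
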