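import Pool.Agent.Lib.MP_d439b2_co.M4.Spec

/-!
# MP_d439b2_co, column `C_4`, row `K4:0,12`: removing a petal set
-/

set_option autoImplicit false

namespace Pool.Agent.MPd439b2.M4

open Pool.Agent.MPd439b2 Pool.Agent.MPd439b2.LK

namespace RmAux

variable {V : Type} [Finite V] {G : SimpleGraph V}

/-- the blocks at a petal set of size at least 5 -/
theorem blocks (h2 : S_Z1) (h3 : S_Z4) (h4 : S_W4) {E : Set V} (hG : Cl G)
    (hE : CompleteOn G E) (h5 : 5 ≤ E.ncard)
    (hp : (∀ e ∈ E, (pZ G E e).Nonempty) ∨ (∀ e ∈ E, (pW G E e).Nonempty)) :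
    ∃ E' ⊆ E, (E \ E').ncard ≤ 1 ∧ ∃ Y, Blk G E' Y := by
  rcases hp with hp | hp
  · obtain ⟨E', hE', hc, ht⟩ := h2 V G E hG hE h5 hp
    refine ⟨E', hE', hc, ?_⟩
    have hcard : E'.ncard + (E \ E').ncard = E.ncard := by
      rw [add_comm]
      exact Set.ncard_sdiff_add_ncard_of_subset hE' (Set.toFinite _)
    refine h3 V G E' hG (fun u hu v hv => hE u (hE' hu) v (hE' hv)) (by omega) ?_ ht
    intro e he
    obtain ⟨z, hz, hz2⟩ := hp e (hE' he)
    exact ⟨z, fun h => hz (hE' h), fun f hf => hz2 f (hE' hf)⟩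
  · refine ⟨E, subset_rfl, ?_, h4 V G E hG hE h5 hp⟩
    simp

end RmAux

theorem rm (h1 : LK.S_A1) (h2 : S_Z1) (h3 : S_Z4) (h4 : S_W4) : S_Rm := by
  intro V _ G S E m hG hS hU hn hE hp
  by_cases h5 : 5 ≤ E.ncard
  swap
  · refine ⟨∅, ∅, Set.empty_subset _, Set.empty_subset _, ?_, ?_, ?_⟩
    · have : E \ ∅ = E := by simp
      rw [this]
      omega
    · have h := (h1 V G).2.2.2.1 ∅ (∅ᶜ)
      rw [Set.ncard_empty] at h
      unfold cr
      omega
    · simp
  · obtain ⟨E', hE', hc, Y, hY1, hY2⟩ := RmAux.blocks h2 h3 h4 hG hE h5 hp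
    -- `S` meets at most one block
    have hone : ∃ e₀ : V, ∀ e ∈ E', e ≠ e₀ → S ∩ Y e = ∅ := by
      by_cases hex : ∃ e₀ ∈ E', (S ∩ Y e₀).Nonempty
      · obtain ⟨e₀, he₀, a, haS, haY⟩ := hex
        refine ⟨e₀, fun e he hne => ?_⟩
        rw [Set.eq_empty_iff_forall_notMem]
        rintro b ⟨hbS, hbY⟩
        obtain ⟨hd, ht⟩ := hY1 e he e₀ he₀ hne
        by_cases hab : b = a
        · exact Set.disjoint_left.1 hd hbY (hab ▸ haY)
        · exact ht ⟨b, hbY, a, haY, hS b hbS a haS hab⟩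
      · obtain ⟨e₁⟩ : Nonempty V := by
          have : E.Nonempty := by
            rw [← Set.ncard_pos (Set.toFinite _)]
            omega
          exact ⟨this.some⟩
        refine ⟨e₁, fun e he _ => ?_⟩
        rw [← Set.not_nonempty_iff_eq_empty]
        exact fun h => hex ⟨e, he, h⟩
    obtain ⟨e₀, he₀⟩ := hone
    have hSB : ∀ J ⊆ E' \ {e₀}, S ∩ (J ∪ ⋃ e ∈ J, Y e) = S ∩ J := by
      intro J hJ
      ext s
      constructor
      · rintro ⟨hs, h | h⟩
        · exact ⟨hs, h⟩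
        · exfalso
          simp only [Set.mem_iUnion] at h
          obtain ⟨e, he, hse⟩ := h
          have h0 := he₀ e (hJ he).1 (fun h => (hJ he).2 h)
          have : s ∈ S ∩ Y e := ⟨hs, hse⟩
          rw [h0] at this
          exact this
      · rintro ⟨hs, h⟩
        exact ⟨hs, Or.inl h⟩
    refine ⟨E' \ {e₀}, (E' \ {e₀}) ∪ ⋃ e ∈ E' \ {e₀}, Y e, fun e he => hE' he.1,
      Set.subset_union_left, ?_, hY2 _ (fun e he => he.1), ?_⟩
    · have hsub : E \ (E' \ {e₀}) ⊆ (E \ E') ∪ {e₀} := by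
        rintro e ⟨he, hne⟩
        by_cases h : e ∈ E'
        · right
          by_contra h'
          exact hne ⟨h, h'⟩
        · exact Or.inl ⟨he, h⟩
      have e1 := Set.ncard_le_ncard hsub (Set.toFinite _)
      have e2 := Set.ncard_union_le (E \ E') {e₀}
      rw [Set.ncard_singleton] at e2
      omega
    · rw [hSB _ subset_rfl]
      by_contra hcon
      obtain ⟨J, hJ, hJc⟩ := Set.exists_subset_card_eq (s := S ∩ (E' \ {e₀})) (n := m + 1)
        (by omega)
      have hJE : J ⊆ E' \ {e₀} := fun j hj => (hJ hj).2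
      have hJS : J ⊆ S := fun j hj => (hJ hj).1
      have hcr := hY2 J (fun j hj => (hJE hj).1)
      have hSJ : S ∩ (J ∪ ⋃ e ∈ J, Y e) = J := by
        rw [hSB J hJE, Set.inter_eq_right]
        exact hJS
      have hsp : (S ∩ (J ∪ ⋃ e ∈ J, Y e)).ncard + (S \ (J ∪ ⋃ e ∈ J, Y e)).ncard = S.ncard :=
        Set.ncard_inter_add_ncard_sdiff_eq_ncard _ _ (Set.toFinite _)
      rw [hSJ] at hsp
      rcases hU (J ∪ ⋃ e ∈ J, Y e) (by omega) with h | h
      · rw [hSJ] at h
        omega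
      · omega

end Pool.Agent.MPd439b2.M4
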