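import Pool.Agent.Lib.MP_d439b2_co.M4.Spec

/-!
# MP_d439b2_co, column `C_4`, row `K4:0,12`: the threshold cut
-/

set_option autoImplicit false

namespace Pool.Agent.MPd439b2.M4

open Pool.Agent.MPd439b2 Pool.Agent.MPd439b2.LK

namespace ThAux

variable {V : Type} {G : SimpleGraph V}

theorem comp_eq {X D D' : Set V} (h : IsComp G X D) (h' : IsComp G X D') {v : V}
    (hv : v ∈ D) (hv' : v ∈ D') : D = D' := by
  have key : ∀ {A B : Set V}, IsComp G X A → IsComp G X B → v ∈ A → v ∈ B → A ⊆ B := by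
    intro A B hA hB hvA hvB
    have heq : A ∩ B = A := by
      refine Conn.eq_of_nb hA.2.1 Set.inter_subset_left ⟨v, hvA, hvB⟩ ?_
      rintro w hw ⟨hwn, a, ha, haw⟩
      exact hB.2.2 w (hA.1 hw) ⟨fun h => hwn ⟨hw, h⟩, a, ha.2, haw⟩
    rw [← heq]
    exact Set.inter_subset_right
  exact Set.Subset.antisymm (key h h' hv hv') (key h' h hv' hv)

end ThAux

theorem th (h1 : S_Tr2) (h2 : S_Jmp) (h3 : S_Cut) (h4 : S_Gt) : S_Th := by
  intro V _ G S K C x y m hG hS hU hn hK hCT
  obtain ⟨hC, hxC, hyC, hxm, hym⟩ := hCT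
  have hxK : x ∉ K := hC.1 hxC
  obtain ⟨L, hLdef⟩ : ∃ L : Set V, ∀ u, u ∈ L ↔ ∃ C', IsComp G Kᶜ C' ∧ C' ≠ C ∧ u ∈ C' ∧
      ∃ v ∈ C', Ms G K v ⊆ Ms G K x ∧ Ms G K v ≠ Ms G K x := ⟨{u | _}, fun u => Iff.rfl⟩
  have hMK : Ms G K x ⊆ K := fun _ h => h.1
  have hKL : ∀ l ∈ L, l ∉ K := by
    intro l hl
    obtain ⟨C', hC', -, hlC, -⟩ := (hLdef l).1 hl
    exact hC'.1 hlC
  have hcut := h3 V G S K (Ms G K x) (K \ Ms G K x) L m hG hS hU hn hK.1 hMK
    (fun _ h => h.1) (Set.disjoint_left.2 fun a ha hb => hb.2 ha)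
    (Set.disjoint_left.2 fun a ha hb => hKL a hb ha) ?_ ?_ ?_
  · rcases hcut with h | h
    · left
      refine le_trans (Set.ncard_le_ncard ?_ (Set.toFinite _)) h
      exact fun s hs => ⟨hs.1, Or.inl hs.2⟩
    · right
      refine le_trans (Set.ncard_le_ncard ?_ (Set.toFinite _)) h
      rintro s ⟨⟨hs, hsK⟩, hsM⟩
      refine ⟨hs, ?_⟩
      rintro (h' | h')
      · exact hsM h'
      · exact hKL s h' hsK
  · -- no edges from `L` to the outside
    intro l hl v hvK hvL hlv
    obtain ⟨C', hC', hne, hlC, hlow⟩ := (hLdef l).1 hl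
    have hvC' : v ∈ C' := by
      by_contra h
      exact hC'.2.2 v hvK ⟨h, l, hlC, hlv⟩
    exact hvL ((hLdef v).2 ⟨C', hC', hne, hvC', hlow⟩)
  · -- the vertices outside
    intro v hvK hvL
    by_cases hvC : v ∈ C
    · right; left
      intro r hr
      exact (hxm v hvC hr).2
    · obtain ⟨C', hC', hvC', hcC', hnb⟩ := exists_comp G (A := Kᶜ) (v := v) hvK
      have hC'' : IsComp G Kᶜ C' := ⟨hC', hcC', hnb⟩
      have hne : C' ≠ C := fun h => hvC (h ▸ hvC')
      have hnl : ¬ (Ms G K v ⊆ Ms G K x ∧ Ms G K v ≠ Ms G K x) := fun h =>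
        hvL ((hLdef v).2 ⟨C', hC'', hne, hvC', v, hvC', h⟩)
      rcases h1 V G K v x hG hK.1 hvK hxK with h | h | ⟨-, h | ⟨-, h⟩⟩
      · right; left
        have heq : Ms G K v = Ms G K x := by
          by_contra h'
          exact hnl ⟨h, h'⟩
        intro r hr
        rw [← heq] at hr
        exact hr.2
      · right; left
        intro r hr
        exact (h hr).2
      · left
        intro r hr
        by_contra h'
        exact Set.disjoint_left.1 h ⟨hr.1, h'⟩ hr
      · right; right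
        obtain ⟨e, he⟩ := Set.ncard_eq_one.1 h
        have heM : e ∈ Ms G K x \ Ms G K v := by
          rw [he]
          rfl
        refine ⟨e, heM.1, fun r hr => ⟨fun hvr => ?_, ?_⟩⟩
        · have : r ∈ Ms G K x \ Ms G K v := ⟨hr, fun h' => h'.2 hvr⟩
          rw [he] at this
          exact this
        · rintro rfl
          by_contra h'
          exact heM.2 ⟨hr.1, h'⟩
  · -- the vertices of `L`
    intro l hl
    refine ⟨fun k hk h h' => absurd ⟨hk, h⟩ h', ?_⟩
    obtain ⟨C', hC', hne, hlC, v₀, hv₀, hv₀M, hv₀n⟩ := (hLdef l).1 hl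
    obtain ⟨x', y', ⟨-, hx', hy', hxm', hym'⟩, -⟩ := h4 V G K C' hG hK hC'
    have hx'K : x' ∉ K := hC'.1 hx'
    have hy'K : y' ∉ K := hC'.1 hy'
    have hlK : l ∉ K := hC'.1 hlC
    have hxC' : x ∉ C' := fun h => hne (ThAux.comp_eq hC' hC h hxC)
    have hxnC' : ∀ c ∈ C', ¬ G.Adj x c := by
      intro c hc hxc
      exact hC'.2.2 x hxK ⟨hxC', c, hc, hxc.symm⟩
    obtain ⟨a, ha⟩ := hK.2 x' hx'K
    -- `M' ⊂ M`
    have hM'M : Ms G K x' ⊆ Ms G K x := fun s hs => hv₀M (hxm' v₀ hv₀ hs)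
    have hM'n : ¬ Ms G K x ⊆ Ms G K x' := by
      intro h
      exact hv₀n (Set.Subset.antisymm hv₀M fun s hs => hxm' v₀ hv₀ (h hs))
    have hndis : ∀ w ∈ C', ¬ Disjoint (Ms G K x) (Ms G K w) := by
      intro w hw h
      exact Set.disjoint_left.1 h (hM'M ha) (hxm' w hw ha)
    have hsz : ∀ A B : Set V, (B \ A).ncard + (A ∩ B).ncard = B.ncard := by
      intro A B
      rw [Set.inter_comm, add_comm]
      exact Set.ncard_inter_add_ncard_sdiff_eq_ncard B A (Set.toFinite _)
    have hyle : (Ms G K y').ncard ≤ (Ms G K x).ncard + 1 := by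
      rcases h1 V G K x y' hG hK.1 hxK hy'K with h | h | ⟨-, h | ⟨h, h'⟩⟩
      · -- `M ⊆ Ms y'`
        rcases h2 V G K C' x' y' x hG hK.1 hC'.2.1
          (Set.disjoint_left.2 fun k hk hk' => hC'.1 hk' hk) hx' hy' (hxm' y' hy') hxK hxC'
          hxnC' with h5 | h5 | ⟨-, h5⟩
        · exact absurd (fun s hs => h5 ⟨h hs, hs⟩) hM'n
        · have : Ms G K y' ⊆ Ms G K x := by
            intro s hs
            by_cases hsx : s ∈ Ms G K x'
            · exact hM'M hsx
            · exact h5 ⟨hs, hsx⟩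
          have := Set.ncard_le_ncard this (Set.toFinite _)
          omega
        · have hsub : Ms G K y' \ Ms G K x ⊆ (Ms G K y' \ Ms G K x') \ Ms G K x := by
            rintro s ⟨hs, hs'⟩
            exact ⟨⟨hs, fun h => hs' (hM'M h)⟩, hs'⟩
          have e1 := Set.ncard_le_ncard hsub (Set.toFinite _)
          have e2 := hsz (Ms G K x) (Ms G K y')
          have e3 := Set.ncard_le_ncard (Set.inter_subset_left : Ms G K x ∩ Ms G K y' ⊆ _)
            (Set.toFinite _)
          omega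
      · have := Set.ncard_le_ncard h (Set.toFinite _)
        omega
      · exact absurd h (hndis y' hy')
      · have e2 := hsz (Ms G K x) (Ms G K y')
        have e3 := Set.ncard_le_ncard (Set.inter_subset_left : Ms G K x ∩ Ms G K y' ⊆ _)
          (Set.toFinite _)
        omega
    have hlt : (Ms G K l \ Ms G K x).ncard ≤ 1 := by
      rcases h1 V G K x l hG hK.1 hxK hlK with h | h | ⟨-, h | ⟨h, h'⟩⟩
      · have e1 := hym' l hlC
        have e2 := hsz (Ms G K x) (Ms G K l)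
        rw [Set.inter_eq_left.2 h] at e2
        omega
      · have : Ms G K l \ Ms G K x = ∅ := Set.sdiff_eq_empty.2 h
        rw [this, Set.ncard_empty]
        exact Nat.zero_le _
      · exact absurd h (hndis l hlC)
      · exact h'.le
    refine le_trans (Set.ncard_le_ncard ?_ (Set.toFinite _)) hlt
    rintro s ⟨⟨hsK, hsx⟩, hs⟩
    exact ⟨⟨hsK, hs⟩, hsx⟩

end Pool.Agent.MPd439b2.M4
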