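import Pool.Agent.Lib.MP_d439b2_co.M4.Spec

/-!
# MP_d439b2_co, column `C_4`, row `K4:0,12`: two traces on a clique
-/

set_option autoImplicit false

namespace Pool.Agent.MPd439b2.M4

open Pool.Agent.MPd439b2 Pool.Agent.MPd439b2.LK

private theorem tr2_one {V : Type} [Finite V] {G : SimpleGraph V} {S : Set V} {u v : V}
    (h1 : S_Mo1) (hG : Cl G) (hS : CompleteOn G S) (hu : u ∉ S) (hv : v ∉ S) (huv : ¬ G.Adj u v)
    {s s' k : V} (hs : s ∈ Ms G S u \ Ms G S v) (hs' : s' ∈ Ms G S v \ Ms G S u)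
    (hk : k ∈ Ms G S u) (hk' : k ∈ Ms G S v) : (Ms G S u \ Ms G S v).ncard = 1 := by
  rw [Set.ncard_eq_one]
  refine ⟨s, Set.Subset.antisymm ?_ (Set.singleton_subset_iff.2 hs)⟩
  intro a ha
  by_contra hne
  have hne' : a ≠ s := hne
  obtain ⟨⟨haS, hua⟩, ha2⟩ := ha
  obtain ⟨⟨hsS, hus⟩, hs2⟩ := hs
  obtain ⟨⟨hs'S, hvs'⟩, hs'2⟩ := hs'
  obtain ⟨hkS, huk⟩ := hk
  obtain ⟨-, hvk⟩ := hk'
  have hva : G.Adj v a := by
    by_contra h
    exact ha2 ⟨haS, h⟩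
  have hvs : G.Adj v s := by
    by_contra h
    exact hs2 ⟨hsS, h⟩
  have hus' : G.Adj u s' := by
    by_contra h
    exact hs'2 ⟨hs'S, h⟩
  have n1 : s' ≠ a := by
    rintro rfl
    exact hua hus'
  have n2 : s' ≠ s := by
    rintro rfl
    exact hus hus'
  have n3 : s' ≠ k := by
    rintro rfl
    exact huk hus'
  have n4 : a ≠ k := by
    rintro rfl
    exact hvk hva
  have n5 : s ≠ k := by
    rintro rfl
    exact hvk hvs
  have n6 : u ≠ s' := fun h => hu (h ▸ hs'S)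
  have n7 : v ≠ s' := fun h => hv (h ▸ hs'S)
  refine hG.2 (h1 V G {s'} s a k u v (Conn.singleton G s') n2.symm n1.symm n3.symm n6 n7
    (hS s hsS a haS hne'.symm) (hS s hsS k hkS n5) (hS a haS k hkS n4)
    ⟨s', rfl, hS s' hs'S s hsS n2⟩ ⟨s', rfl, hS s' hs'S a haS n1⟩ ⟨s', rfl, hS s' hs'S k hkS n3⟩
    ⟨s', rfl, hus'.symm⟩ hus hua huk hvs hva hvk ?_ huv)
  rintro p rfl
  exact fun h => hvs' h.symm

theorem tr2 (h0 : LK.S_A0) (h1 : S_Mo1) : S_Tr2 := by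
  intro V _ G S u v hG hS hu hv
  by_cases huv : Ms G S u ⊆ Ms G S v
  · exact Or.inl huv
  by_cases hvu : Ms G S v ⊆ Ms G S u
  · exact Or.inr (Or.inl hvu)
  refine Or.inr (Or.inr ?_)
  obtain ⟨s, hs, hsv⟩ := Set.not_subset.1 huv
  obtain ⟨s', hs', hs'u⟩ := Set.not_subset.1 hvu
  obtain ⟨hsS, hus⟩ := id hs
  obtain ⟨hs'S, hvs'⟩ := id hs'
  have hvs : G.Adj v s := by
    by_contra h
    exact hsv ⟨hsS, h⟩
  have hus' : G.Adj u s' := by
    by_contra h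
    exact hs'u ⟨hs'S, h⟩
  have hss' : s ≠ s' := by
    rintro rfl
    exact hus hus'
  have hadj : G.Adj s s' := hS s hsS s' hs'S hss'
  have hne : ∀ x y : V, x ∉ S → y ∈ S → x ≠ y := by
    rintro x y hx hy rfl
    exact hx hy
  have huvne : u ≠ v := by
    rintro rfl
    exact hus hvs
  have hD : ∀ x y : V, x ≠ y → Disjoint ({x} : Set V) {y} :=
    fun x y h => Set.disjoint_singleton.2 h
  have hT : ∀ x y : V, Tch G {x} {y} ↔ G.Adj x y := by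
    intro x y
    simp [Tch]
  have hnuv : ¬ G.Adj u v := by
    intro huv'
    exact hG.1 (h0 V G {u} {v} {s} {s'} (Conn.singleton G u) (Conn.singleton G v)
      (Conn.singleton G s) (Conn.singleton G s') (hD _ _ huvne) (hD _ _ (hne u s hu hsS))
      (hD _ _ (hne u s' hu hs'S)) (hD _ _ (hne v s hv hsS)) (hD _ _ (hne v s' hv hs'S))
      (hD _ _ hss') ((hT _ _).2 huv') ((hT _ _).2 hvs) ((hT _ _).2 hadj) ((hT _ _).2 hus')
      (fun h => hus ((hT _ _).1 h)) (fun h => hvs' ((hT _ _).1 h)))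
  refine ⟨hnuv, ?_⟩
  by_cases hdis : Disjoint (Ms G S u) (Ms G S v)
  · exact Or.inl hdis
  right
  obtain ⟨k, hk, hk'⟩ := Set.not_disjoint_iff.1 hdis
  exact ⟨tr2_one h1 hG hS hu hv hnuv ⟨hs, hsv⟩ ⟨hs', hs'u⟩ hk hk',
    tr2_one h1 hG hS hv hu (fun h => hnuv h.symm) ⟨hs', hs'u⟩ ⟨hs, hsv⟩ hk' hk⟩

end Pool.Agent.MPd439b2.M4
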