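import Pool.Agent.Lib.MP_d439b2_co.M4.Spec

/-!
# MP_d439b2_co, column `C_4`, row `K4:0,12`: three disjoint traces
-/

set_option autoImplicit false

namespace Pool.Agent.MPd439b2.M4

open Pool.Agent.MPd439b2 Pool.Agent.MPd439b2.LK

namespace Tr3Aux

/-- vertices with disjoint nonempty traces are not adjacent -/
theorem not_adj (h2 : S_Tr2) {V : Type} [Finite V] {G : SimpleGraph V} {S : Set V} {u v : V}
    (hG : Cl G) (hS : CompleteOn G S) (hu : u ∉ S) (hv : v ∉ S) (hun : (Ms G S u).Nonempty)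
    (hvn : (Ms G S v).Nonempty) (hd : Disjoint (Ms G S u) (Ms G S v)) : ¬ G.Adj u v := by
  rcases h2 V G S u v hG hS hu hv with h | h | h
  · obtain ⟨a, ha⟩ := hun
    exact absurd (h ha) (Set.disjoint_left.1 hd ha)
  · obtain ⟨a, ha⟩ := hvn
    exact absurd ha (Set.disjoint_left.1 hd (h ha))
  · exact h.1

end Tr3Aux

open Tr3Aux in
theorem tr3 (h1 : S_Mo1) (h2 : S_Tr2) : S_Tr3 := by
  intro V _ G S u v w hG hS hu hv hw hvn hwn huv huw hvw
  by_contra hc
  push Not at hc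
  obtain ⟨a, ha, a', ha', haa⟩ := (Set.one_lt_ncard (Set.toFinite _)).1 hc
  obtain ⟨c, hcw⟩ := hwn
  have hun : (Ms G S u).Nonempty := ⟨a, ha⟩
  have nuv := not_adj h2 hG hS hu hv hun hvn huv
  have nuw := not_adj h2 hG hS hu hw hun ⟨c, hcw⟩ huw
  have nvw := not_adj h2 hG hS hv hw hvn ⟨c, hcw⟩ hvw
  have hsee : ∀ x z : V, z ∈ S → z ∉ Ms G S x → G.Adj x z := by
    intro x z hz hzx
    by_contra h
    exact hzx ⟨hz, h⟩
  have haS := ha.1
  have ha'S := ha'.1
  have hcS := hcw.1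
  have hva := hsee v a haS (Set.disjoint_left.1 huv ha)
  have hva' := hsee v a' ha'S (Set.disjoint_left.1 huv ha')
  have hwa := hsee w a haS (Set.disjoint_left.1 huw ha)
  have hwa' := hsee w a' ha'S (Set.disjoint_left.1 huw ha')
  have huc := hsee u c hcS (Set.disjoint_right.1 huw hcw)
  have hvc := hsee v c hcS (Set.disjoint_right.1 hvw hcw)
  have hac : a ≠ c := by
    rintro rfl
    exact ha.2 huc
  have ha'c : a' ≠ c := by
    rintro rfl
    exact ha'.2 huc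
  refine hG.2 (h1 V G {c} a a' v u w (Conn.singleton G c) hac ha'c ?_ ?_ ?_
    (hS a haS a' ha'S haa) hva.symm hva'.symm ⟨c, rfl, hS c hcS a haS hac.symm⟩
    ⟨c, rfl, hS c hcS a' ha'S ha'c.symm⟩ ⟨c, rfl, hvc.symm⟩ ⟨c, rfl, huc.symm⟩ ha.2 ha'.2 nuv
    hwa hwa' (fun h => nvw h.symm) ?_ nuw)
  · rintro rfl
    exact hv hcS
  · rintro rfl
    exact hu hcS
  · rintro rfl
    exact hw hcS
  · rintro p rfl h
    exact hcw.2 h.symm

end Pool.Agent.MPd439b2.M4
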