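import Pool.Agent.Lib.MP_d439b2_co.M4.Spec

/-!
# MP_d439b2_co, column `C_4`, row `K4:0,12`: private non-neighbours, the vertices of `pF` (`S_W2`)
-/

set_option autoImplicit false

namespace Pool.Agent.MPd439b2.M4

open Pool.Agent.MPd439b2 Pool.Agent.MPd439b2.LK

namespace w2Aux

variable {V : Type} {G : SimpleGraph V}

/-- four vertices -/
theorem c4 (h0 : LK.S_A0) (hG : Cl G) {a b c d : V} (h1 : G.Adj a b) (h2 : G.Adj b c)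
    (h3 : G.Adj c d) (h4 : G.Adj a d) (h5 : ¬ G.Adj a c) (h6 : ¬ G.Adj b d) (h7 : a ≠ c)
    (h8 : b ≠ d) : False := by
  apply hG.1
  refine h0 V G {a} {b} {c} {d} (Conn.singleton G a) (Conn.singleton G b) (Conn.singleton G c)
    (Conn.singleton G d) ?_ ?_ ?_ ?_ ?_ ?_ ⟨a, rfl, b, rfl, h1⟩ ⟨b, rfl, c, rfl, h2⟩
    ⟨c, rfl, d, rfl, h3⟩ ⟨a, rfl, d, rfl, h4⟩ ?_ ?_
  · rw [Set.disjoint_singleton]; exact h1.ne
  · rw [Set.disjoint_singleton]; exact h7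
  · rw [Set.disjoint_singleton]; exact h4.ne
  · rw [Set.disjoint_singleton]; exact h2.ne
  · rw [Set.disjoint_singleton]; exact h8
  · rw [Set.disjoint_singleton]; exact h3.ne
  · rintro ⟨x, rfl, y, rfl, h⟩
    exact h5 h
  · rintro ⟨x, rfl, y, rfl, h⟩
    exact h6 h

/-- Mo1 for six vertices -/
theorem mo (h1 : S_Mo1) (hG : Cl G) {p b c d x y : V} (pb : G.Adj p b) (pc : G.Adj p c)
    (pd : G.Adj p d) (px : G.Adj p x) (bc : G.Adj b c) (bd : G.Adj b d) (cd : G.Adj c d)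
    (xb : ¬ G.Adj x b) (xc : ¬ G.Adj x c) (xd : ¬ G.Adj x d) (yb : G.Adj y b) (yc : G.Adj y c)
    (yd : ¬ G.Adj y d) (py : ¬ G.Adj p y) (xy : ¬ G.Adj x y) : False := by
  apply hG.2
  refine h1 V G {p} b c d x y (Conn.singleton G p) pb.ne' pc.ne' pd.ne' px.ne' ?_ bc bd cd
    ⟨p, rfl, pb⟩ ⟨p, rfl, pc⟩ ⟨p, rfl, pd⟩ ⟨p, rfl, px⟩ xb xc xd yb yc yd ?_ xy
  · rintro rfl
    exact yd pd
  · rintro q rfl
    exact py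

/-- a third element -/
theorem third [Finite V] {E : Set V} (h5 : 5 ≤ E.ncard) (a b : V) :
    ∃ e ∈ E, e ≠ a ∧ e ≠ b := by
  obtain ⟨e, he, hn⟩ : ∃ e ∈ E, e ∉ ({a, b} : Set V) := by
    refine Set.exists_mem_notMem_of_ncard_lt_ncard ?_ (Set.toFinite _)
    have := Set.ncard_insert_le a ({b} : Set V)
    rw [Set.ncard_singleton] at this
    omega
  simp only [Set.mem_insert_iff, Set.mem_singleton_iff, not_or] at hn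
  exact ⟨e, he, hn.1, hn.2⟩

/-- Part (1), first case. -/
theorem claim1 (h1 : S_Mo1) (hG : Cl G) {E : Set V} (hE : CompleteOn G E)
    (hW : ∀ e ∈ E, ∀ f ∈ E, e ≠ f → ∀ w ∈ pW G E e, ∀ w' ∈ pW G E f, ¬ G.Adj w w')
    {w v₁ v₂ v₃ e₁ e₂ e₃ : V} (hw : w ∈ pF G E) (m1 : e₁ ∈ E) (m2 : e₂ ∈ E) (m3 : e₃ ∈ E)
    (n12 : e₁ ≠ e₂) (n13 : e₁ ≠ e₃) (n23 : e₂ ≠ e₃) (w1 : v₁ ∈ pW G E e₁) (w2 : v₂ ∈ pW G E e₂)
    (w3 : v₃ ∈ pW G E e₃) (a1 : G.Adj w v₁) (a2 : G.Adj w v₂) : G.Adj w v₃ := by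
  by_contra h
  exact mo h1 hG (hw.2 e₂ m2).symm (hE e₂ m2 e₃ m3 n23) ((w1.2 e₂ m2).2 n12.symm).symm
    ((w3.2 e₂ m2).2 n23).symm (hw.2 e₃ m3) a1 ((w1.2 e₃ m3).2 n13.symm).symm
    (fun h' => h h'.symm) (fun h' => (w3.2 e₃ m3).1 h' rfl) (hW e₃ m3 e₁ m1 n13.symm v₃ w3 v₁ w1)
    a2.symm ((w2.2 e₃ m3).2 n23.symm) (hW e₂ m2 e₁ m1 n12.symm v₂ w2 v₁ w1)
    (fun h' => (w2.2 e₂ m2).1 h'.symm rfl) (hW e₃ m3 e₂ m2 n23.symm v₃ w3 v₂ w2)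

/-- Part (1). -/
theorem claim [Finite V] (h1 : S_Mo1) (hG : Cl G) {E : Set V} (hE : CompleteOn G E)
    (h5 : 5 ≤ E.ncard) (hne : ∀ e ∈ E, (pW G E e).Nonempty)
    (hW : ∀ e ∈ E, ∀ f ∈ E, e ≠ f → ∀ w ∈ pW G E e, ∀ w' ∈ pW G E f, ¬ G.Adj w w')
    {w v₁ v₂ e₁ e₂ : V} (hw : w ∈ pF G E) (m1 : e₁ ∈ E) (m2 : e₂ ∈ E)
    (n12 : e₁ ≠ e₂) (w1 : v₁ ∈ pW G E e₁) (w2 : v₂ ∈ pW G E e₂)
    (a1 : G.Adj w v₁) (a2 : G.Adj w v₂) : w ∈ pT G E := by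
  refine ⟨hw, fun e₃ m3 v₃ w3 => ?_⟩
  obtain ⟨e₄, m4, n41, n42⟩ := third h5 e₁ e₂
  obtain ⟨v₄, w4⟩ := hne e₄ m4
  have a4 : G.Adj w v₄ := claim1 h1 hG hE hW hw m1 m2 m4 n12 n41.symm n42.symm w1 w2 w4 a1 a2
  by_cases h31 : e₃ = e₁
  · subst h31
    exact claim1 h1 hG hE hW hw m2 m4 m3 n42.symm n12.symm n41 w2 w4 w3 a2 a4
  by_cases h32 : e₃ = e₂
  · subst h32
    exact claim1 h1 hG hE hW hw m1 m4 m3 n41.symm n12 n42 w1 w4 w3 a1 a4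
  exact claim1 h1 hG hE hW hw m1 m2 m3 n12 (Ne.symm h31) (Ne.symm h32) w1 w2 w3 a1 a2

end w2Aux

open w2Aux in
theorem w2 (h0 : LK.S_A0) (h1 : S_Mo1) (h2 : S_W1) : S_W2 := by
  intro V _ G E hG hE h5 hne
  have hW := (h2 V G E hG hE h5 hne).1
  have hA : ∀ e ∈ E, ∀ f ∈ E, e ≠ f → ∀ w ∈ pQ G E e, ∀ v ∈ pW G E f, ¬ G.Adj w v := by
    intro e he f hf hef w hw v hv hwv
    obtain ⟨hwF, hwT, v', hv', hwv'⟩ := hw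
    exact hwT (claim h1 hG hE h5 hne hW hwF he hf hef hv' hv hwv' hwv)
  refine ⟨hA, ?_, ?_⟩
  · intro w hw e he w' hw'
    by_contra h
    obtain ⟨hwF', hwT', v, hv, hwv⟩ := hw'
    exact c4 h0 hG (hw.2 e he v hv) hwv.symm (hwF'.2 e he) (hw.1.2 e he) h
      (fun h' => (hv.2 e he).1 h' rfl) (fun h' => hwT' (h' ▸ hw)) (fun h' => hv.1 (h' ▸ he))
  · intro e he w hw w' hwF' hwT' hwQ' hww
    obtain ⟨hwF, hwT, v, hv, hwv⟩ := id hw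
    have hvw' : ¬ G.Adj w' v := fun h => hwQ' ⟨hwF', hwT', v, hv, h⟩
    obtain ⟨g, mg, hge, hg⟩ : ∃ g ∈ E, g ≠ e ∧ ∀ u ∈ pW G E g, ¬ G.Adj w' u := by
      by_contra hcon
      push Not at hcon
      obtain ⟨g₁, mg₁, n1, -⟩ := third h5 e e
      obtain ⟨g₂, mg₂, n2, n3⟩ := third h5 e g₁
      obtain ⟨u₁, hu₁, b1⟩ := hcon g₁ mg₁ n1
      obtain ⟨u₂, hu₂, b2⟩ := hcon g₂ mg₂ n2
      exact hwT' (claim h1 hG hE h5 hne hW hwF' mg₁ mg₂ n3.symm hu₁ hu₂ b1 b2)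
    obtain ⟨v', hv'⟩ := hne g mg
    exact mo h1 hG (hwF.2 e he).symm (hE e he g mg hge.symm) (hwF'.2 e he).symm
      ((hv'.2 e he).2 hge.symm).symm (hwF.2 g mg) hww (hwF'.2 g mg).symm
      (fun h => hA e he g mg hge.symm w hw v' hv' h.symm) (fun h => (hv'.2 g mg).1 h rfl)
      (fun h => hg v' hv' h.symm) hwv.symm ((hv.2 g mg).2 hge) (fun h => hvw' h.symm)
      (fun h => (hv.2 e he).1 h.symm rfl) (hW g mg e he hge v' hv' v hv)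

end Pool.Agent.MPd439b2.M4
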