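import Pool.Agent.Lib.MP_d439b2_co.M4.Spec

/-!
# MP_d439b2_co, column `C_4`, row `K4:0,12`, W3: the components of `G[p0]` (private non-neighbours)
-/

set_option autoImplicit false

namespace Pool.Agent.MPd439b2.M4

open Pool.Agent.MPd439b2 Pool.Agent.MPd439b2.LK

namespace W3Aux

variable {V : Type} {G : SimpleGraph V}

/-- the component of `C \ {x}` containing `q` touches `x` -/
theorem comp_touch {C : Set V} {x q : V} (hC : Conn G C) (hx : x ∈ C) (hq : q ∈ C)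
    (hne : q ≠ x) : ∃ K ⊆ C \ {x}, q ∈ K ∧ Conn G K ∧ ∃ y ∈ K, G.Adj x y := by
  obtain ⟨K, hKs, hqK, hK, hKn⟩ := exists_comp G (A := C \ {x}) (v := q) ⟨hq, hne⟩
  refine ⟨K, hKs, hqK, hK, ?_⟩
  obtain ⟨b, hb, a, ha, hab⟩ := hC.2 K (fun y hy => (hKs hy).1) ⟨q, hqK⟩ (fun h => by
    have h5 : x ∈ K := h ▸ hx
    exact (hKs h5).2 rfl)
  have hax : a = x := by
    by_contra hne'
    exact hKn a ⟨ha.1, hne'⟩ ⟨ha.2, b, hb, hab⟩
  subst hax
  exact ⟨b, hb, hab.symm⟩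

/-- no four-cycle with one connected set and three vertices -/
theorem c4 (h0 : LK.S_A0) (hG : Cl G) {D : Set V} {p g q : V} (cD : Conn G D)
    (hpD : p ∉ D) (hgD : g ∉ D) (hqD : q ∉ D) (hpq : p ≠ q)
    (tDp : ∃ d ∈ D, G.Adj d p) (tDq : ∃ d ∈ D, G.Adj d q) (hpg : G.Adj p g) (hqg : G.Adj q g)
    (tDg : ∀ d ∈ D, ¬ G.Adj d g) (hn : ¬ G.Adj p q) : False := by
  obtain ⟨d, hd, hdp⟩ := tDp
  obtain ⟨d', hd', hdq⟩ := tDq
  refine hG.1 (h0 V G D {p} {g} {q} cD (Conn.singleton G p) (Conn.singleton G g)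
    (Conn.singleton G q) (Set.disjoint_singleton_right.2 hpD) (Set.disjoint_singleton_right.2 hgD)
    (Set.disjoint_singleton_right.2 hqD) (Set.disjoint_singleton.2 hpg.ne)
    (Set.disjoint_singleton.2 hpq) (Set.disjoint_singleton.2 hqg.ne.symm)
    ⟨d, hd, p, rfl, hdp⟩ ⟨p, rfl, g, rfl, hpg⟩ ⟨g, rfl, q, rfl, hqg.symm⟩
    ⟨d', hd', q, rfl, hdq⟩ ?_ ?_)
  · rintro ⟨a, ha, b, hb, hab⟩
    rw [Set.mem_singleton_iff] at hb
    subst hb
    exact tDg a ha hab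
  · rintro ⟨a, ha, b, hb, hab⟩
    rw [Set.mem_singleton_iff] at ha hb
    subst ha hb
    exact hn hab

end W3Aux

open W3Aux in
theorem w3 (h0 : LK.S_A0) (h1 : S_Mo1) (h2 : S_W1) (h3 : S_W2) : S_W3 := by
  intro V _ G E D e p hG hE hn hne hD he hp hpD
  obtain ⟨hDs, cD, hDn⟩ := hD
  obtain ⟨hW1, -⟩ := h2 V G E hG hE hn hne
  obtain ⟨hQ1, hQ2, hQ3⟩ := h3 V G E hG hE hn hne
  obtain ⟨hpD1, d, hd, hdp⟩ := hpD
  have hDE : ∀ x ∈ E, x ∉ D := fun x hx h => (hDs h).1 hx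
  have hD0 : ∀ u ∈ D, ∀ x ∈ E, ¬ G.Adj u x := fun u hu x hx => (hDs hu).2 x hx
  have hpE : p ∉ E := by
    rcases hp with h | h
    · exact h.1
    · exact h.1.1
  have hpf : ∀ f ∈ E, f ≠ e → G.Adj p f := by
    intro f hf hfe
    rcases hp with h | h
    · exact (h.2 f hf).2 hfe
    · exact h.1.2 f hf
  have hpW : ∀ f ∈ E, f ≠ e → ∀ q ∈ pW G E f, ¬ G.Adj p q := by
    intro f hf hfe q hq
    rcases hp with h | h
    · exact hW1 e he f hf (Ne.symm hfe) p h q hq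
    · exact hQ1 e he f hf (Ne.symm hfe) p h q hq
  have hcard : ∀ f : V, 1 < (E \ {e, f}).ncard := by
    intro f
    have h3 := Set.ncard_insert_le e ({f} : Set V)
    rw [Set.ncard_singleton] at h3
    have h4 := Set.le_ncard_sdiff ({e, f} : Set V) E (Set.toFinite _)
    omega
  have fst : ∀ f ∈ E, f ≠ e → ∀ q ∈ pW G E f, q ∉ nb G D := by
    rintro f hf hfe q hq ⟨hqD, d', hd', hdq⟩
    obtain ⟨g, ⟨hgE, hg⟩, -, -, -⟩ := (Set.one_lt_ncard (Set.toFinite _)).1 (hcard f)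
    simp only [Set.mem_insert_iff, Set.mem_singleton_iff, not_or] at hg
    refine c4 h0 hG (D := D) (p := p) (g := g) (q := q) cD hpD1 (hDE g hgE) hqD ?_ ⟨d, hd, hdp⟩
      ⟨d', hd', hdq⟩ (hpf g hgE hg.1) ((hq.2 g hgE).2 hg.2) (fun u hu => hD0 u hu g hgE)
      (hpW f hf hfe q hq)
    rintro rfl
    exact (hq.2 f hf).1 (hpf f hf hfe) rfl
  have snd : ∀ q ∈ pF G E, q ∉ pT G E → q ∉ pQ G E e → q ∉ nb G D := by
    rintro q hq hqT hqQ ⟨hqD, d', hd', hdq⟩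
    obtain ⟨g, ⟨hgE, hg⟩, -, -, -⟩ := (Set.one_lt_ncard (Set.toFinite _)).1 (hcard e)
    simp only [Set.mem_insert_iff, Set.mem_singleton_iff, not_or] at hg
    refine c4 h0 hG (D := D) (p := p) (g := g) (q := q) cD hpD1 (hDE g hgE) hqD ?_ ⟨d, hd, hdp⟩
      ⟨d', hd', hdq⟩ (hpf g hgE hg.1) (hq.2 g hgE) (fun u hu => hD0 u hu g hgE) ?_
    · rintro rfl
      rcases hp with h | h
      · exact (h.2 e he).1 (hq.2 e he) rfl
      · exact hqQ h
    · intro hpq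
      rcases hp with h | h
      · exact hqQ ⟨hq, hqT, p, h, hpq.symm⟩
      · exact hQ3 e he p h q hq hqT hqQ hpq
  refine ⟨fst, snd, ?_⟩
  intro u hu w hw
  by_contra hwu
  obtain ⟨t, ⟨htE, hte⟩, r, ⟨hrE, hre⟩, htr⟩ := (Set.one_lt_ncard (Set.toFinite _)).1 (hcard e)
  simp only [Set.mem_insert_iff, Set.mem_singleton_iff, or_self] at hte hre
  obtain ⟨vt, hvt⟩ := hne t htE
  have hpw : G.Adj p w := by
    rcases hp with h | h
    · exact (hw.2 e he p h).symm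
    · exact (hQ2 w hw e he p h).symm
  have hwF : ∀ x ∈ E, G.Adj w x := hw.1.2
  have hwD : w ∉ D := fun h => hD0 w h e he (hwF e he)
  have hvtr : G.Adj vt r := (hvt.2 r hrE).2 (Ne.symm htr)
  have hvtD : vt ∉ D := fun h => hD0 vt h r hrE hvtr
  have hvtnb : ∀ x ∈ D, ¬ G.Adj x vt := fun x hx h => fst t htE hte vt hvt ⟨hvtD, x, hx, h⟩
  have hP : ∃ P : Set V, Conn G P ∧ p ∈ P ∧ P ⊆ {p} ∪ (D \ {u}) ∧ ∃ x ∈ P, G.Adj x u := by
    by_cases hup : G.Adj p u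
    · exact ⟨{p}, Conn.singleton G p, rfl, Set.subset_union_left, p, rfl, hup⟩
    · have hdu : d ≠ u := by
        rintro rfl
        exact hup hdp.symm
      obtain ⟨K, hKs, hdK, cK, y, hyK, huy⟩ := comp_touch cD hu hd hdu
      refine ⟨{p} ∪ K, (Conn.singleton G p).union cK (Or.inr ⟨p, rfl, d, hdK, hdp.symm⟩),
        Or.inl rfl, Set.union_subset_union_right _ hKs, y, Or.inr hyK, huy.symm⟩
  obtain ⟨P, cP, hpP, hPs, x, hxP, hxu⟩ := hP
  have hEP : ∀ x ∈ E, x ∉ P := by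
    intro x hx hxP
    rcases hPs hxP with h | h
    · rw [Set.mem_singleton_iff] at h
      subst h
      exact hpE hx
    · exact hDE x hx h.1
  have hwP : w ∉ P := by
    intro hwP
    rcases hPs hwP with h | h
    · exact hpw.ne h.symm
    · exact hwD h.1
  have huP : u ∉ P := by
    intro huP
    rcases hPs huP with h | h
    · rw [Set.mem_singleton_iff] at h
      subst h
      exact hpD1 hu
    · exact h.2 rfl
  have hvtP : vt ∉ P := by
    intro hP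
    rcases hPs hP with h | h
    · rw [Set.mem_singleton_iff] at h
      subst h
      exact (hvt.2 t htE).1 (hpf t htE hte) rfl
    · exact hvtD h.1
  have hPvt : ∀ p ∈ P, ¬ G.Adj p vt := by
    intro x hx h'
    rcases hPs hx with h | h
    · rw [Set.mem_singleton_iff] at h
      subst h
      exact hpW t htE hte vt hvt h'
    · exact hvtnb x h.1 h'
  exact hG.2 (h1 V G P w r t u vt cP hwP (hEP r hrE) (hEP t htE) huP hvtP
    (hwF r hrE) (hwF t htE) (hE r hrE t htE (Ne.symm htr)) ⟨p, hpP, hpw⟩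
    ⟨p, hpP, hpf r hrE hre⟩ ⟨p, hpP, hpf t htE hte⟩ ⟨x, hxP, hxu⟩
    (fun h => hwu h.symm) (hD0 u hu r hrE) (hD0 u hu t htE)
    (hw.2 t htE vt hvt).symm hvtr (fun h => (hvt.2 t htE).1 h rfl) hPvt (hvtnb u hu))

end Pool.Agent.MPd439b2.M4
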