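import Pool.Agent.Lib.MP_d439b2_co.M4.Spec

/-!
# MP_d439b2_co, column `C_4`, row `K4:0,12`: W4, private non-neighbours, the blocks
-/

set_option autoImplicit false

namespace Pool.Agent.MPd439b2.M4

open Pool.Agent.MPd439b2 Pool.Agent.MPd439b2.LK

namespace W4Aux

variable {V : Type} {G : SimpleGraph V} {E : Set V}

private theorem comp_sub {X D D' : Set V} (h : IsComp G X D) (h' : IsComp G X D') {z : V}
    (hz : z ∈ D) (hz' : z ∈ D') : D ⊆ D' := by
  by_contra hn
  obtain ⟨b, hb, a, ha, hba⟩ := h.2.1.2 (D ∩ D') Set.inter_subset_left ⟨z, hz, hz'⟩ (by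
    intro he
    apply hn
    rw [← he]
    exact Set.inter_subset_right)
  exact h'.2.2 a (h.1 ha.1) ⟨fun h1 => ha.2 ⟨ha.1, h1⟩, b, hb.2, hba⟩

/-- a vertex of `X` adjacent to a component of `G[X]` is in it -/
private theorem comp_cl {X D : Set V} (h : IsComp G X D) {u w : V} (hu : u ∈ D) (hw : w ∈ X)
    (huw : G.Adj u w) : w ∈ D := by
  by_contra h1
  exact h.2.2 w hw ⟨h1, u, hu, huw⟩

/-- the components of `G[p0]` at `e` -/
private def Cc (G : SimpleGraph V) (E : Set V) (e : V) : Set V :=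
  {u | ∃ D, IsComp G (p0 G E) D ∧ u ∈ D ∧ ∃ p ∈ pW G E e ∪ pQ G E e, p ∈ nb G D}

private def Yy (G : SimpleGraph V) (E : Set V) (e : V) : Set V :=
  (pW G E e ∪ pQ G E e) ∪ Cc G E e

private theorem pW_not {e : V} (he : e ∈ E) {v : V} (hv : v ∈ pW G E e) : ¬ G.Adj v e :=
  fun h => (hv.2 e he).1 h rfl

private theorem pW_adj {e f : V} (hf : f ∈ E) (hef : f ≠ e) {v : V} (hv : v ∈ pW G E e) :
    G.Adj v f :=
  (hv.2 f hf).2 hef

private theorem pF_p0 {e : V} (he : e ∈ E) {v : V} (h : v ∈ pF G E) (h' : v ∈ p0 G E) : False :=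
  h'.2 e he (h.2 e he)

private theorem pW_pF {e : V} (he : e ∈ E) {v : V} (h : v ∈ pW G E e) (h' : v ∈ pF G E) :
    False :=
  pW_not he h (h'.2 e he)

private theorem Cc_p0 {e : V} {u : V} (h : u ∈ Cc G E e) : u ∈ p0 G E := by
  obtain ⟨D, hD, hu, _⟩ := h
  exact hD.1 hu

end W4Aux

open W4Aux

theorem w4 (h1 : LK.S_A1) (h2 : S_W1) (h3 : S_W2) (h4 : S_W3) : S_W4 := by
  intro V _ G E hG hE h5 hW
  obtain ⟨a1, a2⟩ := h2 V G E hG hE h5 hW
  obtain ⟨b1, b2, b3⟩ := h3 V G E hG hE h5 hW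
  have w3 := fun D e p hD he hp hn => h4 V G E D e p hG hE h5 hW hD he hp hn
  obtain ⟨-, rmono, runion, -, rone, -⟩ := h1 V G
  -- some element different from `e`
  have other : ∀ e, ∃ f ∈ E, f ≠ e := by
    intro e
    by_contra hn
    push Not at hn
    have h6 : E ⊆ {e} := fun f hf => hn f hf
    have h7 := Set.ncard_le_ncard h6
    rw [Set.ncard_singleton] at h7
    omega
  have pW_p0 : ∀ e v, v ∈ pW G E e → v ∈ p0 G E → False := by
    intro e v hv hv'
    obtain ⟨f, hf, hfe⟩ := other e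
    exact hv'.2 f hf (pW_adj hf hfe hv)
  have P_p0 : ∀ e ∈ E, ∀ v, v ∈ pW G E e ∪ pQ G E e → v ∈ p0 G E → False := by
    intro e he v hv hv'
    rcases hv with hv | hv
    · exact pW_p0 e v hv hv'
    · exact pF_p0 he hv.1 hv'
  -- `pQ e`, `pQ f` are disjoint
  have QQ : ∀ e ∈ E, ∀ f ∈ E, e ≠ f → ∀ w, w ∈ pQ G E e → w ∉ pQ G E f := by
    intro e he f hf hef w hw hw'
    obtain ⟨v, hv, hwv⟩ := hw'.2.2
    exact b1 e he f hf hef w hw v hv hwv
  -- `P e`, `P f` are disjoint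
  have PP : ∀ e ∈ E, ∀ f ∈ E, e ≠ f → ∀ w, w ∈ pW G E e ∪ pQ G E e →
      w ∉ pW G E f ∪ pQ G E f := by
    intro e he f hf hef w hw hw'
    rcases hw with hw | hw <;> rcases hw' with hw' | hw'
    · exact pW_not he hw (pW_adj he hef hw')
    · exact pW_pF he hw hw'.1
    · exact pW_pF hf hw' hw.1
    · exact QQ e he f hf hef w hw hw'
  -- no edges between `P e` and `P f`
  have PPn : ∀ e ∈ E, ∀ f ∈ E, e ≠ f → ∀ w ∈ pW G E e ∪ pQ G E e,
      ∀ w' ∈ pW G E f ∪ pQ G E f, ¬ G.Adj w w' := by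
    intro e he f hf hef w hw w' hw' hww
    rcases hw with hw | hw <;> rcases hw' with hw' | hw'
    · exact a1 e he f hf hef w hw w' hw' hww
    · exact b1 f hf e he (Ne.symm hef) w' hw' w hw hww.symm
    · exact b1 e he f hf hef w hw w' hw' hww
    · exact b3 e he w hw w' hw'.1 hw'.2.1 (QQ f hf e he (Ne.symm hef) w' hw') hww
  -- a component has no neighbours in both
  have CC : ∀ e ∈ E, ∀ f ∈ E, e ≠ f → ∀ D, IsComp G (p0 G E) D →
      ∀ p ∈ pW G E e ∪ pQ G E e, p ∈ nb G D → ∀ q ∈ pW G E f ∪ pQ G E f, q ∉ nb G D := by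
    intro e he f hf hef D hD p hp hpD q hq
    obtain ⟨c1, c2, _⟩ := w3 D e p hD he hp hpD
    rcases hq with hq | hq
    · exact c1 f hf (Ne.symm hef) q hq
    · exact c2 q hq.1 hq.2.1 (QQ f hf e he (Ne.symm hef) q hq)
  have comp0 : ∀ u ∈ p0 G E, ∃ D, IsComp G (p0 G E) D ∧ u ∈ D := by
    intro u hu
    obtain ⟨D, hD1, hD2, hD3, hD4⟩ := exists_comp G hu
    exact ⟨D, ⟨hD1, hD3, hD4⟩, hD2⟩
  -- a neighbour in `p0` of an element of `P e` is in `Cc e`
  have PC : ∀ e ∈ E, ∀ p ∈ pW G E e ∪ pQ G E e, ∀ u ∈ p0 G E, G.Adj p u → u ∈ Cc G E e := by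
    intro e he p hp u hu hpu
    obtain ⟨D, hD, huD⟩ := comp0 u hu
    exact ⟨D, hD, huD, p, hp, fun h => P_p0 e he p hp (hD.1 h), u, huD, hpu.symm⟩
  refine ⟨fun e => Yy G E e, ?_, ?_⟩
  · intro e he f hf hef
    have hCC : ∀ u, u ∈ Cc G E e → u ∈ Cc G E f → False := by
      rintro u ⟨D, hD, hu, p, hp, hpD⟩ ⟨D', hD', hu', q, hq, hqD⟩
      have hDD : D = D' := Set.Subset.antisymm (comp_sub hD hD' hu hu') (comp_sub hD' hD hu' hu)
      rw [← hDD] at hqD
      exact CC e he f hf hef D hD p hp hpD q hq hqD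
    refine ⟨?_, ?_⟩
    · rw [Set.disjoint_left]
      intro u hu hu'
      rcases hu with hu | hu <;> rcases hu' with hu' | hu'
      · exact PP e he f hf hef u hu hu'
      · exact P_p0 e he u hu (Cc_p0 hu')
      · exact P_p0 f hf u hu' (Cc_p0 hu)
      · exact hCC u hu hu'
    · rintro ⟨u, hu, w, hw, huw⟩
      rcases hu with hu | hu <;> rcases hw with hw | hw
      · exact PPn e he f hf hef u hu w hw huw
      · exact hCC w (PC e he u hu w (Cc_p0 hw) huw) hw
      · exact hCC u hu (PC f hf w hw u (Cc_p0 hu) huw.symm)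
      · refine hCC w ?_ hw
        obtain ⟨D, hD, huD, p, hp, hpD⟩ := hu
        exact ⟨D, hD, comp_cl hD huD (Cc_p0 hw) huw, p, hp, hpD⟩
  · intro I hI
    obtain ⟨X, hX⟩ : ∃ X : Set V, X = I ∪ ⋃ e ∈ I, Yy G E e := ⟨_, rfl⟩
    rw [← hX]
    have inI : ∀ b, b ∉ X → b ∉ I := by
      intro b hb hbI
      apply hb
      rw [hX]
      exact Or.inl hbI
    have inP : ∀ b, b ∉ X → ∀ e ∈ I, b ∉ pW G E e ∪ pQ G E e := by
      intro b hb e he hbe
      apply hb
      rw [hX]
      exact Or.inr (Set.mem_biUnion he (Or.inl hbe))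
    have inC : ∀ b, b ∉ X → ∀ e ∈ I, b ∉ Cc G E e := by
      intro b hb e he hbe
      apply hb
      rw [hX]
      exact Or.inr (Set.mem_biUnion he (Or.inr hbe))
    have r1 : rk G I Xᶜ ≤ 1 := by
      refine rone I Xᶜ {b | (b ∈ E ∧ b ∉ I) ∨ b ∈ pF G E ∨ ∃ f ∈ E, f ∉ I ∧ b ∈ pW G E f} ?_
      intro i hi
      left
      intro b hb
      have hb' : b ∉ X := hb
      constructor
      · intro hib
        by_cases hbE : b ∈ E
        · exact Or.inl ⟨hbE, inI b hb'⟩
        · rcases a2 b hbE with h | h | ⟨f, hf, h⟩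
          · exact Or.inr (Or.inl h)
          · exact absurd hib.symm (h.2 i (hI hi))
          · refine Or.inr (Or.inr ⟨f, hf, fun hfI => ?_, h⟩)
            exact inP b hb' f hfI (Or.inl h)
      · rintro (h | h | ⟨f, hf, hfI, h⟩)
        · exact hE i (hI hi) b h.1 (fun he => h.2 (he ▸ hi))
        · exact (h.2 i (hI hi)).symm
        · exact (pW_adj (hI hi) (fun he : i = f => hfI (he ▸ hi)) h).symm
    have r2 : rk G (⋃ e ∈ I, (pW G E e ∪ pQ G E e)) Xᶜ ≤ 1 := by
      refine rone _ Xᶜ {b | (b ∈ E ∧ b ∉ I) ∨ b ∈ pT G E} ?_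
      intro a ha
      left
      intro b hb
      have hb' : b ∉ X := hb
      obtain ⟨e, he, hae⟩ := Set.mem_iUnion₂.1 ha
      have heE := hI he
      constructor
      · intro hab
        by_cases hbE : b ∈ E
        · exact Or.inl ⟨hbE, inI b hb'⟩
        · right
          rcases a2 b hbE with h | h | ⟨f, hf, h⟩
          · by_contra hT
            rcases hae with hae | hae
            · exact inP b hb' e he (Or.inr ⟨h, hT, a, hae, hab.symm⟩)
            · exact b3 e heE a hae b h hT (fun h6 => inP b hb' e he (Or.inr h6)) hab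
          · exact absurd (PC e heE a hae b h hab) (inC b hb' e he)
          · exfalso
            by_cases hfI : f ∈ I
            · exact inP b hb' f hfI (Or.inl h)
            · exact PPn e heE f hf (fun h6 => hfI (h6 ▸ he)) a hae b (Or.inl h) hab
      · rintro (h | h)
        · rcases hae with hae | hae
          · exact pW_adj h.1 (fun h6 => h.2 (h6 ▸ he)) hae
          · exact hae.1.2 b h.1
        · rcases hae with hae | hae
          · exact (h.2 e heE a hae).symm
          · exact (b2 b h e heE a hae).symm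
    have r3 : rk G (⋃ e ∈ I, Cc G E e) Xᶜ ≤ 1 := by
      refine rone _ Xᶜ (pT G E) ?_
      intro a ha
      left
      intro b hb
      have hb' : b ∉ X := hb
      obtain ⟨e, he, D, hD, haD, p, hp, hpD⟩ := Set.mem_iUnion₂.1 ha
      have heE := hI he
      obtain ⟨c1, c2, c3⟩ := w3 D e p hD heE hp hpD
      have ha0 : a ∈ p0 G E := hD.1 haD
      constructor
      · intro hab
        by_cases hbE : b ∈ E
        · exact absurd hab (ha0.2 b hbE)
        · rcases a2 b hbE with h | h | ⟨f, hf, h⟩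
          · by_contra hT
            refine c2 b h hT (fun h6 => inP b hb' e he (Or.inr h6)) ⟨fun h6 => ?_, a, haD, hab⟩
            exact pF_p0 heE h (hD.1 h6)
          · exfalso
            exact inC b hb' e he ⟨D, hD, comp_cl hD haD h hab, p, hp, hpD⟩
          · exfalso
            by_cases hfI : f ∈ I
            · exact inP b hb' f hfI (Or.inl h)
            · refine c1 f hf (fun h6 => hfI (h6 ▸ he)) b h ⟨fun h6 => ?_, a, haD, hab⟩
              exact pW_p0 f b h (hD.1 h6)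
      · intro h
        exact (c3 a haD b h).symm
    have hsub : X ⊆ (I ∪ ⋃ e ∈ I, (pW G E e ∪ pQ G E e)) ∪ ⋃ e ∈ I, Cc G E e := by
      intro x hx
      rw [hX] at hx
      rcases hx with hx | hx
      · exact Or.inl (Or.inl hx)
      · obtain ⟨e, he, hxe⟩ := Set.mem_iUnion₂.1 hx
        rcases hxe with hxe | hxe
        · exact Or.inl (Or.inr (Set.mem_biUnion he hxe))
        · exact Or.inr (Set.mem_biUnion he hxe)
    have s1 := rmono X _ Xᶜ Xᶜ hsub subset_rfl
    have s2 := runion (I ∪ ⋃ e ∈ I, (pW G E e ∪ pQ G E e)) (⋃ e ∈ I, Cc G E e) Xᶜ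
    have s3 := runion I (⋃ e ∈ I, (pW G E e ∪ pQ G E e)) Xᶜ
    have s4 : cr G X = rk G X Xᶜ := rfl
    omega

end Pool.Agent.MPd439b2.M4
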