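import Pool.Agent.Lib.MP_d439b2_co.M4.Spec

/-!
# MP_d439b2_co, column `C_4`, row `K4:0,12`: petal sets with private neighbours, few traces (`S_Z1`)
-/

set_option autoImplicit false

namespace Pool.Agent.MPd439b2.M4

open Pool.Agent.MPd439b2 Pool.Agent.MPd439b2.LK

namespace z1Aux

variable {V : Type} {G : SimpleGraph V}

/-- four vertices -/
theorem c4 (h0 : LK.S_A0) (hG : Cl G) {a b c d : V} (h1 : G.Adj a b) (h2 : G.Adj b c)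
    (h3 : G.Adj c d) (h4 : G.Adj a d) (h5 : ¬ G.Adj a c) (h6 : ¬ G.Adj b d) (h7 : a ≠ c)
    (h8 : b ≠ d) : False := by
  apply hG.1
  refine h0 V G {a} {b} {c} {d} (Conn.singleton G a) (Conn.singleton G b) (Conn.singleton G c)
    (Conn.singleton G d) ?_ ?_ ?_ ?_ ?_ ?_ ⟨a, rfl, b, rfl, h1⟩ ⟨b, rfl, c, rfl, h2⟩
    ⟨c, rfl, d, rfl, h3⟩ ⟨a, rfl, d, rfl, h4⟩ ?_ ?_
  · rw [Set.disjoint_singleton]; exact h1.ne
  · rw [Set.disjoint_singleton]; exact h7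
  · rw [Set.disjoint_singleton]; exact h4.ne
  · rw [Set.disjoint_singleton]; exact h2.ne
  · rw [Set.disjoint_singleton]; exact h8
  · rw [Set.disjoint_singleton]; exact h3.ne
  · rintro ⟨x, rfl, y, rfl, h⟩
    exact h5 h
  · rintro ⟨x, rfl, y, rfl, h⟩
    exact h6 h

/-- Mo1 for six vertices -/
theorem mo (h1 : S_Mo1) (hG : Cl G) {p b c d x y : V} (pb : G.Adj p b) (pc : G.Adj p c)
    (pd : G.Adj p d) (px : G.Adj p x) (bc : G.Adj b c) (bd : G.Adj b d) (cd : G.Adj c d)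
    (xb : ¬ G.Adj x b) (xc : ¬ G.Adj x c) (xd : ¬ G.Adj x d) (yb : G.Adj y b) (yc : G.Adj y c)
    (yd : ¬ G.Adj y d) (py : ¬ G.Adj p y) (xy : ¬ G.Adj x y) : False := by
  apply hG.2
  refine h1 V G {p} b c d x y (Conn.singleton G p) pb.ne' pc.ne' pd.ne' px.ne' ?_ bc bd cd
    ⟨p, rfl, pb⟩ ⟨p, rfl, pc⟩ ⟨p, rfl, pd⟩ ⟨p, rfl, px⟩ xb xc xd yb yc yd ?_ xy
  · rintro rfl
    exact yd pd
  · rintro q rfl
    exact py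

/-- Part (1). -/
theorem part1 (h0 : LK.S_A0) (h1 : S_Mo1) (hG : Cl G) {E : Set V} (hE : CompleteOn G E)
    (hz : ∀ e ∈ E, (pZ G E e).Nonempty) {v e₁ e₂ e₃ e₄ : V} (hv : v ∉ E) (m1 : e₁ ∈ E) (m2 : e₂ ∈ E)
    (m3 : e₃ ∈ E) (m4 : e₄ ∈ E) (h14 : e₁ ≠ e₄) (h23 : e₂ ≠ e₃) (v1 : ¬ G.Adj v e₁)
    (v4 : ¬ G.Adj v e₄) (v2 : G.Adj v e₂) (v3 : G.Adj v e₃) : False := by
  have n12 : e₁ ≠ e₂ := by rintro rfl; exact v1 v2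
  have n13 : e₁ ≠ e₃ := by rintro rfl; exact v1 v3
  have n42 : e₂ ≠ e₄ := by rintro rfl; exact v4 v2
  have n43 : e₃ ≠ e₄ := by rintro rfl; exact v4 v3
  obtain ⟨z, hzE, hz1⟩ := hz e₁ m1
  have z1 : G.Adj z e₁ := (hz1 e₁ m1).2 rfl
  have z2 : ¬ G.Adj z e₂ := fun h => n12 ((hz1 e₂ m2).1 h).symm
  have z3 : ¬ G.Adj z e₃ := fun h => n13 ((hz1 e₃ m3).1 h).symm
  have z4 : ¬ G.Adj z e₄ := fun h => h14 ((hz1 e₄ m4).1 h).symm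
  by_cases hzv : G.Adj z v
  · exact c4 h0 hG hzv v2 (hE e₂ m2 e₁ m1 n12.symm) z1 z2 v1
      (fun h => hzE (h ▸ m2)) (fun h => hv (h ▸ m1))
  · exact mo h1 hG (hE e₁ m1 e₂ m2 n12) (hE e₁ m1 e₃ m3 n13) (hE e₁ m1 e₄ m4 h14) z1.symm
      (hE e₂ m2 e₃ m3 h23) (hE e₂ m2 e₄ m4 n42) (hE e₃ m3 e₄ m4 n43) z2 z3 z4 v2 v3 v4
      (fun h => v1 h.symm) hzv

/-- The four possibilities. -/
theorem four (h0 : LK.S_A0) (h1 : S_Mo1) (hG : Cl G) {E : Set V} (hE : CompleteOn G E)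
    (hz : ∀ e ∈ E, (pZ G E e).Nonempty) {v : V} (hv : v ∉ E) :
    v ∈ pF G E ∨ v ∈ p0 G E ∨ (∃ e ∈ E, v ∈ pZ G E e) ∨ ∃ e ∈ E, v ∈ pW G E e := by
  by_cases h2 : ∃ e₂ ∈ E, ∃ e₃ ∈ E, e₂ ≠ e₃ ∧ G.Adj v e₂ ∧ G.Adj v e₃
  · obtain ⟨e₂, m2, e₃, m3, h23, v2, v3⟩ := h2
    by_cases h3 : ∃ e₁ ∈ E, ¬ G.Adj v e₁
    · obtain ⟨e₁, m1, v1⟩ := h3
      right; right; right
      refine ⟨e₁, m1, hv, fun f hf => ⟨fun h => ?_, fun h => ?_⟩⟩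
      · rintro rfl
        exact v1 h
      · by_contra hvf
        exact part1 h0 h1 hG hE hz hv m1 m2 m3 hf h.symm h23 v1 hvf v2 v3
    · push Not at h3
      exact Or.inl ⟨hv, h3⟩
  · push Not at h2
    right
    by_cases h3 : ∃ e ∈ E, G.Adj v e
    · obtain ⟨e, me, ve⟩ := h3
      right; left
      refine ⟨e, me, hv, fun f hf => ⟨fun h => ?_, fun h => ?_⟩⟩
      · by_contra hne
        exact h2 f hf e me hne h ve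
      · rw [h]
        exact ve
    · push Not at h3
      exact Or.inl ⟨hv, h3⟩

/-- The first half of part (2). -/
theorem part2a (h0 : LK.S_A0) (h1 : S_Mo1) (hG : Cl G) {E : Set V} (hE : CompleteOn G E)
    {e₁ e₂ e₃ e₄ v₁ v₂ z₂ z₃ : V} (m1 : e₁ ∈ E) (m2 : e₂ ∈ E)
    (m3 : e₃ ∈ E) (m4 : e₄ ∈ E) (n12 : e₁ ≠ e₂) (n13 : e₁ ≠ e₃) (n14 : e₁ ≠ e₄) (n23 : e₂ ≠ e₃)
    (n24 : e₂ ≠ e₄) (n34 : e₃ ≠ e₄) (w1 : v₁ ∈ pW G E e₁) (w2 : v₂ ∈ pW G E e₂)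
    (z2 : z₂ ∈ pZ G E e₂) (z3 : z₃ ∈ pZ G E e₃) : ¬ G.Adj v₁ v₂ ∧ G.Adj v₁ z₃ := by
  have v1 : ¬ G.Adj v₁ e₁ := fun h => (w1.2 e₁ m1).1 h rfl
  have v12 : G.Adj v₁ e₂ := (w1.2 e₂ m2).2 n12.symm
  have v13 : G.Adj v₁ e₃ := (w1.2 e₃ m3).2 n13.symm
  have v14 : G.Adj v₁ e₄ := (w1.2 e₄ m4).2 n14.symm
  have v2 : ¬ G.Adj v₂ e₂ := fun h => (w2.2 e₂ m2).1 h rfl
  have v21 : G.Adj v₂ e₁ := (w2.2 e₁ m1).2 n12
  have v23 : G.Adj v₂ e₃ := (w2.2 e₃ m3).2 n23.symm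
  have v24 : G.Adj v₂ e₄ := (w2.2 e₄ m4).2 n24.symm
  have a2 : G.Adj z₂ e₂ := (z2.2 e₂ m2).2 rfl
  have a23 : ¬ G.Adj z₂ e₃ := fun h => n23 ((z2.2 e₃ m3).1 h).symm
  have a24 : ¬ G.Adj z₂ e₄ := fun h => n24 ((z2.2 e₄ m4).1 h).symm
  have a3 : G.Adj z₃ e₃ := (z3.2 e₃ m3).2 rfl
  have a32 : ¬ G.Adj z₃ e₂ := fun h => n23 ((z3.2 e₂ m2).1 h)
  have a34 : ¬ G.Adj z₃ e₄ := fun h => n34 ((z3.2 e₄ m4).1 h).symm
  have E12 := hE e₁ m1 e₂ m2 n12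
  have E23 := hE e₂ m2 e₃ m3 n23
  have E24 := hE e₂ m2 e₄ m4 n24
  have E34 := hE e₃ m3 e₄ m4 n34
  have c1 : ¬ G.Adj v₁ v₂ := fun h => c4 h0 hG h v21 E12 v12 v1 v2
    (fun h => w1.1 (h ▸ m1)) (fun h => w2.1 (h ▸ m2))
  have c2 : ¬ G.Adj z₂ v₂ := fun h => c4 h0 hG h v23 E23.symm a2 a23 v2
    (fun h => z2.1 (h ▸ m3)) (fun h => w2.1 (h ▸ m2))
  have c3 : ¬ G.Adj z₂ z₃ := fun h => c4 h0 hG h a3 E23.symm a2 a23 a32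
    (fun h => z2.1 (h ▸ m3)) (fun h => z3.1 (h ▸ m2))
  have d1 : G.Adj v₁ z₂ := by
    by_contra h
    exact mo h1 hG E23 E24 v12.symm a2.symm E34 v13.symm v14.symm a23 a24
      (fun h' => h h'.symm) v23 v24 (fun h' => c1 h'.symm) (fun h' => v2 h'.symm) c2
  refine ⟨c1, ?_⟩
  by_contra h
  exact mo h1 hG v13.symm E23.symm E34 a3.symm v12 v14 E24 (fun h' => h h'.symm) a32 a34 d1.symm
    a2 a24 (fun h' => a23 h'.symm) (fun h' => c3 h'.symm)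

/-- Part (2). -/
theorem part2 [Finite V] (h0 : LK.S_A0) (h1 : S_Mo1) (hG : Cl G) {E : Set V}
    (hE : CompleteOn G E) (h5 : 5 ≤ E.ncard) (hz : ∀ e ∈ E, (pZ G E e).Nonempty) {e₁ e₂ v₁ v₂ : V}
    (m1 : e₁ ∈ E) (m2 : e₂ ∈ E) (n12 : e₁ ≠ e₂) (w1 : v₁ ∈ pW G E e₁) (w2 : v₂ ∈ pW G E e₂) :
    False := by
  obtain ⟨e₃, m3, h3⟩ : ∃ e ∈ E, e ∉ ({e₁, e₂} : Set V) := by
    refine Set.exists_mem_notMem_of_ncard_lt_ncard ?_ (Set.toFinite _)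
    have := Set.ncard_insert_le e₁ ({e₂} : Set V)
    rw [Set.ncard_singleton] at this
    omega
  obtain ⟨e₄, m4, h4⟩ : ∃ e ∈ E, e ∉ ({e₁, e₂, e₃} : Set V) := by
    refine Set.exists_mem_notMem_of_ncard_lt_ncard ?_ (Set.toFinite _)
    have := Set.ncard_insert_le e₁ ({e₂, e₃} : Set V)
    have h' := Set.ncard_insert_le e₂ ({e₃} : Set V)
    rw [Set.ncard_singleton] at h'
    omega
  simp only [Set.mem_insert_iff, Set.mem_singleton_iff, not_or] at h3 h4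
  obtain ⟨z₁, z1⟩ := hz e₁ m1
  obtain ⟨z₂, z2⟩ := hz e₂ m2
  obtain ⟨z₃, z3⟩ := hz e₃ m3
  obtain ⟨c1, d1⟩ := part2a h0 h1 hG hE m1 m2 m3 m4 n12 (Ne.symm h3.1) (Ne.symm h4.1)
    (Ne.symm h3.2) (Ne.symm h4.2.1) (Ne.symm h4.2.2) w1 w2 z2 z3
  obtain ⟨-, d2⟩ := part2a h0 h1 hG hE m2 m1 m3 m4 n12.symm (Ne.symm h3.2) (Ne.symm h4.2.1)
    (Ne.symm h3.1) (Ne.symm h4.1) (Ne.symm h4.2.2) w2 w1 z1 z3
  exact c4 h0 hG d1 d2.symm ((w2.2 e₄ m4).2 h4.2.1) ((w1.2 e₄ m4).2 h4.1) c1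
    (fun h => h4.2.2 ((z3.2 e₄ m4).1 h))
    (fun h => (w2.2 e₂ m2).1 (h ▸ (w1.2 e₂ m2).2 n12.symm) rfl)
    (fun h => z3.1 (h ▸ m4))

end z1Aux

open z1Aux in
theorem z1 (h0 : LK.S_A0) (h1 : S_Mo1) : S_Z1 := by
  intro V _ G E hG hE h5 hz
  by_cases hW : ∃ e₀ ∈ E, (pW G E e₀).Nonempty
  · obtain ⟨e₀, m0, w₀, hw₀⟩ := hW
    refine ⟨E \ {e₀}, Set.sdiff_subset, ?_, fun v hv => ?_⟩
    · rw [Set.sdiff_sdiff_cancel_left (Set.singleton_subset_iff.mpr m0), Set.ncard_singleton]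
    by_cases hve : v = e₀
    · subst hve
      exact Or.inl ⟨hv, fun f hf => hE v m0 f hf.1 (Ne.symm hf.2)⟩
    have hvE : v ∉ E := fun h => hv ⟨h, hve⟩
    rcases four h0 h1 hG hE hz hvE with h | h | ⟨e, me, h⟩ | ⟨e, me, h⟩
    · exact Or.inl ⟨hv, fun f hf => h.2 f hf.1⟩
    · exact Or.inr (Or.inl ⟨hv, fun f hf => h.2 f hf.1⟩)
    · right
      by_cases he : e = e₀
      · left
        refine ⟨hv, fun f hf hvf => hf.2 ?_⟩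
        rw [← he]
        exact (h.2 f hf.1).1 hvf
      · right
        exact ⟨e, ⟨me, he⟩, hv, fun f hf => h.2 f hf.1⟩
    · left
      have he : e = e₀ := by
        by_contra hne
        exact part2 h0 h1 hG hE h5 hz me m0 hne h hw₀
      subst he
      exact ⟨hv, fun f hf => (h.2 f hf.1).2 hf.2⟩
  · push Not at hW
    refine ⟨E, subset_rfl, by simp, fun v hv => ?_⟩
    rcases four h0 h1 hG hE hz hv with h | h | h | ⟨e, me, h⟩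
    · exact Or.inl h
    · exact Or.inr (Or.inl h)
    · exact Or.inr (Or.inr h)
    · exfalso
      have := hW e me
      rw [this] at h
      exact h

end Pool.Agent.MPd439b2.M4
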