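import Pool.Agent.Lib.MP_d439b2_co.M4.Spec

/-!
# MP_d439b2_co, row `K4:0,12`: private neighbours, their neighbours in `pF`
-/

set_option autoImplicit false

namespace Pool.Agent.MPd439b2.M4

open Pool.Agent.MPd439b2 Pool.Agent.MPd439b2.LK

namespace Z2Aux

variable {V : Type} {G : SimpleGraph V}

/-- four vertices which form a `C_4` -/
theorem c4 (h0 : LK.S_A0) {a b c d : V} (hab : G.Adj a b) (hbc : G.Adj b c) (hcd : G.Adj c d)
    (had : G.Adj a d) (hac : ¬ G.Adj a c) (hbd : ¬ G.Adj b d) (nac : a ≠ c) (nbd : b ≠ d) :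
    IMS cyc4 G Set.univ := by
  refine h0 V G {a} {b} {c} {d} (Conn.singleton G a) (Conn.singleton G b) (Conn.singleton G c)
    (Conn.singleton G d) (Set.disjoint_singleton.2 hab.ne) (Set.disjoint_singleton.2 nac)
    (Set.disjoint_singleton.2 had.ne) (Set.disjoint_singleton.2 hbc.ne)
    (Set.disjoint_singleton.2 nbd) (Set.disjoint_singleton.2 hcd.ne) ⟨a, rfl, b, rfl, hab⟩
    ⟨b, rfl, c, rfl, hbc⟩ ⟨c, rfl, d, rfl, hcd⟩ ⟨a, rfl, d, rfl, had⟩ ?_ ?_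
  · rintro ⟨x, rfl, y, rfl, h⟩
    exact hac h
  · rintro ⟨x, rfl, y, rfl, h⟩
    exact hbd h

theorem first (h0 : LK.S_A0) {E : Set V} (hCl : Cl G) (hE : CompleteOn G E) {e f z z' : V}
    (he : e ∈ E) (hf : f ∈ E) (hef : e ≠ f) (hz : z ∈ pZ G E e) (hz' : z' ∈ pZ G E f) :
    ¬ G.Adj z z' := by
  intro h
  refine hCl.1 (c4 h0 h ((hz'.2 f hf).2 rfl) (hE f hf e he hef.symm) ((hz.2 e he).2 rfl) ?_ ?_ ?_ ?_)
  · intro h'
    exact hef ((hz.2 f hf).1 h').symm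
  · intro h'
    exact hef ((hz'.2 e he).1 h')
  · rintro rfl
    exact hz.1 hf
  · rintro rfl
    exact hz'.1 he

theorem second (h0 : LK.S_A0) (h1 : S_Mo1) {E : Set V} (hCl : Cl G) (hE : CompleteOn G E)
    (h3 : ∀ e f : V, ∃ g ∈ E, g ≠ e ∧ g ≠ f) {e f z z' w : V}
    (he : e ∈ E) (hf : f ∈ E) (hef : e ≠ f) (hz : z ∈ pZ G E e) (hz' : z' ∈ pZ G E f)
    (hw : w ∈ pF G E) (hwz : G.Adj w z) : G.Adj w z' := by
  by_contra hwz'
  obtain ⟨g, hg, hge, hgf⟩ := h3 e f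
  have hsing : ∀ {v : V}, f ≠ v → v ∉ ({f} : Set V) := fun h h' => h h'.symm
  have hE' : ∀ v, v ∉ E → f ≠ v := by
    rintro v hv rfl
    exact hv hf
  refine hCl.2 (h1 V G {f} w e g z' z (Conn.singleton G f) (hsing (hE' w hw.1)) (hsing hef.symm)
    (hsing hgf.symm) (hsing (hE' z' hz'.1)) (hsing (hE' z hz.1)) (hw.2 e he) (hw.2 g hg)
    (hE e he g hg hge.symm) ⟨f, rfl, (hw.2 f hf).symm⟩ ⟨f, rfl, hE f hf e he hef.symm⟩
    ⟨f, rfl, hE f hf g hg hgf.symm⟩ ⟨f, rfl, ((hz'.2 f hf).2 rfl).symm⟩ (fun h => hwz' h.symm) ?_ ?_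
    hwz.symm ((hz.2 e he).2 rfl) ?_ ?_ ?_)
  · intro h
    exact hef ((hz'.2 e he).1 h)
  · intro h
    exact hgf ((hz'.2 g hg).1 h)
  · intro h
    exact hge ((hz.2 g hg).1 h)
  · rintro p rfl h
    exact hef ((hz.2 p hf).1 h.symm).symm
  · intro h
    exact first h0 hCl hE he hf hef hz hz' h.symm

end Z2Aux

open Z2Aux in
theorem z2 (h0 : LK.S_A0) (h1 : S_Mo1) : S_Z2 := by
  intro V _ G E hCl hE h3 hne
  have h3' : ∀ e f : V, ∃ g ∈ E, g ≠ e ∧ g ≠ f := by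
    intro e f
    by_contra hcon
    push Not at hcon
    have hsub : E ⊆ {e, f} := by
      intro g hg
      by_cases hge : g = e
      · exact Or.inl hge
      · exact Or.inr (hcon g hg hge)
    have h4 := Set.ncard_le_ncard hsub (Set.toFinite _)
    have h5 : ({e, f} : Set V).ncard ≤ 2 := by
      refine (Set.ncard_insert_le e {f}).trans ?_
      rw [Set.ncard_singleton]
    omega
  have key : ∀ w ∈ pF G E, ∀ e ∈ E, ∀ z ∈ pZ G E e, ∀ f ∈ E, ∀ z' ∈ pZ G E f, G.Adj w z →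
      G.Adj w z' := by
    intro w hw e he z hz f hf z' hz' hwz
    by_cases hef : e = f
    · subst hef
      obtain ⟨f', hf', hf'e, _⟩ := h3' e e
      obtain ⟨z'', hz''⟩ := hne f' hf'
      have h4 := second h0 h1 hCl hE h3' he hf' hf'e.symm hz hz'' hw hwz
      exact second h0 h1 hCl hE h3' hf' he hf'e hz'' hz' hw h4
    · exact second h0 h1 hCl hE h3' he hf hef hz hz' hw hwz
  refine ⟨fun e he f hf hef z hz z' hz' => first h0 hCl hE he hf hef hz hz', ?_⟩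
  intro w hw e he z hz f hf z' hz'
  exact ⟨key w hw e he z hz f hf z' hz', key w hw f hf z' hz' e he z hz⟩

end Pool.Agent.MPd439b2.M4
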