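import Pool.Agent.Lib.MP_d439b2_co.M4.Spec

/-!
# MP_d439b2_co, column `C_4`, row `K4:0,12`, Z3: the components of `G[p0]` (private neighbours)
-/

set_option autoImplicit false

namespace Pool.Agent.MPd439b2.M4

open Pool.Agent.MPd439b2 Pool.Agent.MPd439b2.LK

namespace Z3Aux

variable {V : Type} {G : SimpleGraph V}

/-- the component of `C \ {x}` containing `q` touches `x` -/
theorem comp_touch {C : Set V} {x q : V} (hC : Conn G C) (hx : x ∈ C) (hq : q ∈ C)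
    (hne : q ≠ x) : ∃ K ⊆ C \ {x}, q ∈ K ∧ Conn G K ∧ ∃ y ∈ K, G.Adj x y := by
  obtain ⟨K, hKs, hqK, hK, hKn⟩ := exists_comp G (A := C \ {x}) (v := q) ⟨hq, hne⟩
  refine ⟨K, hKs, hqK, hK, ?_⟩
  obtain ⟨b, hb, a, ha, hab⟩ := hC.2 K (fun y hy => (hKs hy).1) ⟨q, hqK⟩ (fun h => by
    have h5 : x ∈ K := h ▸ hx
    exact (hKs h5).2 rfl)
  have hax : a = x := by
    by_contra hne'
    exact hKn a ⟨ha.1, hne'⟩ ⟨ha.2, b, hb, hab⟩
  subst hax
  exact ⟨b, hb, hab.symm⟩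

/-- no four-cycle with two connected sets and two vertices -/
theorem c4 (h0 : LK.S_A0) (hG : Cl G) {D F : Set V} {p q : V} (cD : Conn G D) (cF : Conn G F)
    (hpD : p ∉ D) (hqD : q ∉ D) (hpF : p ∉ F) (hqF : q ∉ F) (hDF : Disjoint D F) (hpq : p ≠ q)
    (tDp : ∃ d ∈ D, G.Adj d p) (tDq : ∃ d ∈ D, G.Adj d q) (tFp : ∃ f ∈ F, G.Adj f p)
    (tFq : ∃ f ∈ F, G.Adj f q) (tDF : ∀ d ∈ D, ∀ f ∈ F, ¬ G.Adj d f) (hn : ¬ G.Adj p q) :
    False := by
  obtain ⟨d, hd, hdp⟩ := tDp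
  obtain ⟨d', hd', hdq⟩ := tDq
  obtain ⟨f, hf, hfp⟩ := tFp
  obtain ⟨f', hf', hfq⟩ := tFq
  refine hG.1 (h0 V G D {p} F {q} cD (Conn.singleton G p) cF (Conn.singleton G q)
    (Set.disjoint_singleton_right.2 hpD) hDF (Set.disjoint_singleton_right.2 hqD)
    (Set.disjoint_singleton_left.2 hpF) (Set.disjoint_singleton.2 hpq)
    (Set.disjoint_singleton_right.2 hqF) ⟨d, hd, p, rfl, hdp⟩ ⟨p, rfl, f, hf, hfp.symm⟩
    ⟨f', hf', q, rfl, hfq⟩ ⟨d', hd', q, rfl, hdq⟩ ?_ ?_)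
  · rintro ⟨a, ha, b, hb, hab⟩
    exact tDF a ha b hb hab
  · rintro ⟨a, ha, b, hb, hab⟩
    rw [Set.mem_singleton_iff] at ha hb
    subst ha hb
    exact hn hab

end Z3Aux

open Z3Aux in
theorem z3 (h0 : LK.S_A0) (h1 : S_Mo1) (h2 : S_Z2) : S_Z3 := by
  intro V _ G E D e z hG hE hn hne hD he hz hzD
  obtain ⟨hDs, cD, hDn⟩ := hD
  obtain ⟨hZ1, hZ2⟩ := h2 V G E hG hE hn hne
  obtain ⟨hzD1, d, hd, hdz⟩ := hzD
  have hDE : ∀ x ∈ E, x ∉ D := fun x hx h => (hDs h).1 hx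
  have hD0 : ∀ u ∈ D, ∀ x ∈ E, ¬ G.Adj u x := fun u hu x hx => (hDs hu).2 x hx
  have fst : ∀ f ∈ E, f ≠ e → ∀ z' ∈ pZ G E f, z' ∉ nb G D := by
    rintro f hf hfe z' hz' ⟨hz'D, d', hd', hdz'⟩
    have hzz : ¬ G.Adj z z' := hZ1 e he f hf (Ne.symm hfe) z hz z' hz'
    refine c4 h0 hG (D := D) (F := {e, f}) (p := z) (q := z') cD
      (Conn.pair (hE e he f hf (Ne.symm hfe))) hzD1 hz'D ?_ ?_ ?_ ?_ ⟨d, hd, hdz⟩ ⟨d', hd', hdz'⟩
      ⟨e, Or.inl rfl, ((hz.2 e he).2 rfl).symm⟩ ⟨f, Or.inr rfl, ((hz'.2 f hf).2 rfl).symm⟩ ?_ hzz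
    · rintro (rfl | rfl)
      · exact hz.1 he
      · exact hz.1 hf
    · rintro (rfl | rfl)
      · exact hz'.1 he
      · exact hz'.1 hf
    · rw [Set.disjoint_right]
      rintro x (rfl | rfl)
      · exact hDE _ he
      · exact hDE _ hf
    · rintro rfl
      exact hfe ((hz.2 f hf).1 ((hz'.2 f hf).2 rfl))
    · rintro u hu x (rfl | rfl)
      · exact hD0 u hu _ he
      · exact hD0 u hu _ hf
  refine ⟨fst, ?_⟩
  have hcard : 1 < (E \ {e}).ncard := by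
    have h4 := Set.le_ncard_sdiff ({e} : Set V) E (Set.toFinite _)
    rw [Set.ncard_singleton] at h4
    omega
  obtain ⟨t, ⟨htE, hte⟩, r, ⟨hrE, hre⟩, htr⟩ := (Set.one_lt_ncard (Set.toFinite _)).1 hcard
  rw [Set.mem_singleton_iff] at hte hre
  intro u hu w hw
  have hwz : w ≠ z := by
    rintro rfl
    exact hte ((hz.2 t htE).1 (hw.2 t htE))
  have hwD : w ∉ D := fun h => hD0 w h e he (hw.2 e he)
  constructor
  · intro hwu
    by_contra hwz'
    refine c4 h0 hG (D := D) (F := {e}) (p := z) (q := w) cD (Conn.singleton G e) hzD1 hwD ?_ ?_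
      (Set.disjoint_singleton_right.2 (hDE e he)) (Ne.symm hwz) ⟨d, hd, hdz⟩ ⟨u, hu, hwu.symm⟩
      ⟨e, rfl, ((hz.2 e he).2 rfl).symm⟩ ⟨e, rfl, (hw.2 e he).symm⟩ ?_ (fun h => hwz' h.symm)
    · rintro rfl
      exact hz.1 he
    · rintro rfl
      exact hw.1 he
    · rintro a ha x rfl
      exact hD0 a ha _ he
  · intro hwz'
    by_contra hwu
    obtain ⟨zt, hzt⟩ := hne t htE
    have hwzt : G.Adj w zt := (hZ2 w hw e he z hz t htE zt hzt).1 hwz'
    have hztD : zt ∉ D := fun h => hD0 zt h t htE ((hzt.2 t htE).2 rfl)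
    have hztnb : ∀ x ∈ D, ¬ G.Adj x zt := fun x hx h => fst t htE hte zt hzt ⟨hztD, x, hx, h⟩
    have hP : ∃ P : Set V, Conn G P ∧ e ∈ P ∧ P ⊆ {e, z} ∪ (D \ {u}) ∧ ∃ p ∈ P, G.Adj p u := by
      by_cases huz : G.Adj z u
      · exact ⟨{e, z}, Conn.pair ((hz.2 e he).2 rfl).symm, Or.inl rfl, Set.subset_union_left,
          z, Or.inr rfl, huz⟩
      · have hdu : d ≠ u := by
          rintro rfl
          exact huz hdz.symm
        obtain ⟨K, hKs, hdK, cK, y, hyK, huy⟩ := comp_touch cD hu hd hdu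
        refine ⟨{e, z} ∪ K, (Conn.pair ((hz.2 e he).2 rfl).symm).union cK
          (Or.inr ⟨z, Or.inr rfl, d, hdK, hdz.symm⟩), Or.inl (Or.inl rfl),
          Set.union_subset_union_right _ hKs, y, Or.inr hyK, huy.symm⟩
    obtain ⟨P, cP, heP, hPs, p, hpP, hpu⟩ := hP
    have hEP : ∀ x ∈ E, x ≠ e → x ∉ P := by
      intro x hx hxe hxP
      rcases hPs hxP with (h | h) | h
      · exact hxe h
      · rw [Set.mem_singleton_iff] at h
        subst h
        exact hz.1 hx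
      · exact hDE x hx h.1
    have hwP : w ∉ P := by
      intro hwP
      rcases hPs hwP with (h | h) | h
      · subst h
        exact hw.1 he
      · exact hwz h
      · exact hwD h.1
    have huP : u ∉ P := by
      intro huP
      rcases hPs huP with (h | h) | h
      · subst h
        exact hDE u he hu
      · rw [Set.mem_singleton_iff] at h
        subst h
        exact hzD1 hu
      · exact h.2 rfl
    have hztz : zt ≠ z := by
      rintro rfl
      exact hte ((hz.2 t htE).1 ((hzt.2 t htE).2 rfl))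
    have hztP : zt ∉ P := by
      intro hP
      rcases hPs hP with (h | h) | h
      · subst h
        exact hzt.1 he
      · exact hztz h
      · exact hztD h.1
    have hPzt : ∀ p ∈ P, ¬ G.Adj p zt := by
      intro p hp h'
      rcases hPs hp with (h | h) | h
      · subst h
        exact hte ((hzt.2 p he).1 h'.symm).symm
      · rw [Set.mem_singleton_iff] at h
        subst h
        exact hZ1 e he t htE (Ne.symm hte) p hz zt hzt h'
      · exact hztnb p h.1 h'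
    exact hG.2 (h1 V G P t w r u zt cP (hEP t htE hte) hwP (hEP r hrE hre) huP hztP
      (hw.2 t htE).symm (hE t htE r hrE htr) (hw.2 r hrE) ⟨e, heP, hE e he t htE (Ne.symm hte)⟩
      ⟨e, heP, (hw.2 e he).symm⟩ ⟨e, heP, hE e he r hrE (Ne.symm hre)⟩ ⟨p, hpP, hpu⟩
      (hD0 u hu t htE) (fun h => hwu h.symm) (hD0 u hu r hrE) ((hzt.2 t htE).2 rfl) hwzt.symm
      (fun h => htr ((hzt.2 r hrE).1 h).symm) hPzt (hztnb u hu))

end Pool.Agent.MPd439b2.M4
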