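import Pool.Agent.Lib.MP_d439b2_co.M4.Spec

/-!
# MP_d439b2_co, row `K4:0,12`: private neighbours, the blocks
-/

set_option autoImplicit false

namespace Pool.Agent.MPd439b2.M4

open Pool.Agent.MPd439b2 Pool.Agent.MPd439b2.LK

namespace Z4Aux

variable {V : Type} {G : SimpleGraph V} {E : Set V}

/-- the block of `e` -/
def Y (G : SimpleGraph V) (E : Set V) (e : V) : Set V :=
  pZ G E e ∪ {u | ∃ D, IsComp G (p0 G E) D ∧ u ∈ D ∧ ∃ z ∈ pZ G E e, z ∈ nb G D}

theorem comp_adj {X D : Set V} (hD : IsComp G X D) {u v : V} (hu : u ∈ D) (hv : v ∈ X)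
    (h : G.Adj u v) : v ∈ D := by
  by_contra hvD
  exact hD.2.2 v hv ⟨hvD, u, hu, h⟩

theorem comp_eq {X D D' : Set V} (hD : IsComp G X D) (hD' : IsComp G X D') {u : V} (hu : u ∈ D)
    (hu' : u ∈ D') : D = D' := by
  have key : ∀ {D D' : Set V}, IsComp G X D → IsComp G X D' → u ∈ D → u ∈ D' → D ⊆ D' := by
    intro D D' h h' hu hu'
    have h1 := h.2.1.eq_of_nb (C := D ∩ D') Set.inter_subset_left ⟨u, hu, hu'⟩ (by
      intro w hw hwn
      obtain ⟨hw1, c, hc, hcw⟩ := hwn
      exact hw1 ⟨hw, comp_adj h' hc.2 (h.1 hw) hcw⟩)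
    rw [← h1]
    exact Set.inter_subset_right
  exact Set.Subset.antisymm (key hD hD' hu hu') (key hD' hD hu' hu)

theorem pZ_pZ {e f v : V} (he : e ∈ E) (hef : e ≠ f) (h : v ∈ pZ G E e) (h' : v ∈ pZ G E f) :
    False :=
  hef ((h'.2 e he).1 ((h.2 e he).2 rfl))

theorem p0_pZ {e v : V} (he : e ∈ E) (h : v ∈ p0 G E) (h' : v ∈ pZ G E e) : False :=
  h.2 e he ((h'.2 e he).2 rfl)

theorem p0_pF {e v : V} (he : e ∈ E) (h : v ∈ p0 G E) (h' : v ∈ pF G E) : False :=
  h.2 e he (h'.2 e he)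

theorem pZ_pF {e f v : V} (he : e ∈ E) (hef : e ≠ f) (h : v ∈ pZ G E f) (h' : v ∈ pF G E) :
    False :=
  hef ((h.2 e he).1 (h'.2 e he))

end Z4Aux

open Z4Aux in
theorem z4 (h1 : LK.S_A1) (h2 : S_Z2) (h3 : S_Z3) : S_Z4 := by
  intro V _ G E hCl hE hcard hne hcov
  obtain ⟨hz1, hz2⟩ := h2 V G E hCl hE hcard hne
  obtain ⟨_, _, hun, _, hone, _⟩ := h1 V G
  have hz3 : ∀ D e z, IsComp G (p0 G E) D → e ∈ E → z ∈ pZ G E e → z ∈ nb G D →
      (∀ f ∈ E, f ≠ e → ∀ z' ∈ pZ G E f, z' ∉ nb G D) ∧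
        ∀ u ∈ D, ∀ w ∈ pF G E, (G.Adj w u ↔ G.Adj w z) :=
    fun D e z hD he hz hzD => h3 V G E D e z hCl hE hcard hne hD he hz hzD
  -- the elements of `pZ` adjacent to a component
  have hmix : ∀ e ∈ E, ∀ f ∈ E, e ≠ f → ∀ a ∈ pZ G E e, ∀ D, IsComp G (p0 G E) D →
      ∀ b ∈ D, (∃ z ∈ pZ G E f, z ∈ nb G D) → ¬ G.Adj a b := by
    rintro e he f hf hef a ha D hD b hb ⟨z, hz, hzD⟩ hab
    have hanb : a ∈ nb G D := ⟨fun haD => p0_pZ he (hD.1 haD) ha, b, hb, hab.symm⟩
    exact (hz3 D f z hD hf hz hzD).1 e he hef a ha hanb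
  refine ⟨Y G E, ?_, ?_⟩
  · intro e he f hf hef
    constructor
    · rw [Set.disjoint_left]
      rintro v (hv | ⟨D, hD, hvD, z, hz, hzD⟩) (hv' | ⟨D', hD', hvD', z', hz', hzD'⟩)
      · exact pZ_pZ he hef hv hv'
      · exact p0_pZ he (hD'.1 hvD') hv
      · exact p0_pZ hf (hD.1 hvD) hv'
      · have hDD := comp_eq hD hD' hvD hvD'
        subst hDD
        exact (hz3 D e z hD he hz hzD).1 f hf hef.symm z' hz' hzD'
    · rintro ⟨a, ha, b, hb, hab⟩
      rcases ha with ha | ⟨D, hD, haD, z, hz, hzD⟩ <;>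
        rcases hb with hb | ⟨D', hD', hbD', z', hz', hzD'⟩
      · exact hz1 e he f hf hef a ha b hb hab
      · exact hmix e he f hf hef a ha D' hD' b hbD' ⟨z', hz', hzD'⟩ hab
      · exact hmix f hf e he hef.symm b hb D hD a haD ⟨z, hz, hzD⟩ hab.symm
      · have hbD := comp_adj hD haD (hD'.1 hbD') hab
        have hDD := comp_eq hD hD' hbD hbD'
        subst hDD
        exact (hz3 D e z hD he hz hzD).1 f hf hef.symm z' hz' hzD'
  · intro I hI
    let X : Set V := I ∪ ⋃ e ∈ I, Y G E e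
    have hIX : ∀ a ∈ I, a ∈ X := fun a ha => Or.inl ha
    have hYX : ∀ e ∈ I, ∀ a ∈ Y G E e, a ∈ X := fun e he a ha =>
      Or.inr (Set.mem_iUnion₂.2 ⟨e, he, ha⟩)
    have hr1 : rk G I Xᶜ ≤ 1 := by
      refine hone I Xᶜ ((E \ I) ∪ pF G E) fun a ha => Or.inl fun b hb => ?_
      have haE := hI ha
      by_cases hbE : b ∈ E
      · have hbI : b ∉ I := fun h => hb (hIX b h)
        refine iff_of_true (hE a haE b hbE ?_) (Or.inl ⟨hbE, hbI⟩)
        rintro rfl
        exact hbI ha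
      · rcases hcov b hbE with hb' | hb' | ⟨f, hf, hb'⟩
        · exact iff_of_true (hb'.2 a haE).symm (Or.inr hb')
        · refine iff_of_false (fun h => hb'.2 a haE h.symm) ?_
          rintro (h | h)
          · exact hbE h.1
          · exact p0_pF haE hb' h
        · have hfI : f ∉ I := fun h => hb (hYX f h b (Or.inl hb'))
          have haf : a ≠ f := by
            rintro rfl
            exact hfI ha
          refine iff_of_false (fun h => haf ((hb'.2 a haE).1 h.symm)) ?_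
          rintro (h | h)
          · exact hbE h.1
          · exact pZ_pF haE haf hb' h
    have hr2 : rk G (⋃ e ∈ I, Y G E e) Xᶜ ≤ 1 := by
      refine hone _ Xᶜ {w | w ∈ pF G E ∧ ∃ e ∈ E, ∃ z ∈ pZ G E e, G.Adj w z} fun a ha =>
        Or.inl fun b hb => ?_
      obtain ⟨e, heI, ha⟩ := Set.mem_iUnion₂.1 ha
      have he := hI heI
      rcases ha with ha | ⟨D, hD, haD, z, hz, hzD⟩
      · by_cases hbE : b ∈ E
        · refine iff_of_false ?_ fun h => h.1.1 hbE
          intro h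
          have h4 := (ha.2 b hbE).1 h
          subst h4
          exact hb (hIX b heI)
        · rcases hcov b hbE with hb' | hb' | ⟨f, hf, hb'⟩
          · constructor
            · intro h
              exact ⟨hb', e, he, a, ha, h.symm⟩
            · rintro ⟨_, f, hf, z, hz, hbz⟩
              exact ((hz2 b hb' f hf z hz e he a ha).1 hbz).symm
          · refine iff_of_false ?_ fun h => p0_pF he hb' h.1
            intro h
            obtain ⟨D, hD1, hbD, hD2, hD3⟩ := exists_comp G hb'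
            refine hb (hYX e heI b (Or.inr ⟨D, ⟨hD1, hD2, hD3⟩, hbD, a, ha, ?_, b, hbD, h.symm⟩))
            intro haD
            exact p0_pZ he (hD1 haD) ha
          · have hfe : e ≠ f := by
              rintro rfl
              exact hb (hYX e heI b (Or.inl hb'))
            exact iff_of_false (hz1 e he f hf hfe a ha b hb') fun h => pZ_pF he hfe hb' h.1
      · have haY : a ∈ p0 G E := hD.1 haD
        by_cases hbE : b ∈ E
        · exact iff_of_false (haY.2 b hbE) fun h => h.1.1 hbE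
        · rcases hcov b hbE with hb' | hb' | ⟨f, hf, hb'⟩
          · have h4 := (hz3 D e z hD he hz hzD).2 a haD b hb'
            constructor
            · intro h
              exact ⟨hb', e, he, z, hz, h4.1 h.symm⟩
            · rintro ⟨_, f, hf, z', hz', hbz⟩
              exact (h4.2 ((hz2 b hb' f hf z' hz' e he z hz).1 hbz)).symm
          · refine iff_of_false ?_ fun h => p0_pF he hb' h.1
            intro h
            exact hb (hYX e heI b (Or.inr ⟨D, hD, comp_adj hD haD hb' h, z, hz, hzD⟩))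
          · have hfe : e ≠ f := by
              rintro rfl
              exact hb (hYX e heI b (Or.inl hb'))
            refine iff_of_false ?_ fun h => pZ_pF he hfe hb' h.1
            intro h
            exact hmix f hf e he hfe.symm b hb' D hD a haD ⟨z, hz, hzD⟩ h.symm
    have h5 := hun I (⋃ e ∈ I, Y G E e) Xᶜ
    show rk G X Xᶜ ≤ 3
    have h6 : rk G X Xᶜ = rk G (I ∪ ⋃ e ∈ I, Y G E e) Xᶜ := rfl
    omega

end Pool.Agent.MPd439b2.M4
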