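import Pool.Agent.Lib.MP_d439b2_co.L4.Final
import Pool.Agent.Lib.MP_d439b2_co.M4.Mo1
import Pool.Agent.Lib.MP_d439b2_co.M4.Mo2
import Pool.Agent.Lib.MP_d439b2_co.M4.Tr2
import Pool.Agent.Lib.MP_d439b2_co.M4.Tr3
import Pool.Agent.Lib.MP_d439b2_co.M4.Jmp
import Pool.Agent.Lib.MP_d439b2_co.M4.Z1
import Pool.Agent.Lib.MP_d439b2_co.M4.Z2
import Pool.Agent.Lib.MP_d439b2_co.M4.Z3
import Pool.Agent.Lib.MP_d439b2_co.M4.Z4
import Pool.Agent.Lib.MP_d439b2_co.M4.W1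
import Pool.Agent.Lib.MP_d439b2_co.M4.W2
import Pool.Agent.Lib.MP_d439b2_co.M4.W3
import Pool.Agent.Lib.MP_d439b2_co.M4.W4
import Pool.Agent.Lib.MP_d439b2_co.M4.Rm
import Pool.Agent.Lib.MP_d439b2_co.M4.Cut
import Pool.Agent.Lib.MP_d439b2_co.M4.Gt
import Pool.Agent.Lib.MP_d439b2_co.M4.Ho
import Pool.Agent.Lib.MP_d439b2_co.M4.Rg
import Pool.Agent.Lib.MP_d439b2_co.M4.Th
import Pool.Agent.Lib.MP_d439b2_co.M4.Hu
import Pool.Agent.Lib.MP_d439b2_co.M4.Ti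
import Pool.Agent.Lib.MP_d439b2_co.M4.Mod
import Pool.Agent.Lib.MP_d439b2_co.M4.Pt
import Pool.Agent.Lib.MP_d439b2_co.M4.Big
import Pool.Agent.Lib.MP_d439b2_co.M4.Fin

/-!
# MP_d439b2_co, column `C_4`, row `K4:0,12`: assembly

`finF`: chordal graphs without the induced minor `K4:0,12` have layouts of bounded width, so the pair
`(C_4, K4:0,12)` has bounded clique-width.
-/

set_option autoImplicit false

namespace Pool.Agent.MPd439b2.M4

open Pool.Agent.MPd439b2 Pool.Agent.MPd439b2.LK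

theorem tr2F : S_Tr2 := tr2 a0 mo1
theorem tr3F : S_Tr3 := tr3 mo1 tr2F
theorem jmpF : S_Jmp := jmp mo1 mo2
theorem z1F : S_Z1 := z1 a0 mo1
theorem z2F : S_Z2 := z2 a0 mo1
theorem z3F : S_Z3 := z3 a0 mo1 z2F
theorem z4F : S_Z4 := z4 a1 z2F z3F
theorem w1F : S_W1 := w1 a0 mo1
theorem w2F : S_W2 := w2 a0 mo1 w1F
theorem w3F : S_W3 := w3 a0 mo1 w1F w2F
theorem w4F : S_W4 := w4 a1 w1F w2F w3F
theorem rmF : S_Rm := rm a1 z1F z4F w4F
theorem cutF : S_Cut := cut a1 a2F rmF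
theorem gtF : S_Gt := gt a7F tr2F
theorem hoF : S_Ho := ho jmpF
theorem rgF : S_Rg := rg tr2F rmF cutF hoF
theorem thF : S_Th := th tr2F jmpF cutF gtF
theorem huF : S_Hu := hu tr2F rmF
theorem tiF : S_Ti := ti tr2F tr3F rmF
theorem modF : S_Mod := md a1
theorem ptF : S_Pt := pt gtF rgF thF huF tiF modF
theorem bigF : S_Big := big rgF modF ptF

/-- chordal graphs without `K4:0,12` have layouts of bounded width; the pair `(C_4, K4:0,12)` has bounded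
clique-width -/
theorem finF : S_Fin := fin cliquesSuffice bigF layCW

end Pool.Agent.MPd439b2.M4
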