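import Pool.Agent.Lib.MP_d439b2_co.L4.Spec3

/-!
# MP_d439b2_co, column `C_4` (chordal graphs), row `K4:0,12`

`Cl G`: `G` is chordal and does not contain `K4:0,12` (`K_4` on `0, 1, 2, 3`, a vertex adjacent to `0` and a
vertex adjacent to `1, 2`) as an induced minor.  `Ms G S v` is the set of the non-neighbours of `v` in the clique
`S` (its trace).  `LK.Unb G S m`: no cut of rank at most 16 has more than `m` vertices of `S` on both sides.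
S_Big: this is impossible for large cliques `S` of a graph in the class `Cl`, and by `LK.S_A12` (cliques
suffice) the graphs of the class have layouts of bounded width (S_Fin).

Every `S_...` is a statement to be proved in its own file; the docstring contains the complete
proof.  `a ~ b` means `G.Adj a b`.  The statements `LK.S_A...` are those of `L4/Spec1.lean` (all proved there).
`C4` means: four connected pairwise disjoint sets `T0, T1, T2, T3`, consecutive ones touch, `T0, T2` and `T1, T3`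
do not touch (impossible in a chordal graph, `LK.S_A0`).
-/

set_option autoImplicit false

namespace Pool.Agent.MPd439b2.M4

open Pool.Agent.MPd439b2 Pool.Agent.MPd439b2.LK

/-- chordal graphs without `K4:0,12` -/
def Cl {V : Type} (G : SimpleGraph V) : Prop :=
  Chd G ∧ ¬ IMS (KA 4 2 ![{0}, {1, 2}]) G Set.univ

/-- **Mo1.** A model of `K4:0,12`: the four mutually touching sets are `P, {b}, {c}, {d}`; `x` touches only `P`,
`y` touches only `{b}` and `{c}`.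

Proof. `Sum.inl 0, 1, 2, 3 ↦ P, {b}, {c}, {d}`, `Sum.inr 0, 1 ↦ {x}, {y}`.  All six sets are disjoint: `x ≠ b`
(`b ~ c`, `x` is not adjacent to `c`), `x ≠ c`, `x ≠ d` (`b`), `y ∉ {b, c, d}` and `y ≠ x` since `P` touches `b, c, d, x`
but not `y`. -/
def S_Mo1 : Prop := ∀ (V : Type) (G : SimpleGraph V) (P : Set V) (b c d x y : V), Conn G P →
  b ∉ P → c ∉ P → d ∉ P → x ∉ P → y ∉ P → G.Adj b c → G.Adj b d → G.Adj c d →
  (∃ p ∈ P, G.Adj p b) → (∃ p ∈ P, G.Adj p c) → (∃ p ∈ P, G.Adj p d) → (∃ p ∈ P, G.Adj p x) →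
  ¬ G.Adj x b → ¬ G.Adj x c → ¬ G.Adj x d → G.Adj y b → G.Adj y c → ¬ G.Adj y d →
  (∀ p ∈ P, ¬ G.Adj p y) → ¬ G.Adj x y → IMS (KA 4 2 ![{0}, {1, 2}]) G Set.univ

/-- **Mo2.** The second model: the four mutually touching sets are `{a}, P, {b}, {c}`; `x` touches only `{a}`, `y`
touches only `P` and `{b}`.

Proof. `Sum.inl 0, 1, 2, 3 ↦ {a}, P, {b}, {c}`, `Sum.inr 0, 1 ↦ {x}, {y}`.  All six sets are disjoint: `x ∉ {a, b, c}`
and `x ≠ y` since `P` touches `a, b, c, y` but not `x`; `y ≠ a` (`a ~ c`, `y` is not adjacent to `c`), `y ≠ b`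
(`y ~ b`), `y ≠ c` (`a`). -/
def S_Mo2 : Prop := ∀ (V : Type) (G : SimpleGraph V) (P : Set V) (a b c x y : V), Conn G P →
  a ∉ P → b ∉ P → c ∉ P → x ∉ P → y ∉ P → G.Adj a b → G.Adj a c → G.Adj b c →
  (∃ p ∈ P, G.Adj p a) → (∃ p ∈ P, G.Adj p b) → (∃ p ∈ P, G.Adj p c) → (∃ p ∈ P, G.Adj p y) →
  (∀ p ∈ P, ¬ G.Adj p x) → G.Adj x a → ¬ G.Adj x b → ¬ G.Adj x c → G.Adj y b → ¬ G.Adj y a →
  ¬ G.Adj y c → ¬ G.Adj x y → IMS (KA 4 2 ![{0}, {1, 2}]) G Set.univ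

/-- **Tr2.** Two traces on a clique: nested, or non-adjacent vertices and disjoint traces, or non-adjacent vertices
and both differences have exactly one element.  (Uses `LK.S_A0`, `S_Mo1`.)

Proof. Suppose that the traces are not nested: `s ∈ Ms u \ Ms v`, `s' ∈ Ms v \ Ms u`; `v ~ s`, `u ~ s'`, `s ~ s'`.
If `u ~ v` then `{u}, {v}, {s}, {s'}` is a C4.  So `u, v` are not adjacent.  Suppose that `k` is in both traces.
If `a ≠ a'` are in `Ms u \ Ms v`: Mo1 with `P = {s'}`, `b, c, d := a, a', k`, `x := u`, `y := v`, contradiction; so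
`Ms u \ Ms v = {s}`, and the same with `u, v` exchanged. -/
def S_Tr2 : Prop := ∀ (V : Type) [Finite V] (G : SimpleGraph V) (S : Set V) (u v : V), Cl G →
  CompleteOn G S → u ∉ S → v ∉ S → Ms G S u ⊆ Ms G S v ∨ Ms G S v ⊆ Ms G S u ∨
    (¬ G.Adj u v ∧ (Disjoint (Ms G S u) (Ms G S v) ∨
      ((Ms G S u \ Ms G S v).ncard = 1 ∧ (Ms G S v \ Ms G S u).ncard = 1)))

/-- **Tr3.** Three disjoint traces.  (Uses `S_Mo1`, `S_Tr2`.)

Proof. Disjoint nonempty sets are not nested, so by Tr2 `u, v, w` are pairwise not adjacent.  Suppose that `a ≠ a'`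
are in `Ms u`, and let `c ∈ Ms w`.  Mo1 with `P = {c}`, `b, c, d := a, a', v`, `x := u`, `y := w`: `c ~ a, a', v, u`
(the traces are disjoint), `u` is not adjacent to `a, a', v`; `w ~ a, a'`; `w` is not adjacent to `v, c, u`. -/
def S_Tr3 : Prop := ∀ (V : Type) [Finite V] (G : SimpleGraph V) (S : Set V) (u v w : V), Cl G →
  CompleteOn G S → u ∉ S → v ∉ S → w ∉ S → (Ms G S v).Nonempty → (Ms G S w).Nonempty →
  Disjoint (Ms G S u) (Ms G S v) → Disjoint (Ms G S u) (Ms G S w) →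
  Disjoint (Ms G S v) (Ms G S w) → (Ms G S u).ncard ≤ 1

/-- **Jmp.** The jump rule.  (Uses `S_Mo1`, `S_Mo2`.)

Proof. Suppose that the first two alternatives fail: `d ∈ (Ms y ∩ Ms v) \ Ms x` and `b ∈ (Ms y \ Ms x) \ Ms v`.
`x ≠ y`.  Let `P` be the component of `x` in `G[C \ {y}]` (`exists_comp`); it touches `y` since `C` is connected; `x` is
adjacent to all elements of `S \ Ms x`.  If there is `b' ≠ b` in `(Ms y \ Ms x) \ Ms v`: Mo1 with `P`,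
`b, c, d := b, b', d`, `x := y`, `y := v`: contradiction.  So `(Ms y \ Ms x) \ Ms v = {b}`.  Suppose that
`e ∈ Ms v \ Ms y` (so `e ∉ Ms x`, `x ~ e`, `y ~ e`): Mo2 with `P`, `a, b, c := b, e, d`, `x := v`, `y := y`:
contradiction. -/
def S_Jmp : Prop := ∀ (V : Type) [Finite V] (G : SimpleGraph V) (S C : Set V) (x y v : V), Cl G →
  CompleteOn G S → Conn G C → Disjoint S C → x ∈ C → y ∈ C → Ms G S x ⊆ Ms G S y → v ∉ S →
  v ∉ C → (∀ c ∈ C, ¬ G.Adj v c) → Ms G S y ∩ Ms G S v ⊆ Ms G S x ∨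
    Ms G S y \ Ms G S x ⊆ Ms G S v ∨
    (Ms G S v ⊆ Ms G S y ∧ ((Ms G S y \ Ms G S x) \ Ms G S v).ncard = 1)

/-! ## petal sets -/

/-- the vertices outside `E` which are adjacent to all elements of `E` -/
def pF {V : Type} (G : SimpleGraph V) (E : Set V) : Set V := {v | v ∉ E ∧ ∀ f ∈ E, G.Adj v f}

/-- the vertices outside `E` which are adjacent to no element of `E` -/
def p0 {V : Type} (G : SimpleGraph V) (E : Set V) : Set V := {v | v ∉ E ∧ ∀ f ∈ E, ¬ G.Adj v f}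

/-- the vertices outside `E` which are adjacent to `e` and to no other element of `E` -/
def pZ {V : Type} (G : SimpleGraph V) (E : Set V) (e : V) : Set V :=
  {v | v ∉ E ∧ ∀ f ∈ E, (G.Adj v f ↔ f = e)}

/-- the vertices outside `E` which are adjacent to all elements of `E` but `e` -/
def pW {V : Type} (G : SimpleGraph V) (E : Set V) (e : V) : Set V :=
  {v | v ∉ E ∧ ∀ f ∈ E, (G.Adj v f ↔ f ≠ e)}

/-- the vertices of `pF` which are adjacent to all vertices of all `pW e` -/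
def pT {V : Type} (G : SimpleGraph V) (E : Set V) : Set V :=
  {w | w ∈ pF G E ∧ ∀ e ∈ E, ∀ v ∈ pW G E e, G.Adj w v}

/-- the other vertices of `pF` which have a neighbour in `pW e` -/
def pQ {V : Type} (G : SimpleGraph V) (E : Set V) (e : V) : Set V :=
  {w | w ∈ pF G E ∧ w ∉ pT G E ∧ ∃ v ∈ pW G E e, G.Adj w v}

/-- disjoint blocks `Y e` at the elements `e` of `E` all unions of which have cut-rank at most 3 -/
def Blk {V : Type} (G : SimpleGraph V) (E : Set V) (Y : V → Set V) : Prop :=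
  (∀ e ∈ E, ∀ f ∈ E, e ≠ f → Disjoint (Y e) (Y f) ∧ ¬ Tch G (Y e) (Y f)) ∧
    ∀ I ⊆ E, cr G (I ∪ ⋃ e ∈ I, Y e) ≤ 3

/-- **Z1.** Petal sets with private neighbours: there are only few traces.  (Uses `LK.S_A0`, `S_Mo1`.)

Proof. For `e ∈ E` let `z_e ∈ pZ G E e`.  (1) Every `v ∉ E` misses at most one or sees at most one element of `E`:
suppose that `v` misses `e₁ ≠ e₄` and sees `e₂ ≠ e₃`.  If `z₁ ~ v` then `{z₁}, {v}, {e₂}, {e₁}` is a C4.  Otherwise Mo1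
with `P = {e₁}`, `b, c, d := e₂, e₃, e₄`, `x := z₁`, `y := v`.
(2) There are no `e₁ ≠ e₂` in `E` and `v₁ ∈ pW e₁`, `v₂ ∈ pW e₂`.  Suppose there are; let `e₃, e₄ ∈ E` be two further
elements.  `v₁, v₂` are not adjacent (C4 `{v₁}, {v₂}, {e₁}, {e₂}`); `z₂, v₂` are not adjacent (C4 `{z₂}, {v₂}, {e₃}, {e₂}`);
`z₂, z₃` are not adjacent (C4 `{z₂}, {z₃}, {e₃}, {e₂}`).  `v₁ ~ z₂`: otherwise Mo1 with `P = {e₂}`, `b, c, d := e₃, e₄, v₁`,
`x := z₂`, `y := v₂`.  `v₁ ~ z₃`: otherwise Mo1 with `P = {e₃}`, `b, c, d := v₁, e₂, e₄`, `x := z₃`, `y := z₂`.  By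
symmetry (exchange 1 and 2) `v₂ ~ z₃`.  `{v₁}, {z₃}, {v₂}, {e₄}` is a C4.
(3) If all `pW e` are empty let `E' = E`, otherwise `E' = E \ {e₀}` where `pW e₀` is nonempty.  By (2) the other `pW e`
are empty.  Let `v ∉ E'`.  If `v = e₀`: first alternative.  Otherwise `v ∉ E`.  If `v` sees at most one element of `E`:
second or third alternative (third if the element is in `E'`).  If `v` misses at most one element then it misses
none or is in `pW e₀`: first alternative. -/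
def S_Z1 : Prop := ∀ (V : Type) [Finite V] (G : SimpleGraph V) (E : Set V), Cl G →
  CompleteOn G E → 5 ≤ E.ncard → (∀ e ∈ E, (pZ G E e).Nonempty) →
  ∃ E' ⊆ E, (E \ E').ncard ≤ 1 ∧ ∀ v, v ∉ E' → v ∈ pF G E' ∨ v ∈ p0 G E' ∨ ∃ e ∈ E', v ∈ pZ G E' e

/-- **Z2.** Private neighbours: their neighbours in `pF`.  (Uses `LK.S_A0`, `S_Mo1`.)

Proof. First part: `z ∈ pZ e`, `z' ∈ pZ f`, `e ≠ f`, `z ~ z'` gives the C4 `{z}, {z'}, {f}, {e}`.
Second part: it is enough to show that `w ~ z` implies `w ~ z'`.  Let `w ∈ pF`, `w ~ z`, `w` not adjacent to `z'`.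
If `e ≠ f` let `g ∈ E \ {e, f}`: Mo1 with `P = {f}`, `b, c, d := w, e, g`, `x := z'`, `y := z`.  If `e = f` let
`f' ∈ E \ {e}`, `z'' ∈ pZ f'`: if `w ~ z''` apply the first case to `z'', z'`, otherwise to `z, z''`. -/
def S_Z2 : Prop := ∀ (V : Type) [Finite V] (G : SimpleGraph V) (E : Set V), Cl G →
  CompleteOn G E → 3 ≤ E.ncard → (∀ e ∈ E, (pZ G E e).Nonempty) →
  (∀ e ∈ E, ∀ f ∈ E, e ≠ f → ∀ z ∈ pZ G E e, ∀ z' ∈ pZ G E f, ¬ G.Adj z z') ∧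
  ∀ w ∈ pF G E, ∀ e ∈ E, ∀ z ∈ pZ G E e, ∀ f ∈ E, ∀ z' ∈ pZ G E f, (G.Adj w z ↔ G.Adj w z')

/-- **Z3.** Private neighbours: the components of `G[p0]`.  (Uses `LK.S_A0`, `S_Mo1`, `S_Z2`.)

Proof. (1) `f ≠ e`, `z' ∈ pZ f`, `z' ∈ nb D`: `D, {z}, {e, f}, {z'}` is a C4 (`z, z'` not adjacent by Z2).
(2) Let `u ∈ D`, `w ∈ pF`.  If `w` is not adjacent to `z` but `w ~ u`: `{w}, {e}, {z}, D` is a C4.  Suppose that `w ~ z`
and `w, u` are not adjacent.  Let `t ≠ r` be in `E \ {e}` and `z_t ∈ pZ t`; `w ~ z_t` by Z2.  If `u ~ z` let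
`P = {e, z}`; otherwise let `d ∈ D`, `d ~ z`, and `P = {e, z} ∪ T'`, `T'` the component of `d` in `G[D \ {u}]`, which
touches `u` because `D` is connected.  `P` is connected and touches `u`.  Mo1 with `P`, `b, c, d := t, w, r`, `x := u`,
`y := z_t`: `e ∈ P` is adjacent to `t, w, r`; `u` is not adjacent to `t, w, r`; `z_t ~ t, w`, `z_t` is not adjacent to `r`,
`e`, `z` (Z2), `D` (part (1)). -/
def S_Z3 : Prop := ∀ (V : Type) [Finite V] (G : SimpleGraph V) (E D : Set V) (e z : V), Cl G →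
  CompleteOn G E → 3 ≤ E.ncard → (∀ e ∈ E, (pZ G E e).Nonempty) → IsComp G (p0 G E) D → e ∈ E →
  z ∈ pZ G E e → z ∈ nb G D →
  (∀ f ∈ E, f ≠ e → ∀ z' ∈ pZ G E f, z' ∉ nb G D) ∧
    ∀ u ∈ D, ∀ w ∈ pF G E, (G.Adj w u ↔ G.Adj w z)

/-- **Z4.** Private neighbours: the blocks.  (Uses `LK.S_A1`, `S_Z2`, `S_Z3`.)

Proof. `Y e = pZ e ∪ {u | ∃ D, IsComp G (p0 G E) D ∧ u ∈ D ∧ ∃ z ∈ pZ e, z ∈ nb G D}`.  Let `e ≠ f`.  `pZ e`, `pZ f` are
disjoint and not adjacent (Z2); a component `D` of `p0` with a neighbour in `pZ e` has no neighbour in `pZ f` (Z3),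
so the components of `Y e` and `Y f` are different, hence disjoint and not adjacent.  `p0` and `pZ` are disjoint.
Let `I ⊆ E`, `X = I ∪ ⋃ e ∈ I, Y e`.  A vertex of `Xᶜ` is in `E \ I`, `pF`, `p0` or some `pZ f`, `f ∉ I`.
`rk I Xᶜ ≤ 1` (`LK.S_A1` (5)): `i ∈ I` is adjacent to `E \ I` and `pF` and to no other element of `Xᶜ`.
`rk (⋃ e ∈ I, Y e) Xᶜ ≤ 1`: let `T` be the set of the `w ∈ pF` which are adjacent to some (equivalently, all, Z2)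
elements of the `pZ e`.  A vertex of `Y e`, `e ∈ I`, is adjacent to the elements of `T` and to no other element of
`Xᶜ`: for `z ∈ pZ e`: not to `E \ I`, not to `pF \ T`, not to `pZ f`; a neighbour of `z` in `p0` is in a component
which is contained in `Y e ⊆ X`; for `u ∈ D ⊆ Y e`: Z3 for `pF` and `pZ f`; `D` is a component of `p0`.  Sum: 2. -/
def S_Z4 : Prop := ∀ (V : Type) [Finite V] (G : SimpleGraph V) (E : Set V), Cl G →
  CompleteOn G E → 3 ≤ E.ncard → (∀ e ∈ E, (pZ G E e).Nonempty) →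
  (∀ v, v ∉ E → v ∈ pF G E ∨ v ∈ p0 G E ∨ ∃ e ∈ E, v ∈ pZ G E e) → ∃ Y, Blk G E Y

/-- **W1.** Petal sets with private non-neighbours: there are only few traces.  (Uses `LK.S_A0`, `S_Mo1`.)

Proof. For `e ∈ E` let `w_e ∈ pW G E e`.  First part: `w ∈ pW e`, `w' ∈ pW f`, `e ≠ f`, `w ~ w'` gives the C4
`{w}, {w'}, {e}, {f}`.  Second part: let `v ∉ E` be in none of the sets; then it sees some `e` and misses some
`f₁ ≠ f₂`.  Let `g ≠ g'` be in `E \ {e, f₁, f₂}`.  `v` is not adjacent to `w_e`: C4 `{v}, {w_e}, {f₁}, {e}`.  If `v` is adjacent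
to `w_g` and `w_g'` then `{v}, {w_g}, {f₁}, {w_g'}` is a C4.  So let `v` be not adjacent to `w_g` (rename): Mo1 with
`P = {e}`, `b, c, d := f₁, f₂, w_g`, `x := v`, `y := w_e`. -/
def S_W1 : Prop := ∀ (V : Type) [Finite V] (G : SimpleGraph V) (E : Set V), Cl G →
  CompleteOn G E → 5 ≤ E.ncard → (∀ e ∈ E, (pW G E e).Nonempty) →
  (∀ e ∈ E, ∀ f ∈ E, e ≠ f → ∀ w ∈ pW G E e, ∀ w' ∈ pW G E f, ¬ G.Adj w w') ∧
  ∀ v, v ∉ E → v ∈ pF G E ∨ v ∈ p0 G E ∨ ∃ e ∈ E, v ∈ pW G E e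

/-- **W2.** Private non-neighbours: the vertices of `pF`.  (Uses `LK.S_A0`, `S_Mo1`, `S_W1`.)

Proof. (1) Let `w ∈ pF`, `w ~ v₁ ∈ pW e₁`, `w ~ v₂ ∈ pW e₂`, `e₁ ≠ e₂`, `v₃ ∈ pW e₃`.  CLAIM `w ~ v₃`.  If `e₃` is different
from `e₁, e₂` and `w, v₃` are not adjacent: Mo1 with `P = {e₂}`, `b, c, d := w, e₃, v₁`, `x := v₃`, `y := v₂`.  If `e₃ = e₁`
let `e₄ ∈ E \ {e₁, e₂}`, `v₄ ∈ pW e₄`; `w ~ v₄` by the first case, and the first case for `v₂, v₄` and `v₃` gives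
`w ~ v₃`.  `e₃ = e₂` in the same way.
(2) So `w ∈ pQ e` has no neighbour in `pW f`, `f ≠ e` (otherwise `w ∈ pT` by (1)).
(3) `w ∈ pT`, `w' ∈ pQ e`, not adjacent: let `v ∈ pW e`, `v ~ w'`; `v ~ w`; `{w}, {v}, {w'}, {e}` is a C4.
(4) `w ∈ pQ e`, `w' ∈ pF \ pT`, `w' ∉ pQ e`, `w ~ w'`: let `v ∈ pW e`, `v ~ w`; `v` is not adjacent to `w'` (`w' ∉ pQ e`).
By (1) `w'` has neighbours in at most one of the sets `pW f`, so there is `g ∈ E \ {e}` such that `w'` has no neighbour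
in `pW g`; let `v' ∈ pW g`; `v'` is not adjacent to `w` (2).  Mo1 with `P = {e}`, `b, c, d := w, g, w'`, `x := v'`,
`y := v`. -/
def S_W2 : Prop := ∀ (V : Type) [Finite V] (G : SimpleGraph V) (E : Set V), Cl G →
  CompleteOn G E → 5 ≤ E.ncard → (∀ e ∈ E, (pW G E e).Nonempty) →
  (∀ e ∈ E, ∀ f ∈ E, e ≠ f → ∀ w ∈ pQ G E e, ∀ v ∈ pW G E f, ¬ G.Adj w v) ∧
  (∀ w ∈ pT G E, ∀ e ∈ E, ∀ w' ∈ pQ G E e, G.Adj w w') ∧
  ∀ e ∈ E, ∀ w ∈ pQ G E e, ∀ w' ∈ pF G E, w' ∉ pT G E → w' ∉ pQ G E e → ¬ G.Adj w w'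

/-- **W3.** Private non-neighbours: the components of `G[p0]`.  (Uses `LK.S_A0`, `S_Mo1`, `S_W1`, `S_W2`.)

Proof. (1) Let `q ∈ nb D`, `q ∈ pW f`, `f ≠ e`, or `q ∈ pF`, `q ∉ pT`, `q ∉ pQ e` (then put `f = e`).  `p, q` are not
adjacent: W1 (`p ∈ pW e`, `q ∈ pW f`), `q ∉ pQ e` and `q ∉ pT` (`p ∈ pW e`), W2 (`p ∈ pQ e`).  Let `g ∈ E \ {e, f}`:
`D, {p}, {g}, {q}` is a C4.
(2) Let `u ∈ D`, `w ∈ pT`, not adjacent; `t ≠ r` in `E \ {e}`, `v_t ∈ pW t`.  `P = {p}` if `u ~ p`; otherwise `P = {p} ∪ T'`,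
`T'` the component in `G[D \ {u}]` of a neighbour `d ∈ D` of `p` (it touches `u`).  Mo1 with `P`, `b, c, d := w, r, t`,
`x := u`, `y := v_t`: `p ~ w` (definition of `pT`, W2), `p ~ r, t`; `u` is not adjacent to `w, r, t`; `v_t ~ w, r`; `v_t` is
not adjacent to `t`, to `p` (W1, W2), to `D` (part (1)). -/
def S_W3 : Prop := ∀ (V : Type) [Finite V] (G : SimpleGraph V) (E D : Set V) (e p : V), Cl G →
  CompleteOn G E → 5 ≤ E.ncard → (∀ e ∈ E, (pW G E e).Nonempty) → IsComp G (p0 G E) D → e ∈ E →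
  p ∈ pW G E e ∪ pQ G E e → p ∈ nb G D →
  (∀ f ∈ E, f ≠ e → ∀ q ∈ pW G E f, q ∉ nb G D) ∧
  (∀ q ∈ pF G E, q ∉ pT G E → q ∉ pQ G E e → q ∉ nb G D) ∧
    ∀ u ∈ D, ∀ w ∈ pT G E, G.Adj w u

/-- **W4.** Private non-neighbours: the blocks.  (Uses `LK.S_A1`, `S_W1`, `S_W2`, `S_W3`.)

Proof. `Y e = pW e ∪ pQ e ∪ {u | ∃ D, IsComp G (p0 G E) D ∧ u ∈ D ∧ ∃ p ∈ pW e ∪ pQ e, p ∈ nb G D}`.  Let `e ≠ f`.
`pW e, pW f` are disjoint; `pQ e`, `pQ f` are disjoint by W2 (1); `pW`, `pQ ⊆ pF`, `p0` are disjoint from each other.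
No edges between `pW e ∪ pQ e` and `pW f ∪ pQ f`: W1, W2 (1), W2 (3).  A component `D` of `p0` with a neighbour in
`pW e ∪ pQ e` has none in `pW f ∪ pQ f` (W3; `pQ f ∩ pQ e = ∅`), so the components of `Y e`, `Y f` are different.
Let `I ⊆ E`, `X = I ∪ ⋃ e ∈ I, Y e`.  By W1 a vertex of `Xᶜ` is in `E \ I`, `pF`, `p0` or in `pW f`, `f ∈ E \ I`.  Split
`X = I ∪ A ∪ B`, `A = ⋃ e ∈ I, (pW e ∪ pQ e)`, `B` the rest (in `p0`).  With `LK.S_A1` (3), (5):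
`rk I Xᶜ ≤ 1`: `i ∈ I` is adjacent to `E \ I`, `pF`, `pW f` (`f ∉ I`), not to `p0`.
`rk A Xᶜ ≤ 1`: adjacent to `E \ I` and `pT`; not adjacent to `pW f`, `f ∉ I` (W1, W2 (1)), not to the elements of
`pF \ pT` in `Xᶜ` (they are in no `pQ e`, `e ∈ I`: definition of `pQ`, W2 (3)), not to `p0 \ X` (a neighbour in `p0` is in
a component which is in `Y e`).
`rk B Xᶜ ≤ 1`: adjacent to `pT` (W3), not to `E`, not to `pW f`, `f ∉ I`, not to `(pF \ pT) \ X` (W3), not to `p0 \ X`.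
Sum: 3. -/
def S_W4 : Prop := ∀ (V : Type) [Finite V] (G : SimpleGraph V) (E : Set V), Cl G →
  CompleteOn G E → 5 ≤ E.ncard → (∀ e ∈ E, (pW G E e).Nonempty) → ∃ Y, Blk G E Y

/-- **Rm.** Removing a petal set.  (Uses `LK.S_A1`, `S_Z1`, `S_Z4`, `S_W4`.)

Proof. If `|E| ≤ 4`: `I = B = ∅` (`cr G ∅ = 0`).  Let `|E| ≥ 5`.  There are `E' ⊆ E`, `|E \ E'| ≤ 1`, and `Y` with
`Blk G E' Y`: W4 (`E' = E`), or Z1 and Z4 (for `e ∈ E'` `pZ G E e ⊆ pZ G E' e`, so they are nonempty; `|E'| ≥ 4`).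
`S` is a clique, so it meets `Y e` for at most one `e ∈ E'` (for `e ≠ f` an element of `S ∩ Y e` and one of `S ∩ Y f` are
different and not adjacent).  Let `I` be `E'` without this `e`, `B = I ∪ ⋃ e ∈ I, Y e`; `|E \ I| ≤ 2`, `cr G B ≤ 3`,
`S ∩ B = S ∩ I`.  If `|S ∩ I| ≥ m + 1` let `I' ⊆ S ∩ I`, `|I'| = m + 1`, `X = I' ∪ ⋃ e ∈ I', Y e`: `cr G X ≤ 3`,
`S ∩ X = I'` has `m + 1` elements, and `|S \ X| ≥ 2 m + 2 - (m + 1) > m`: contradiction to `Unb`.  So `|S ∩ B| ≤ m`. -/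
def S_Rm : Prop := ∀ (V : Type) [Finite V] (G : SimpleGraph V) (S E : Set V) (m : ℕ), Cl G →
  CompleteOn G S → Unb G S m → 2 * m + 2 ≤ S.ncard → CompleteOn G E →
  (∀ e ∈ E, (pZ G E e).Nonempty) ∨ (∀ e ∈ E, (pW G E e).Nonempty) →
  ∃ I B : Set V, I ⊆ E ∧ I ⊆ B ∧ (E \ I).ncard ≤ 4 ∧ cr G B ≤ 3 ∧ (S ∩ B).ncard ≤ m

/-- **Cut.** The cut `R ∪ L`.  (Uses `LK.S_A1`, `LK.S_A2`, `S_Rm`.)

Proof. Let `E₁` be the set of the `e ∈ R` such that some `v ∉ K ∪ L` is adjacent to `e` and to no other element of `R`, and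
`F₁` the set of the `f ∈ T` such that some `l ∈ L` is not adjacent to `f` but to all other elements of `T`.  `E₁`, `F₁` are
subsets of the clique `K`; `pZ G E₁ e` (`e ∈ E₁`), `pW G F₁ f` (`f ∈ F₁`) are nonempty (the vertices `v`, `l` are not in
`K`).  Rm gives `I₁, B₁` for `E₁` and `I₂, B₂` for `F₁`.  `X = (R ∪ L) \ (B₁ ∪ B₂)`, `O = (R ∪ L)ᶜ \ (B₁ ∪ B₂)`, so
`Xᶜ = O ∪ (B₁ ∪ B₂)` (up to elements counted twice).  By LK.S_A1 (symmetry, unions)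
`cr G X ≤ rk X O + rk X B₁ + rk X B₂`, and `rk X B₁ ≤ rk B₁ᶜ B₁ = cr G B₁ ≤ 3` (A1 (1), (2)), the same for `B₂`.
`rk (X ∩ R) O ≤ 5`: `X ∩ R ⊆ (R \ E₁) ∪ (E₁ \ I₁)` (`I₁ ⊆ B₁`); `rk (E₁ \ I₁) O ≤ 4`; `rk (R \ E₁) O ≤ 1` (A1 (5)): an
element `r` of `R \ E₁` is adjacent to `o ∈ O` iff `o ∈ K` or `o` is adjacent to all elements of `R`.
`rk (X ∩ L) O ≤ 5` (A1 (6)): the trace of `l ∈ L` on `O` is `O ∩ T` or `(O ∩ T) \ {f}` with `f ∈ F₁ \ I₂` (`l` has no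
neighbours outside `K ∪ L` and in `K \ (R ∪ T)`; it misses at most one element `f` of `T`, `f ∈ F₁`, and if `f ∈ I₂ ⊆ B₂`
then `f ∉ O`): at most five sets.  Sum: `cr G X ≤ 16`.
`Unb`: `|S ∩ X| ≤ m`, then `|S ∩ (R ∪ L)| ≤ |S ∩ X| + |S ∩ B₁| + |S ∩ B₂| ≤ 3 m`; or `|S \ X| ≤ m`, then
`|S \ (R ∪ L)| ≤ m`. -/
def S_Cut : Prop := ∀ (V : Type) [Finite V] (G : SimpleGraph V) (S K R T L : Set V) (m : ℕ),
  Cl G → CompleteOn G S → Unb G S m → 2 * m + 2 ≤ S.ncard → CompleteOn G K → R ⊆ K → T ⊆ K →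
  Disjoint R T → Disjoint K L → (∀ l ∈ L, ∀ v, v ∉ K → v ∉ L → ¬ G.Adj l v) →
  (∀ v, v ∉ K → v ∉ L → (∀ r ∈ R, G.Adj v r) ∨ (∀ r ∈ R, ¬ G.Adj v r) ∨
    ∃ e ∈ R, ∀ r ∈ R, (G.Adj v r ↔ r = e)) →
  (∀ l ∈ L, (∀ k ∈ K, k ∉ R → k ∉ T → ¬ G.Adj l k) ∧ (Ms G T l).ncard ≤ 1) →
  (S ∩ (R ∪ L)).ncard ≤ 3 * m ∨ (S \ (R ∪ L)).ncard ≤ m

/-! ## maximal cliques and their components -/

/-- `K` is a maximal clique -/
def MC {V : Type} (G : SimpleGraph V) (K : Set V) : Prop :=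
  CompleteOn G K ∧ ∀ v, v ∉ K → (Ms G K v).Nonempty

/-- `C` is a component of `G[Kᶜ]`, `x` has the smallest trace in `C` and `y` a trace of maximal size -/
def CT {V : Type} (G : SimpleGraph V) (K C : Set V) (x y : V) : Prop :=
  IsComp G Kᶜ C ∧ x ∈ C ∧ y ∈ C ∧ (∀ v ∈ C, Ms G K x ⊆ Ms G K v) ∧
    ∀ v ∈ C, (Ms G K v).ncard ≤ (Ms G K y).ncard

/-- the component `C` is pointed: `C` and its range contain all vertices of `S` but at most `m` -/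
def Ptd {V : Type} (G : SimpleGraph V) (S K C : Set V) (x y : V) (m : ℕ) : Prop :=
  CT G K C x y ∧ (S \ (C ∪ (Ms G K y \ Ms G K x))).ncard ≤ m

/-- **Gt.** Smallest and largest traces of a component.  (Uses `LK.S_A7`, `S_Tr2`.)

Proof. (1) `nb G C ⊆ K` (`C` is a component of `G[Kᶜ]`) is a clique; LK.S_A7 with `A = nb G C` gives `x ∈ C` complete to
`nb G C`; an element `k` of `Ms x` is not in `nb G C`, so it is not adjacent to any `v ∈ C`: `Ms x ⊆ Ms v`.  `y` exists since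
`C` is finite and not empty.
(2) `Ms x` is not empty (`MC`).  `v, y ∈ C`: both traces contain `Ms x`, so they are not disjoint.  By Tr2 they are
nested, and then `Ms v ⊆ Ms y` (sizes), or `|Ms v \ Ms y| = 1`. -/
def S_Gt : Prop := ∀ (V : Type) [Finite V] (G : SimpleGraph V) (K C : Set V), Cl G → MC G K →
  IsComp G Kᶜ C → ∃ x y, CT G K C x y ∧ ∀ v ∈ C, (Ms G K v \ Ms G K y).ncard ≤ 1

/-- **Ho.** Vertices outside a component and its range.  (Uses `S_Jmp`.)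

Proof. `R = Ms y \ Ms x`.  `v` is not adjacent to `C` (component).  `Ms x ⊆ Ms y`.  Jmp for `K`, `C`, `x`, `y`, `v`: in the
first case `v` is adjacent to all `r ∈ R`; in the second case to none; in the third case to exactly one. -/
def S_Ho : Prop := ∀ (V : Type) [Finite V] (G : SimpleGraph V) (K C : Set V) (x y v : V), Cl G →
  MC G K → CT G K C x y → v ∉ K → v ∉ C → (∀ r ∈ Ms G K y \ Ms G K x, G.Adj v r) ∨
    (∀ r ∈ Ms G K y \ Ms G K x, ¬ G.Adj v r) ∨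
    ∃ e ∈ Ms G K y \ Ms G K x, ∀ r ∈ Ms G K y \ Ms G K x, (G.Adj v r ↔ r = e)

/-- **Rg.** The range cut and the homogeneous part of the range.  (Uses `S_Tr2`, `S_Rm`, `S_Cut`, `S_Ho`.)

Proof. `R = Ms y \ Ms x`.  (1) Cut with `R`, `L = C`, `T = K \ Ms y`: vertices outside `K ∪ C`: Ho, and they are not
adjacent to `C`.  `c ∈ C`: `K \ (R ∪ T) = Ms x ⊆ Ms c` (`Ms x ⊆ Ms y`); `Ms G T c = Ms c \ Ms y` has at most one element:
both traces contain `Ms x ≠ ∅` (`MC`), so by Tr2 they are nested (then `Ms c ⊆ Ms y` by the sizes) or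
`|Ms c \ Ms y| = 1`.
(2) Let `E₁` be the set of the `e ∈ R` such that some `v ∉ K ∪ C` is adjacent to `e` and to no other element of `R`.
`E₁ ⊆ K` is a clique and the sets `pZ G E₁ e` are nonempty; Rm: `E₁ ⊆ I ∪ (E₁ \ I)`, so `|S ∩ E₁| ≤ m + 4`.
`R' = (S ∩ R) \ E₁`; Ho. -/
def S_Rg : Prop := ∀ (V : Type) [Finite V] (G : SimpleGraph V) (S K C : Set V) (x y : V) (m : ℕ),
  Cl G → CompleteOn G S → Unb G S m → 2 * m + 2 ≤ S.ncard → MC G K → CT G K C x y →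
  ((S ∩ (C ∪ (Ms G K y \ Ms G K x))).ncard ≤ 3 * m ∨
    (S \ (C ∪ (Ms G K y \ Ms G K x))).ncard ≤ m) ∧
  ∃ R' ⊆ S ∩ (Ms G K y \ Ms G K x), ((S ∩ (Ms G K y \ Ms G K x)) \ R').ncard ≤ m + 4 ∧
    ∀ v, v ∉ K → v ∉ C → (∀ r ∈ R', G.Adj v r) ∨ ∀ r ∈ R', ¬ G.Adj v r

/-- **Th.** The threshold cut.  (Uses `S_Tr2`, `S_Jmp`, `S_Cut`, `S_Gt`.)

Proof. `M = Ms x` (nonempty).  A component `C' ≠ C` of `G[Kᶜ]` is low if `Ms v ⊂ M` for some `v ∈ C'`.  `L` is the union of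
the low components; Cut with `R = M`, `T = K \ M`, `L`.  There are no edges from `L` to vertices outside `K ∪ L`
(components).
(1) Let `v ∉ K ∪ L`.  If `v ∈ C` then `M ⊆ Ms v`: `v` is adjacent to no element of `M`.  Otherwise `v` is in a component
`≠ C` which is not low (`exists_comp`), so `Ms v ⊂ M` is false.  Tr2 for `v`, `x`: `Ms v ⊆ M`, then `Ms v = M`: none;
`M ⊆ Ms v`: none; disjoint: all; `|M \ Ms v| = 1`: exactly one.
(2) Let `l ∈ C'`, `C'` low.  `K \ (R ∪ T) = ∅`.  We have to show `|Ms l \ M| ≤ 1`.  Let `x', y'` be from Gt for `C'`; `M' = Ms x'`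
is nonempty and `M' ⊂ M` (`Ms x' ⊆ Ms v ⊂ M` for the `v ∈ C'` from the definition of low), and `M' ⊆ Ms l`, `M' ⊆ Ms y'`.
CLAIM `|Ms y'| ≤ |M| + 1`.  Tr2 for `x`, `y'` (both traces contain `M'`): `Ms y' ⊆ M`, fine; `|Ms y' \ M| = 1 = |M \ Ms y'|`,
fine; or `M ⊆ Ms y'`.  In this case Jmp for `K`, `C'`, `x'`, `y'`, `v := x` (`x ∉ C'`, not adjacent to `C'`):
`Ms y' ∩ M ⊆ M'` is impossible (`M ⊆ M' ⊂ M`); `Ms y' \ M' ⊆ M`: `Ms y' ⊆ M`, fine; `|(Ms y' \ M') \ M| = 1`: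
`|Ms y' \ M| ≤ 1` because `M' ⊆ M`, fine.
Tr2 for `x`, `l` (both traces contain `M'`): `Ms l ⊆ M`, fine; `|Ms l \ M| = 1`, fine; `M ⊆ Ms l`:
`|Ms l \ M| = |Ms l| - |M| ≤ |Ms y'| - |M| ≤ 1`.
Conclusion: `|S ∩ (M ∪ L)| ≤ 3 m`, so `|S ∩ M| ≤ 3 m`; or `|S \ (M ∪ L)| ≤ m`, so `|(S ∩ K) \ M| ≤ m`. -/
def S_Th : Prop := ∀ (V : Type) [Finite V] (G : SimpleGraph V) (S K C : Set V) (x y : V) (m : ℕ),
  Cl G → CompleteOn G S → Unb G S m → 2 * m + 2 ≤ S.ncard → MC G K → CT G K C x y →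
  (S ∩ Ms G K x).ncard ≤ 3 * m ∨ ((S ∩ K) \ Ms G K x).ncard ≤ m

/-- **Hu.** The vertices with huge traces.  (Uses `S_Tr2`, `S_Rm`.)

Proof. If `H = ∅`: `Σ = S ∩ K`.  Otherwise let `v₀ ∈ H` have a trace of minimal size.  Let `E` be the set of the
`e ∈ Ms v₀` such that some `v ∈ H` is adjacent to `e` and to no other element of `Ms v₀`; a clique, the `pZ G E e` are
nonempty, Rm: `|S ∩ E| ≤ m + 4`.  `Σ = (S ∩ Ms v₀) \ E`.  Let `v ∈ H`, `s ∈ Σ`.  Tr2 for `v₀, v`: `Ms v₀ ⊆ Ms v`: `v` is not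
adjacent to `s`; `Ms v ⊆ Ms v₀`: the sets are equal by minimality; disjoint is impossible: both contain all elements
of `S ∩ K` but `m`, and `|S ∩ K| > 2 m`; `|Ms v₀ \ Ms v| = 1`: the element is in `E`, so `s` is not this element and
`s ∈ Ms v`.  `|(S ∩ K) \ Σ| ≤ |(S ∩ K) \ Ms v₀| + |S ∩ E| ≤ 2 m + 4`. -/
def S_Hu : Prop := ∀ (V : Type) [Finite V] (G : SimpleGraph V) (S K H : Set V) (m : ℕ),
  Cl G → CompleteOn G S → Unb G S m → 2 * m + 2 ≤ S.ncard → CompleteOn G K →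
  2 * m < (S ∩ K).ncard → (∀ v ∈ H, v ∉ K ∧ ((S ∩ K) \ Ms G K v).ncard ≤ m) →
  ∃ S' ⊆ S ∩ K, ((S ∩ K) \ S').ncard ≤ 2 * m + 4 ∧ ∀ v ∈ H, ∀ s ∈ S', ¬ G.Adj v s

/-- **Ti.** The vertices with tiny traces.  (Uses `S_Tr2`, `S_Tr3`, `S_Rm`.)

Proof. If `H = ∅`: `S' = S ∩ K`.  Otherwise let `v₁ ∈ H` have a trace of maximal size, `M₁ = Ms v₁`.  For a subset `M`
of `K` let `E(M)` be the set of the `f ∈ K \ M` such that `Ms v \ M = {f}` for some `v ∈ H`.  `E(M)` is a clique and the sets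
`pW G E(M) f` are nonempty (`v` is adjacent to the other elements of `E(M)`), so `|S ∩ E(M)| ≤ m + 4` by Rm.
Let `H' ⊆ H` be the set of the `v ∈ H` with nonempty trace disjoint from `M₁`.
CASE 1: `|M₁| ≤ 1` or `H' = ∅`.  Every `v ∈ H` satisfies `Ms v ⊆ M₁ ∪ E(M₁)`: Tr2 for `v, v₁`: `Ms v ⊆ M₁`; or `M₁ ⊆ Ms v`, then
`Ms v = M₁` (sizes); or disjoint and not nested, `v ∈ H'`, so `|M₁| ≤ 1`, `|Ms v| = 1`; or `|Ms v \ M₁| = 1`.
`S' = (S ∩ K) \ (M₁ ∪ E(M₁))`.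
CASE 2: `|M₁| ≥ 2` and `H' ≠ ∅`: let `v₂ ∈ H'` have a trace `M₂` of maximal size (among `H'`).  Every `v ∈ H \ H'` satisfies
`Ms v ⊆ M₁ ∪ E(M₁)` as before.  Let `v ∈ H'`.  Tr2 for `v, v₂`: nested: `Ms v ⊆ M₂` (sizes); disjoint: Tr3 for
`v₁, v₂, v` gives `|M₁| ≤ 1`, contradiction; `|Ms v \ M₂| = 1`: `Ms v ⊆ M₂ ∪ E(M₂)`.
`S' = (S ∩ K) \ (M₁ ∪ E(M₁) ∪ M₂ ∪ E(M₂))`, `|(S ∩ K) \ S'| ≤ 2 (6 m + 1) + 2 (m + 4)`. -/
def S_Ti : Prop := ∀ (V : Type) [Finite V] (G : SimpleGraph V) (S K H : Set V) (m : ℕ),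
  Cl G → CompleteOn G S → Unb G S m → 2 * m + 2 ≤ S.ncard → CompleteOn G K →
  (∀ v ∈ H, v ∉ K ∧ (S ∩ Ms G K v).ncard ≤ 6 * m + 1) →
  ∃ S' ⊆ S ∩ K, ((S ∩ K) \ S').ncard ≤ 14 * m + 10 ∧ ∀ v ∈ H, ∀ s ∈ S', G.Adj v s

/-- **Mod.** A module in a clique is small.  (Uses `LK.S_A1`.)

Proof. Otherwise let `I ⊆ S'`, `|I| = m + 1`.  `cr G I ≤ 1` (LK.S_A1 (5)): a vertex outside `I` is adjacent to all or to no
element of `I` (the elements of `S' \ I` are in the clique `S`, adjacent to all).  `|S ∩ I| = m + 1`,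
`|S \ I| ≥ 2 m + 2 - (m + 1) > m`: contradiction to `Unb`. -/
def S_Mod : Prop := ∀ (V : Type) [Finite V] (G : SimpleGraph V) (S S' : Set V) (m : ℕ),
  CompleteOn G S → Unb G S m → 2 * m + 2 ≤ S.ncard → S' ⊆ S →
  (∀ v, v ∉ S' → (∀ s ∈ S', G.Adj v s) ∨ ∀ s ∈ S', ¬ G.Adj v s) → S'.ncard ≤ m

/-- **Pt.** There is a pointed component.  (Uses `S_Gt`, `S_Rg`, `S_Th`, `S_Hu`, `S_Ti`, `S_Mod`.)

Proof. Suppose not.  Let `H₁` be the set of the `v ∉ K` with `|(S ∩ K) \ Ms v| ≤ m` and `H₂` the set of the `v ∉ K` with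
`|S ∩ Ms v| ≤ 6 m + 1`.  CLAIM: every `v ∉ K` is in `H₁ ∪ H₂`.  Let `C` be the component of `v` in `G[Kᶜ]` (`exists_comp`)
and `x, y` from Gt.  `C` is not pointed, so `|S ∩ (Ms y \ Ms x)| ≤ 3 m` by Rg.  Th: if `|(S ∩ K) \ Ms x| ≤ m` then `v ∈ H₁`
since `Ms x ⊆ Ms v`; if `|S ∩ Ms x| ≤ 3 m` then `|S ∩ Ms v| ≤ |S ∩ Ms x| + |S ∩ (Ms y \ Ms x)| + |Ms v \ Ms y| ≤ 6 m + 1`.
Hu and Ti give `S₁`, `S₂ ⊆ S ∩ K`; `S' = S₁ ∩ S₂`, `|S \ S'| ≤ m + (2 m + 4) + (14 m + 10)`, so `|S'| ≥ 3 m + 6`.  Every vertex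
outside `S'` is adjacent to all or to no element of `S'` (the elements of `K` to all): contradiction to Mod. -/
def S_Pt : Prop := ∀ (V : Type) [Finite V] (G : SimpleGraph V) (S K : Set V) (m : ℕ), Cl G →
  CompleteOn G S → Unb G S m → 20 * m + 20 ≤ S.ncard → MC G K → (S \ K).ncard ≤ m →
  ∃ C x y, Ptd G S K C x y m

/-- **Big.** Large cliques have balanced cuts.  (Uses `S_Rg`, `S_Mod`, `S_Pt`.)

Proof. Suppose `Unb G S m`.  Consider all `(K, C, x, y)` with `MC G K`, `|S \ K| ≤ m`, `Ptd G S K C x y m`, `S ∩ C = ∅`.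
There is one: extend `S` to a maximal clique `K` (finite), Pt gives `C`, and `S ∩ C ⊆ K ∩ C = ∅`.  Choose one with
`|C|` minimal.  `R = Ms G K y \ Ms G K x`.  Let `K⁺` be a maximal clique which contains `x` and `K \ Ms G K x` (a clique).
`K⁺ ⊆ C ∪ (K \ Ms x)`: an element `v ≠ x` of `K⁺` is adjacent to `x ∈ C`, so it is in `C` or in `K`, and then not in `Ms x`.
`R ⊆ K⁺`, so `S \ K⁺ ⊆ S \ R = S \ (C ∪ R)` (`S ∩ C = ∅`) has at most `m` elements.  Pt gives `C', x', y'` for `K⁺`;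
`R' = Ms G K⁺ y' \ Ms G K⁺ x'`.
`C' ⊆ C` or `C' ∩ C = ∅`: `nb G C ⊆ K \ Ms x ⊆ K⁺`, and the connected set `C'` does not meet `K⁺`.
If `C' ⊆ C`: `x ∈ C \ C'`, `S ∩ C' = ∅`: contradiction to the choice of `(K, C, x, y)`.
So `C' ∩ C = ∅`.  `|S \ R| ≤ m`; `S ∩ C' ⊆ S \ R` (`R ⊆ K⁺` and `C' ∩ K⁺ = ∅`), so `|S \ R'| ≤ 2 m`.  Rg (2) for `(K, C)` gives
`R₁ ⊆ S ∩ R` with `|(S ∩ R) \ R₁| ≤ m + 4`, for `(K⁺, C')` it gives `R₂ ⊆ S ∩ R'`.  `S' = R₁ ∩ R₂`: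
`|S \ S'| ≤ m + (m + 4) + 2 m + (m + 4) = 5 m + 8`, so `|S'| > m`.  Let `v ∉ S'`.  If `v ∈ K` or `v ∈ K⁺` then `v` is adjacent to
all elements of `S'`.  Otherwise `v ∉ C` or `v ∉ C'`, so all or none of the elements of `S'` are adjacent to `v` (Rg (2)).
Contradiction to Mod. -/
def S_Big : Prop := ∀ (V : Type) [Finite V] (G : SimpleGraph V) (S : Set V) (m : ℕ), Cl G →
  CompleteOn G S → 20 * m + 20 ≤ S.ncard → ¬ Unb G S m

/-- **Fin.** The theorem: chordal graphs without `K4:0,12` have layouts of bounded width, so the pair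
`(C_4, K4:0,12)` has bounded clique-width.  (Uses `LK.S_A12`, `S_Big`, `S_LayCW`.)

Proof. Exactly as `L4/C15.lean`: LK.S_A12 for `c = 16`, `n = 660`; Big for `m = 32`. -/
def S_Fin : Prop := (∃ k : ℕ, ∀ (V : Type) [Finite V] (G : SimpleGraph V), Cl G →
    Lay G k Set.univ) ∧ BoundedCW cyc4 (KA 4 2 ![{0}, {1, 2}])

end Pool.Agent.MPd439b2.M4
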