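import Pool.Agent.Lib.MP_d439b2_co.M4.Spec

/-!
# MP_d439b2_co, row `K4:0,12`: the vertices with tiny traces
-/

set_option autoImplicit false
set_option linter.unusedSectionVars false

namespace Pool.Agent.MPd439b2.M4

open Pool.Agent.MPd439b2 Pool.Agent.MPd439b2.LK

namespace tiAux

variable {V : Type} [Finite V] {G : SimpleGraph V} {S K H : Set V} {m : ℕ}

/-- the elements `f` of `K \ M` such that `Ms v \ M = {f}` for some `v ∈ H` -/
def EM (G : SimpleGraph V) (K H M : Set V) : Set V :=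
  {f | f ∈ K ∧ f ∉ M ∧ ∃ v ∈ H, Ms G K v \ M = {f}}

theorem em_card (h3 : S_Rm) (hCl : Cl G) (hS : CompleteOn G S) (hU : Unb G S m)
    (hm : 2 * m + 2 ≤ S.ncard) (hK : CompleteOn G K) (hHK : ∀ v ∈ H, v ∉ K) (M : Set V) :
    (S ∩ EM G K H M).ncard ≤ m + 4 := by
  obtain ⟨I, B, hIE, hIB, hEI, -, hSB⟩ := h3 V G S (EM G K H M) m hCl hS hU hm
    (fun u hu v hv huv => hK u hu.1 v hv.1 huv) (Or.inr fun e he => by
      obtain ⟨v, hv, hve⟩ := he.2.2
      refine ⟨v, fun h => hHK v hv h.1, ?_⟩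
      intro f hf
      constructor
      · rintro h rfl
        have h1 : f ∈ Ms G K v \ M := by
          rw [hve]
          exact rfl
        exact h1.1.2 h
      · intro h
        by_contra h'
        have h1 : f ∈ Ms G K v \ M := ⟨⟨hf.1, h'⟩, hf.2.1⟩
        rw [hve] at h1
        exact h h1)
  have h1 : S ∩ EM G K H M ⊆ (S ∩ B) ∪ (EM G K H M \ I) := by
    rintro f ⟨hf, hf'⟩
    by_cases h : f ∈ I
    · exact Or.inl ⟨hf, hIB h⟩
    · exact Or.inr ⟨hf', h⟩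
  have h2 := Set.ncard_le_ncard h1 (Set.toFinite _)
  have h4 := Set.ncard_union_le (S ∩ B) (EM G K H M \ I)
  omega

/-- the conclusion from two traces -/
theorem fin (h3 : S_Rm) (hCl : Cl G) (hS : CompleteOn G S) (hU : Unb G S m)
    (hm : 2 * m + 2 ≤ S.ncard) (hK : CompleteOn G K)
    (hH : ∀ v ∈ H, v ∉ K ∧ (S ∩ Ms G K v).ncard ≤ 6 * m + 1) (v₁ v₂ : V) (hv₁ : v₁ ∈ H)
    (hv₂ : v₂ ∈ H) (h : ∀ v ∈ H, Ms G K v ⊆ (Ms G K v₁ ∪ EM G K H (Ms G K v₁)) ∪
      (Ms G K v₂ ∪ EM G K H (Ms G K v₂))) :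
    ∃ S' ⊆ S ∩ K, ((S ∩ K) \ S').ncard ≤ 14 * m + 10 ∧ ∀ v ∈ H, ∀ s ∈ S', G.Adj v s := by
  refine ⟨(S ∩ K) \ ((Ms G K v₁ ∪ EM G K H (Ms G K v₁)) ∪ (Ms G K v₂ ∪ EM G K H (Ms G K v₂))),
    Set.sdiff_subset, ?_, ?_⟩
  · have h1 : (S ∩ K) \ ((S ∩ K) \ ((Ms G K v₁ ∪ EM G K H (Ms G K v₁)) ∪
        (Ms G K v₂ ∪ EM G K H (Ms G K v₂)))) ⊆
        ((S ∩ Ms G K v₁) ∪ (S ∩ EM G K H (Ms G K v₁))) ∪
        ((S ∩ Ms G K v₂) ∪ (S ∩ EM G K H (Ms G K v₂))) := by
      rintro s ⟨hs, hs'⟩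
      by_contra hno
      apply hs'
      refine ⟨hs, fun h' => hno ?_⟩
      rcases h' with (h' | h') | (h' | h')
      · exact Or.inl (Or.inl ⟨hs.1, h'⟩)
      · exact Or.inl (Or.inr ⟨hs.1, h'⟩)
      · exact Or.inr (Or.inl ⟨hs.1, h'⟩)
      · exact Or.inr (Or.inr ⟨hs.1, h'⟩)
    have h2 := Set.ncard_le_ncard h1 (Set.toFinite _)
    have h4 := Set.ncard_union_le ((S ∩ Ms G K v₁) ∪ (S ∩ EM G K H (Ms G K v₁)))
      ((S ∩ Ms G K v₂) ∪ (S ∩ EM G K H (Ms G K v₂)))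
    have h5 := Set.ncard_union_le (S ∩ Ms G K v₁) (S ∩ EM G K H (Ms G K v₁))
    have h6 := Set.ncard_union_le (S ∩ Ms G K v₂) (S ∩ EM G K H (Ms G K v₂))
    have h7 := em_card h3 hCl hS hU hm hK (fun v hv => (hH v hv).1) (Ms G K v₁)
    have h8 := em_card h3 hCl hS hU hm hK (fun v hv => (hH v hv).1) (Ms G K v₂)
    have h9 := (hH v₁ hv₁).2
    have h10 := (hH v₂ hv₂).2
    omega
  · rintro v hv s ⟨hs, hs'⟩
    by_contra hno
    exact hs' (h v hv ⟨hs.2, hno⟩)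

/-- a trace with one element outside `M` -/
theorem sub_of_one {M : Set V} {v : V} (hv : v ∈ H) (h : (Ms G K v \ M).ncard = 1) :
    Ms G K v ⊆ M ∪ EM G K H M := by
  obtain ⟨f, hf⟩ := Set.ncard_eq_one.1 h
  have hf' : f ∈ Ms G K v \ M := by
    rw [hf]
    exact rfl
  intro s hs
  by_cases hsM : s ∈ M
  · exact Or.inl hsM
  · right
    have h1 : s ∈ Ms G K v \ M := ⟨hs, hsM⟩
    rw [hf] at h1
    rw [show s = f from h1]
    exact ⟨hf'.1.1, hf'.2, v, hv, hf⟩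

end tiAux

open tiAux

theorem ti (h1 : S_Tr2) (h2 : S_Tr3) (h3 : S_Rm) : S_Ti := by
  intro V _ G S K H m hCl hS hU hm hK hH
  rcases Set.eq_empty_or_nonempty H with hE | hne
  · refine ⟨S ∩ K, subset_rfl, ?_, ?_⟩
    · rw [sdiff_self, Set.bot_eq_empty, Set.ncard_empty]
      exact Nat.zero_le _
    · intro v hv
      rw [hE] at hv
      exact absurd hv (Set.notMem_empty v)
  obtain ⟨v₁, hv₁, hmax₁⟩ := Set.exists_max_image H (fun v => (Ms G K v).ncard) (Set.toFinite H)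
    hne
  -- the vertices outside `H'`
  have hA : ∀ v ∈ H, ¬ ((Ms G K v).Nonempty ∧ Disjoint (Ms G K v) (Ms G K v₁)) →
      Ms G K v ⊆ Ms G K v₁ ∪ EM G K H (Ms G K v₁) := by
    intro v hv hno
    rcases h1 V G K v v₁ hCl hK (hH v hv).1 (hH v₁ hv₁).1 with h | h | ⟨-, h | h⟩
    · exact h.trans Set.subset_union_left
    · have h' : Ms G K v₁ = Ms G K v :=
        Set.eq_of_subset_of_ncard_le h (hmax₁ v hv) (Set.toFinite _)
      rw [← h']
      exact Set.subset_union_left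
    · rcases Set.eq_empty_or_nonempty (Ms G K v) with h' | h'
      · rw [h']
        exact Set.empty_subset _
      · exact absurd ⟨h', h⟩ hno
    · exact sub_of_one hv h.1
  by_cases hc : (Ms G K v₁).ncard ≤ 1
  · refine fin h3 hCl hS hU hm hK hH v₁ v₁ hv₁ hv₁ fun v hv => ?_
    rw [Set.union_self]
    by_cases hH' : (Ms G K v).Nonempty ∧ Disjoint (Ms G K v) (Ms G K v₁)
    · apply sub_of_one hv
      rw [hH'.2.sdiff_eq_left]
      have h4 := (Set.ncard_pos (Set.toFinite _)).2 hH'.1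
      have h5 := hmax₁ v hv
      omega
    · exact hA v hv hH'
  · rcases Set.eq_empty_or_nonempty
      {v | v ∈ H ∧ (Ms G K v).Nonempty ∧ Disjoint (Ms G K v) (Ms G K v₁)} with hH' | hH'
    · refine fin h3 hCl hS hU hm hK hH v₁ v₁ hv₁ hv₁ fun v hv => ?_
      rw [Set.union_self]
      refine hA v hv fun h => ?_
      have h4 : v ∈ {v | v ∈ H ∧ (Ms G K v).Nonempty ∧ Disjoint (Ms G K v) (Ms G K v₁)} :=
        ⟨hv, h⟩
      rw [hH'] at h4
      exact h4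
    · obtain ⟨v₂, hv₂, hmax₂⟩ := Set.exists_max_image _ (fun v => (Ms G K v).ncard)
        (Set.toFinite _) hH'
      refine fin h3 hCl hS hU hm hK hH v₁ v₂ hv₁ hv₂.1 fun v hv => ?_
      by_cases hvH : (Ms G K v).Nonempty ∧ Disjoint (Ms G K v) (Ms G K v₁)
      · refine Set.Subset.trans ?_ Set.subset_union_right
        rcases h1 V G K v v₂ hCl hK (hH v hv).1 (hH v₂ hv₂.1).1 with h | h | ⟨-, h | h⟩
        · exact h.trans Set.subset_union_left
        · have h' : Ms G K v₂ = Ms G K v :=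
            Set.eq_of_subset_of_ncard_le h (hmax₂ v ⟨hv, hvH⟩) (Set.toFinite _)
          rw [← h']
          exact Set.subset_union_left
        · exact absurd (h2 V G K v₁ v₂ v hCl hK (hH v₁ hv₁).1 (hH v₂ hv₂.1).1 (hH v hv).1
            hv₂.2.1 hvH.1 hv₂.2.2.symm hvH.2.symm h.symm) hc
        · exact sub_of_one hv h.1
      · exact (hA v hv hvH).trans Set.subset_union_left

end Pool.Agent.MPd439b2.M4
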