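import Pool.Agent.Lib.MP_d439b2_co.M4.Spec

/-!
# MP_d439b2_co, column `C_4`, row `K4:0,12`, W1: petal sets with private non-neighbours
-/

set_option autoImplicit false

namespace Pool.Agent.MPd439b2.M4

open Pool.Agent.MPd439b2 Pool.Agent.MPd439b2.LK

namespace W1Aux

variable {V : Type} {G : SimpleGraph V}

/-- four vertices of a chordal graph do not induce a four-cycle -/
theorem c4 (h0 : LK.S_A0) (hG : Cl G) {a b c d : V} (hab : G.Adj a b) (hbc : G.Adj b c)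
    (hcd : G.Adj c d) (had : G.Adj a d) (hac : ¬ G.Adj a c) (hbd : ¬ G.Adj b d)
    (nac : a ≠ c) (nbd : b ≠ d) : False := by
  have hD : ∀ x y : V, x ≠ y → Disjoint ({x} : Set V) {y} :=
    fun x y h => Set.disjoint_singleton.2 h
  have hT : ∀ x y : V, Tch G {x} {y} ↔ G.Adj x y := by
    intro x y
    simp [Tch]
  exact hG.1 (h0 V G {a} {b} {c} {d} (Conn.singleton G a) (Conn.singleton G b)
    (Conn.singleton G c) (Conn.singleton G d) (hD _ _ hab.ne) (hD _ _ nac) (hD _ _ had.ne)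
    (hD _ _ hbc.ne) (hD _ _ nbd) (hD _ _ hcd.ne) ((hT _ _).2 hab) ((hT _ _).2 hbc)
    ((hT _ _).2 hcd) ((hT _ _).2 had) (fun h => hac ((hT _ _).1 h)) (fun h => hbd ((hT _ _).1 h)))

end W1Aux

open W1Aux in
theorem w1 (h0 : LK.S_A0) (h1 : S_Mo1) : S_W1 := by
  intro V _ G E hG hE hn hne
  have hfst : ∀ e ∈ E, ∀ f ∈ E, e ≠ f → ∀ w ∈ pW G E e, ∀ w' ∈ pW G E f, ¬ G.Adj w w' := by
    intro e he f hf hef w hw w' hw' hadj
    refine c4 h0 hG hadj ((hw'.2 e he).2 hef) (hE e he f hf hef) ((hw.2 f hf).2 (Ne.symm hef))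
      (fun h => (hw.2 e he).1 h rfl) (fun h => (hw'.2 f hf).1 h rfl) ?_ ?_
    · rintro rfl
      exact hw.1 he
    · rintro rfl
      exact hw'.1 hf
  refine ⟨hfst, ?_⟩
  intro v hv
  by_contra hcon
  push Not at hcon
  obtain ⟨hF, h0', hW⟩ := hcon
  have he : ∃ e ∈ E, G.Adj v e := by
    by_contra h
    push Not at h
    exact h0' ⟨hv, h⟩
  have hf : ∃ f ∈ E, ¬ G.Adj v f := by
    by_contra h
    push Not at h
    exact hF ⟨hv, h⟩
  obtain ⟨e, he, hve⟩ := he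
  obtain ⟨f₁, hf1, hvf1⟩ := hf
  have hf2 : ∃ f ∈ E, f ≠ f₁ ∧ ¬ G.Adj v f := by
    by_contra h
    push Not at h
    refine hW f₁ hf1 ⟨hv, fun f hf => ⟨?_, fun hff => h f hf hff⟩⟩
    rintro hvf rfl
    exact hvf1 hvf
  obtain ⟨f₂, hf2, hf21, hvf2⟩ := hf2
  have hef1 : e ≠ f₁ := by
    rintro rfl
    exact hvf1 hve
  have hef2 : e ≠ f₂ := by
    rintro rfl
    exact hvf2 hve
  have hcard : 1 < (E \ {e, f₁, f₂}).ncard := by
    have h3 : ({e, f₁, f₂} : Set V).ncard ≤ 3 := by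
      refine (Set.ncard_insert_le _ _).trans ?_
      have := Set.ncard_insert_le f₁ ({f₂} : Set V)
      rw [Set.ncard_singleton] at this
      omega
    have h4 := Set.le_ncard_sdiff ({e, f₁, f₂} : Set V) E (Set.toFinite _)
    omega
  obtain ⟨g, ⟨hgE, hg⟩, g', ⟨hgE', hg'⟩, hgg⟩ := (Set.one_lt_ncard (Set.toFinite _)).1 hcard
  simp only [Set.mem_insert_iff, Set.mem_singleton_iff, not_or] at hg hg'
  obtain ⟨we, hwe⟩ := hne e he
  have hvwe : ¬ G.Adj v we := by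
    intro h
    refine c4 h0 hG h ((hwe.2 f₁ hf1).2 (Ne.symm hef1)) (hE f₁ hf1 e he (Ne.symm hef1)) hve
      hvf1 (fun h => (hwe.2 e he).1 h rfl) ?_ ?_
    · rintro rfl
      exact hv hf1
    · rintro rfl
      exact hwe.1 he
  have key : ∀ g ∈ E, g ≠ e → g ≠ f₁ → g ≠ f₂ → ∀ wg ∈ pW G E g, G.Adj v wg := by
    intro g hg hge hgf1 hgf2 wg hwg
    by_contra hvw
    have hs : ∀ a b : V, a ≠ b → a ∉ ({b} : Set V) := fun a b h h' => h h'
    refine hG.2 (h1 V G {e} f₁ f₂ wg v we (Conn.singleton G e) (hs _ _ (Ne.symm hef1))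
      (hs _ _ (Ne.symm hef2)) (hs _ _ ?_) (hs _ _ ?_) (hs _ _ ?_) (hE f₁ hf1 f₂ hf2 (Ne.symm hf21))
      ((hwg.2 f₁ hf1).2 (Ne.symm hgf1)).symm ((hwg.2 f₂ hf2).2 (Ne.symm hgf2)).symm
      ⟨e, rfl, hE e he f₁ hf1 hef1⟩ ⟨e, rfl, hE e he f₂ hf2 hef2⟩
      ⟨e, rfl, ((hwg.2 e he).2 (Ne.symm hge)).symm⟩ ⟨e, rfl, hve.symm⟩ hvf1 hvf2 hvw
      ((hwe.2 f₁ hf1).2 (Ne.symm hef1)) ((hwe.2 f₂ hf2).2 (Ne.symm hef2))
      (hfst e he g hg (Ne.symm hge) we hwe wg hwg) ?_ hvwe)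
    · rintro rfl
      exact hwg.1 he
    · rintro rfl
      exact hv he
    · rintro rfl
      exact hwe.1 he
    · rintro p rfl h
      exact (hwe.2 p he).1 h.symm rfl
  obtain ⟨wg, hwg⟩ := hne g hgE
  obtain ⟨wg', hwg'⟩ := hne g' hgE'
  have k1 := key g hgE hg.1 hg.2.1 hg.2.2 wg hwg
  have k2 := key g' hgE' hg'.1 hg'.2.1 hg'.2.2 wg' hwg'
  refine c4 h0 hG k1 ((hwg.2 f₁ hf1).2 (Ne.symm hg.2.1))
    ((hwg'.2 f₁ hf1).2 (Ne.symm hg'.2.1)).symm k2 hvf1 (hfst g hgE g' hgE' hgg wg hwg wg' hwg')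
    ?_ ?_
  · rintro rfl
    exact hv hf1
  · rintro rfl
    exact (hwg.2 g hgE).1 ((hwg'.2 g hgE).2 hgg) rfl

end Pool.Agent.MPd439b2.M4
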